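import Pool.Agent.Helper48.GH.Fix4

/-!
Project GH, block H5: `D_fix`. `L` is a set of complex matrices that is closed under the adjoint in the basis `B` and that
consists of skew matrices for the nondegenerate form `Q`. A tensor that is killed by all `X` that commute with the
semi-invariant matrices, are skew for `Q` and have trace zero on all blocks, is fixed by all `g` that commute with the
semi-invariant matrices, preserve `Q` and have determinant one on all irreducible blocks.
-/

set_option linter.unusedSectionVars false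
set_option linter.unusedVariables false

open Matrix

namespace MH

variable {n : Type*} [Fintype n] [DecidableEq n] {L : Set (Matrix n n ℂ)}

theorem slot_comp48 (a b : ℕ) (g g' h h' : Matrix n n ℂ) :
    (fun k => slot a b g g' k * slot a b h h' k) = slot a b (g * h) (h' * g') := by
  funext k
  rcases k with k | k
  · rfl
  · simp only [slot, Sum.elim_inr, Matrix.transpose_mul]

theorem slot_one48 (a b : ℕ) : slot a b (1 : Matrix n n ℂ) 1 = fun _ => 1 := by
  funext k
  rcases k with k | k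
  · rfl
  · simp [slot]

/-- the Lie algebra and the change of basis -/
theorem dL_basis48 {B Bi : Matrix n n ℂ} (h1 : B * Bi = 1) (h2 : Bi * B = 1) {a b : ℕ} (t : (Fin a ⊕ Fin b → n) → ℂ)
    (X : Matrix n n ℂ) :
    dL a b (actF (slot a b B Bi) t) (B * X * Bi) = actF (slot a b B Bi) (dL a b t X) := by
  rw [dL_apply, dL_apply]
  have h3 := dact_conj (slot a b B Bi) (slot a b Bi B) (by
    rintro (k | k)
    · exact h1
    · simp only [slot, Sum.elim_inr]
      rw [← Matrix.transpose_mul, h1, Matrix.transpose_one]) (lslot a b X) (actF (slot a b B Bi) t)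
  have h4 : actF (slot a b Bi B) (actF (slot a b B Bi) t) = t := by
    rw [actF_mul, slot_comp48, h2, slot_one48, actF_one]
  rw [h4] at h3
  rw [← h3]
  congr 1
  funext k
  rcases k with k | k
  · rfl
  · simp only [lslot, slot, Sum.elim_inr, Matrix.transpose_mul, mul_neg, neg_mul, mul_assoc]

/-- **Block H5.** From the Lie algebra to the group, over all irreducible blocks. -/
theorem D_fix {B Bi Q : Matrix n n ℂ} (h1 : B * Bi = 1) (h2 : Bi * B = 1)
    (hstar : ∀ X ∈ L, Bi * (B * X * Bi)ᴴ * B ∈ L) (hQ : ∀ X ∈ L, Xᵀ * Q + Q * X = 0) (hQd : Q.det ≠ 0)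
    {a b : ℕ} {t : (Fin a ⊕ Fin b → n) → ℂ}
    (hk : ∀ X : Matrix n n ℂ, (∀ T, SemT L T → X * T = T * X) → Xᵀ * Q + Q * X = 0 →
      (∀ f, Com L f → (X * f).trace = 0) → dL a b t X = 0)
    {g : GL n ℂ} (hT : ∀ T, SemT L T → (g : Matrix n n ℂ) * T = T * (g : Matrix n n ℂ))
    (hg : (g : Matrix n n ℂ)ᵀ * Q * (g : Matrix n n ℂ) = Q)
    (hdet : ∀ e, IrrL L e → ((g : Matrix n n ℂ) * e + (1 - e)).det = 1) :
    actF (slot a b (g : Matrix n n ℂ) ((g⁻¹ : GL n ℂ) : Matrix n n ℂ)) t = t := by
  set gm : Matrix n n ℂ := (g : Matrix n n ℂ) with hgm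
  set gi : Matrix n n ℂ := ((g⁻¹ : GL n ℂ) : Matrix n n ℂ) with hgi
  have hggi : gm * gi = 1 := by
    rw [hgm, hgi, ← Units.val_mul, mul_inv_cancel, Units.val_one]
  clear_value gm gi
  set Qi : Matrix n n ℂ := Q⁻¹ with hQi
  have q1 : Q * Qi = 1 := Matrix.mul_nonsing_inv _ (isUnit_iff_ne_zero.2 hQd)
  have q2 : Qi * Q = 1 := Matrix.nonsing_inv_mul _ (isUnit_iff_ne_zero.2 hQd)
  clear_value Qi
  -- forms
  have hB : ∀ F, SemB L F → gmᵀ * F * gm = F := by
    intro F hF
    have hS : SemT L (Qi * F) := by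
      intro X hX
      obtain ⟨c, hc⟩ := hF X hX
      refine ⟨-c, ?_⟩
      have e1 : Qi * Xᵀ = -(X * Qi) := by
        have e2 := hQ X hX
        calc Qi * Xᵀ = Qi * (Xᵀ * Q + Q * X) * Qi - X * Qi := by
              rw [mul_add, add_mul]
              have e3 : Qi * (Xᵀ * Q) * Qi = Qi * Xᵀ * (Q * Qi) := by simp only [mul_assoc]
              have e4 : Qi * (Q * X) * Qi = (Qi * Q) * X * Qi := by simp only [mul_assoc]
              rw [e3, e4, q1, q2, mul_one, one_mul]
              abel
          _ = _ := by rw [e2, mul_zero, zero_mul, zero_sub]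
      have e2 : X * (Qi * F) = -(Qi * (Xᵀ * F)) := by
        rw [← mul_assoc, ← mul_assoc, e1, neg_mul, neg_neg]
      rw [e2, neg_smul, ← mul_smul_comm, ← hc, mul_add]
      simp only [mul_assoc]
      abel
    calc gmᵀ * F * gm = gmᵀ * Q * ((Qi * F) * gm) := by
          have e1 : gmᵀ * Q * ((Qi * F) * gm) = gmᵀ * (Q * Qi) * F * gm := by simp only [mul_assoc]
          rw [e1, q1, mul_one]
      _ = (gmᵀ * Q * gm) * (Qi * F) := by
          rw [← hT _ hS]; simp only [mul_assoc]
      _ = F := by rw [hg, ← mul_assoc, q1, one_mul]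
  -- the change of basis
  set L' : Set (Matrix n n ℂ) := {Y | Bi * Y * B ∈ L} with hL'
  have hin : ∀ X ∈ L, B * X * Bi ∈ L' := by
    intro X hX
    change Bi * (B * X * Bi) * B ∈ L
    have e1 : Bi * (B * X * Bi) * B = (Bi * B) * X * (Bi * B) := by simp only [mul_assoc]
    rw [e1, h2, one_mul, mul_one]
    exact hX
  have hst : ∀ Y ∈ L', Yᴴ ∈ L' := by
    intro Y hY
    have e1 := hstar _ hY
    have e2 : B * (Bi * Y * B) * Bi = Y := by
      calc B * (Bi * Y * B) * Bi = (B * Bi) * Y * (B * Bi) := by simp only [mul_assoc]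
        _ = Y := by rw [h1, one_mul, mul_one]
    rw [e2] at e1
    exact e1
  have back : ∀ Y : Matrix n n ℂ, B * (Bi * Y * B) * Bi = Y := by
    intro Y
    calc B * (Bi * Y * B) * Bi = (B * Bi) * Y * (B * Bi) := by simp only [mul_assoc]
      _ = Y := by rw [h1, one_mul, mul_one]
  have cmul : ∀ Y Z : Matrix n n ℂ, (Bi * Y * B) * (Bi * Z * B) = Bi * (Y * Z) * B := by
    intro Y Z
    calc (Bi * Y * B) * (Bi * Z * B) = Bi * Y * (B * Bi) * Z * B := by simp only [mul_assoc]
      _ = _ := by rw [h1, mul_one]; simp only [mul_assoc]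
  have cmul' : ∀ Y Z : Matrix n n ℂ, (B * Y * Bi) * (B * Z * Bi) = B * (Y * Z) * Bi := by
    intro Y Z
    calc (B * Y * Bi) * (B * Z * Bi) = B * Y * (Bi * B) * Z * Bi := by simp only [mul_assoc]
      _ = _ := by rw [h2, mul_one]; simp only [mul_assoc]
  -- semi-invariants
  have sT : ∀ T, SemT L T → SemT L' (B * T * Bi) := by
    intro T hT' Y hY
    obtain ⟨c, hc⟩ := hT' _ hY
    refine ⟨c, ?_⟩
    have e1 : Y * (B * T * Bi) - B * T * Bi * Y = B * (Bi * Y * B * T - T * (Bi * Y * B)) * Bi := by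
      conv_lhs => rw [← back Y]
      rw [cmul', cmul', ← sub_mul, ← mul_sub]
    rw [e1, hc, mul_smul_comm, smul_mul_assoc]
  have sT' : ∀ T, SemT L' T → SemT L (Bi * T * B) := by
    intro T hT' X hX
    obtain ⟨c, hc⟩ := hT' _ (hin X hX)
    refine ⟨c, ?_⟩
    have e0 : Bi * (B * X * Bi) * B = X := by
      calc Bi * (B * X * Bi) * B = (Bi * B) * X * (Bi * B) := by simp only [mul_assoc]
        _ = X := by rw [h2, one_mul, mul_one]
    have e1 : X * (Bi * T * B) - Bi * T * B * X = Bi * (B * X * Bi * T - T * (B * X * Bi)) * B := by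
      conv_lhs => rw [← e0]
      rw [cmul, cmul, ← sub_mul, ← mul_sub]
    rw [e1, hc, mul_smul_comm, smul_mul_assoc]
  have sB' : ∀ F, SemB L' F → SemB L (Bᵀ * F * B) := by
    intro F hF X hX
    obtain ⟨c, hc⟩ := hF _ (hin X hX)
    refine ⟨c, ?_⟩
    have e1 : B * X = (B * X * Bi) * B := by rw [mul_assoc, h2, mul_one]
    have e2 : Xᵀ * Bᵀ = Bᵀ * (B * X * Bi)ᵀ := by
      rw [← Matrix.transpose_mul, ← Matrix.transpose_mul, ← e1]
    have e3 : Xᵀ * (Bᵀ * F * B) = Bᵀ * ((B * X * Bi)ᵀ * F) * B := by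
      rw [← mul_assoc, ← mul_assoc, e2]; simp only [mul_assoc]
    have e4 : Bᵀ * F * B * X = Bᵀ * (F * (B * X * Bi)) * B := by
      calc Bᵀ * F * B * X = Bᵀ * F * (B * X) := by simp only [mul_assoc]
        _ = Bᵀ * F * (B * X * Bi * B) := by rw [← e1]
        _ = _ := by simp only [mul_assoc]
    rw [e3, e4, ← add_mul, ← mul_add, hc, mul_smul_comm, smul_mul_assoc]
  have sB : ∀ F, SemB L F → SemB L' (Biᵀ * F * Bi) := by
    intro F hF Y hY
    obtain ⟨c, hc⟩ := hF _ hY
    refine ⟨c, ?_⟩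
    have e1 : Bi * Y = (Bi * Y * B) * Bi := by rw [mul_assoc, h1, mul_one]
    have e2 : Yᵀ * Biᵀ = Biᵀ * (Bi * Y * B)ᵀ := by
      rw [← Matrix.transpose_mul, ← Matrix.transpose_mul, ← e1]
    have e3 : Yᵀ * (Biᵀ * F * Bi) = Biᵀ * ((Bi * Y * B)ᵀ * F) * Bi := by
      rw [← mul_assoc, ← mul_assoc, e2]; simp only [mul_assoc]
    have e4 : Biᵀ * F * Bi * Y = Biᵀ * (F * (Bi * Y * B)) * Bi := by
      calc Biᵀ * F * Bi * Y = Biᵀ * F * (Bi * Y) := by simp only [mul_assoc]
        _ = Biᵀ * F * (Bi * Y * B * Bi) := by rw [← e1]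
        _ = _ := by simp only [mul_assoc]
    rw [e3, e4, ← add_mul, ← mul_add, hc, mul_smul_comm, smul_mul_assoc]
  have sC : ∀ f, Com L f → Com L' (B * f * Bi) := by
    intro f hf Y hY
    have e1 := hf _ hY
    conv_lhs => rw [← back Y]
    conv_rhs => rw [← back Y]
    rw [cmul', cmul', e1]
  have sC' : ∀ f, Com L' f → Com L (Bi * f * B) := by
    intro f hf X hX
    have e0 : Bi * (B * X * Bi) * B = X := by
      calc Bi * (B * X * Bi) * B = (Bi * B) * X * (Bi * B) := by simp only [mul_assoc]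
        _ = X := by rw [h2, one_mul, mul_one]
    have e1 := hf _ (hin X hX)
    conv_lhs => rw [← e0]
    conv_rhs => rw [← e0]
    rw [cmul, cmul, e1]
  have sI : ∀ e, IrrL L' e → IrrL L (Bi * e * B) := by
    intro e he
    refine ⟨sC' e he.mem, ?_, ?_, ?_⟩
    · rw [cmul, he.idem]
    · intro h0
      apply he.ne
      rw [← back e, h0, mul_zero, zero_mul]
    · intro x hx
      obtain ⟨c, hc⟩ := he.min _ (sC x hx)
      refine ⟨c, ?_⟩
      have e0 : Bi * (B * x * Bi) * B = x := by
        calc Bi * (B * x * Bi) * B = (Bi * B) * x * (Bi * B) := by simp only [mul_assoc]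
          _ = x := by rw [h2, one_mul, mul_one]
      calc Bi * e * B * x * (Bi * e * B) = Bi * (e * (B * x * Bi) * e) * B := by simp only [mul_assoc]
        _ = c • (Bi * e * B) := by rw [hc, mul_smul_comm, smul_mul_assoc]
  obtain ⟨ι, _, _, e, a1, a2, a3, a4⟩ := exists_irr_sum hst
  have D : Dec48 L' e := ⟨hst, a1, a2, a3, a4⟩
  have hmain : B * gm * Bi ∈ Fixm61 a b (actF (slot a b B Bi) t) := by
    refine D.fix (gi := B * gi * Bi) ?_ ?_ ?_ ?_ ?_
    · intro Y hY1 hY2 hY3
      have e1 : dL a b t (Bi * Y * B) = 0 := by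
        refine hk _ ?_ ?_ ?_
        · intro T hT'
          have e2 := hY1 _ (sT T hT')
          have e0 : T = Bi * (B * T * Bi) * B := by
            calc T = (Bi * B) * T * (Bi * B) := by rw [h2, one_mul, mul_one]
              _ = _ := by simp only [mul_assoc]
          rw [e0, cmul, cmul, e2]
        · have hQB : SemB L Q := fun X hX => ⟨0, by rw [hQ X hX, zero_smul]⟩
          have e2 := hY2 _ (sB Q hQB)
          have e3 : (Bi * Y * B)ᵀ * Q = Bᵀ * (Yᵀ * (Biᵀ * Q * Bi)) * B := by
            rw [Matrix.transpose_mul, Matrix.transpose_mul]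
            calc Bᵀ * (Yᵀ * Biᵀ) * Q = Bᵀ * (Yᵀ * Biᵀ) * Q * (Bi * B) := by rw [h2, mul_one]
              _ = _ := by simp only [mul_assoc]
          have e4 : Q * (Bi * Y * B) = Bᵀ * (Biᵀ * Q * Bi * Y) * B := by
            calc Q * (Bi * Y * B) = (Bi * B)ᵀ * Q * (Bi * Y * B) := by
                  rw [h2, Matrix.transpose_one, one_mul]
              _ = _ := by rw [Matrix.transpose_mul]; simp only [mul_assoc]
          rw [e3, e4, ← add_mul, ← mul_add, e2, mul_zero, zero_mul]
        · intro f hf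
          have e2 := hY3 _ (sC f hf)
          have e3 : Bi * Y * B * f = Bi * (Y * (B * f * Bi)) * B := by
            calc Bi * Y * B * f = Bi * Y * B * f * (Bi * B) := by rw [h2, mul_one]
              _ = _ := by simp only [mul_assoc]
          rw [e3, Matrix.trace_mul_comm, ← mul_assoc, h1, one_mul, e2]
      have e2 := dL_basis48 h1 h2 t (Bi * Y * B)
      rw [back, e1, actF_zero] at e2
      exact e2
    · rw [cmul', hggi, mul_one, h1]
    · intro T hT'
      have e1 := hT _ (sT' T hT')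
      have e0 : T = B * (Bi * T * B) * Bi := (back T).symm
      rw [e0, cmul', cmul', e1]
    · intro F hF
      have e1 := hB _ (sB' F hF)
      rw [Matrix.transpose_mul, Matrix.transpose_mul]
      calc Biᵀ * (gmᵀ * Bᵀ) * F * (B * gm * Bi) = Biᵀ * (gmᵀ * (Bᵀ * F * B) * gm) * Bi := by
            simp only [mul_assoc]
        _ = (B * Bi)ᵀ * F * (B * Bi) := by rw [e1, Matrix.transpose_mul]; simp only [mul_assoc]
        _ = F := by rw [h1, Matrix.transpose_one, one_mul, mul_one]
    · intro i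
      have e1 := hdet _ (sI (e i) (a1 i))
      have e2 : B * gm * Bi * e i + (1 - e i) = B * (gm * (Bi * e i * B) + (1 - Bi * e i * B)) * Bi := by
        have e3 : B * (gm * (Bi * e i * B) + (1 - Bi * e i * B)) * Bi =
            B * gm * Bi * e i * (B * Bi) + (B * Bi - (B * Bi) * e i * (B * Bi)) := by
          rw [mul_add, add_mul, mul_sub, sub_mul, mul_one]
          simp only [mul_assoc]
        rw [e3, h1, mul_one, mul_one, one_mul]
      rw [e2, Matrix.det_mul, Matrix.det_mul, e1, mul_one, ← Matrix.det_mul, h1, Matrix.det_one]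
  obtain ⟨g', b1, b2⟩ := hmain
  have hg' : g' = B * gi * Bi := by
    have e1 : (B * gi * Bi) * (B * gm * Bi) = 1 := by
      rw [cmul', mul_eq_one_comm.1 hggi, mul_one, h1]
    calc g' = (B * gi * Bi) * (B * gm * Bi) * g' := by rw [e1, one_mul]
      _ = _ := by rw [mul_assoc, b1, mul_one]
  rw [hg', actF_mul, slot_comp48] at b2
  have e5 : slot a b (B * gm * Bi * B) (Bi * (B * gi * Bi)) = slot a b (B * gm) (gi * Bi) := by
    have e6 : B * gm * Bi * B = B * gm := by rw [mul_assoc, h2, mul_one]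
    have e7 : Bi * (B * gi * Bi) = gi * Bi := by
      rw [← mul_assoc, ← mul_assoc, h2, one_mul]
    rw [e6, e7]
  rw [e5, ← slot_comp48 a b B Bi gm gi, ← actF_mul] at b2
  have hinv : ∀ u : (Fin a ⊕ Fin b → n) → ℂ, actF (slot a b Bi B) (actF (slot a b B Bi) u) = u := by
    intro u
    rw [actF_mul, slot_comp48, h2, slot_one48, actF_one]
  have e6 := congrArg (actF (slot a b Bi B)) b2
  rw [hinv, hinv] at e6
  exact e6

end MH
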