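import Pool.Agent.Helper98.MH.Spc
import Pool.Agent.Helper98.MH.Onb

/-!
Project GH, block H5, second part: a set `L` of complex matrices that is closed under the adjoint; semi-invariant
matrices and forms; the irreducible idempotents of the commutant; the Lemma of Schur for semi-invariants.
-/

set_option linter.unusedSectionVars false
set_option linter.unusedVariables false

open Matrix

namespace MH

variable {n : Type*} [Fintype n] [DecidableEq n]

/-- `T` spans a line that is stable under the bracket with the elements of `L`. -/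
def SemT (L : Set (Matrix n n ℂ)) (T : Matrix n n ℂ) : Prop := ∀ X ∈ L, ∃ c : ℂ, X * T - T * X = c • T

/-- The bilinear form with matrix `F` spans a line that is stable under the elements of `L`. -/
def SemB (L : Set (Matrix n n ℂ)) (F : Matrix n n ℂ) : Prop := ∀ X ∈ L, ∃ c : ℂ, Xᵀ * F + F * X = c • F

/-- `x` commutes with the elements of `L`. -/
def Com (L : Set (Matrix n n ℂ)) (x : Matrix n n ℂ) : Prop := ∀ X ∈ L, X * x = x * X

/-- an irreducible idempotent of the commutant of `L` -/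
structure IrrL (L : Set (Matrix n n ℂ)) (e : Matrix n n ℂ) : Prop where
  mem : Com L e
  idem : e * e = e
  ne : e ≠ 0
  min : ∀ x, Com L x → ∃ c : ℂ, e * x * e = c • e

variable {L : Set (Matrix n n ℂ)}

namespace Com

theorem one : Com L 1 := fun X _ => by rw [mul_one, one_mul]

theorem zero : Com L 0 := fun X _ => by rw [mul_zero, zero_mul]

theorem add {x y : Matrix n n ℂ} (hx : Com L x) (hy : Com L y) : Com L (x + y) := fun X hX => by
  rw [mul_add, add_mul, hx X hX, hy X hX]

theorem sub {x y : Matrix n n ℂ} (hx : Com L x) (hy : Com L y) : Com L (x - y) := fun X hX => by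
  rw [mul_sub, sub_mul, hx X hX, hy X hX]

theorem smul {x : Matrix n n ℂ} (c : ℂ) (hx : Com L x) : Com L (c • x) := fun X hX => by
  rw [mul_smul_comm, smul_mul_assoc, hx X hX]

theorem mul {x y : Matrix n n ℂ} (hx : Com L x) (hy : Com L y) : Com L (x * y) := fun X hX => by
  rw [← mul_assoc, hx X hX, mul_assoc, hy X hX, mul_assoc]

theorem star (hL : ∀ X ∈ L, Xᴴ ∈ L) {x : Matrix n n ℂ} (hx : Com L x) : Com L xᴴ := fun X hX => by
  have h := congrArg conjTranspose (hx Xᴴ (hL X hX))
  rw [conjTranspose_mul, conjTranspose_mul, conjTranspose_conjTranspose] at h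
  exact h.symm

theorem sum {ι : Type*} {s : Finset ι} {x : ι → Matrix n n ℂ} (hx : ∀ i ∈ s, Com L (x i)) :
    Com L (∑ i ∈ s, x i) := fun X hX => by
  rw [Finset.mul_sum, Finset.sum_mul]
  exact Finset.sum_congr rfl fun i hi => hx i hi X hX

theorem adjoin {x y : Matrix n n ℂ} (hx : Com L x) (hy : y ∈ Algebra.adjoin ℂ ({x} : Set (Matrix n n ℂ))) :
    Com L y := by
  induction hy using Algebra.adjoin_induction with
  | mem z hz =>
    rw [Set.mem_singleton_iff] at hz
    rw [hz]
    exact hx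
  | algebraMap r =>
    rw [Algebra.algebraMap_eq_smul_one]
    exact Com.one.smul r
  | add a b _ _ ha hb => exact ha.add hb
  | mul a b _ _ ha hb => exact ha.mul hb

theorem semT {x : Matrix n n ℂ} (hx : Com L x) : SemT L x := fun X hX => ⟨0, by rw [hx X hX, sub_self, zero_smul]⟩

end Com

theorem SemT.mul_com {T x : Matrix n n ℂ} (hT : SemT L T) (hx : Com L x) : SemT L (T * x) := fun X hX => by
  obtain ⟨c, hc⟩ := hT X hX
  refine ⟨c, ?_⟩
  rw [← smul_mul_assoc, ← hc, sub_mul, mul_assoc, mul_assoc, mul_assoc, ← hx X hX]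

theorem SemT.com_mul {T x : Matrix n n ℂ} (hT : SemT L T) (hx : Com L x) : SemT L (x * T) := fun X hX => by
  obtain ⟨c, hc⟩ := hT X hX
  refine ⟨c, ?_⟩
  rw [← mul_smul_comm, ← hc, mul_sub, ← mul_assoc, hx X hX]
  simp only [mul_assoc]

theorem SemB.mul_com {F x : Matrix n n ℂ} (hF : SemB L F) (hx : Com L x) : SemB L (F * x) := fun X hX => by
  obtain ⟨c, hc⟩ := hF X hX
  refine ⟨c, ?_⟩
  rw [← smul_mul_assoc, ← hc, add_mul, mul_assoc, mul_assoc, mul_assoc, ← hx X hX]

theorem SemB.com_mul {F x : Matrix n n ℂ} (hF : SemB L F) (hx : Com L x) : SemB L (xᵀ * F) := fun X hX => by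
  obtain ⟨c, hc⟩ := hF X hX
  refine ⟨c, ?_⟩
  have h1 := congrArg Matrix.transpose (hx X hX)
  rw [Matrix.transpose_mul, Matrix.transpose_mul] at h1
  rw [← mul_smul_comm, ← hc, mul_add, ← mul_assoc, ← h1]
  simp only [mul_assoc]

theorem SemT.star (hL : ∀ X ∈ L, Xᴴ ∈ L) {T : Matrix n n ℂ} (hT : SemT L T) : SemT L Tᴴ := fun X hX => by
  obtain ⟨c, hc⟩ := hT Xᴴ (hL X hX)
  refine ⟨-starRingEnd ℂ c, ?_⟩
  have h := congrArg conjTranspose hc
  rw [conjTranspose_sub, conjTranspose_mul, conjTranspose_mul, conjTranspose_conjTranspose, conjTranspose_smul] at h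
  rw [neg_smul, starRingEnd_apply, ← h]
  abel

private theorem conj_tr48 (X : Matrix n n ℂ) : ((Xᴴ)ᵀ)ᴴ = Xᵀ := by
  ext i j
  simp [Matrix.conjTranspose_apply, Matrix.transpose_apply]

/-- the adjoint of a semi-invariant form -/
theorem SemB.star (hL : ∀ X ∈ L, Xᴴ ∈ L) {F : Matrix n n ℂ} (hF : SemB L F) :
    ∀ X ∈ L, ∃ c : ℂ, X * Fᴴ + Fᴴ * Xᵀ = c • Fᴴ := fun X hX => by
  obtain ⟨c, hc⟩ := hF Xᴴ (hL X hX)
  refine ⟨starRingEnd ℂ c, ?_⟩
  have h := congrArg conjTranspose hc
  rw [conjTranspose_add, conjTranspose_mul, conjTranspose_mul, conjTranspose_conjTranspose, conjTranspose_smul,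
    conj_tr48] at h
  rw [starRingEnd_apply, ← h]
  abel

/-- the adjoint of a semi-invariant form on the dual space -/
theorem SemB.of_star (hL : ∀ X ∈ L, Xᴴ ∈ L) {G : Matrix n n ℂ}
    (hG : ∀ X ∈ L, ∃ c : ℂ, X * G + G * Xᵀ = c • G) : SemB L Gᴴ := fun X hX => by
  obtain ⟨c, hc⟩ := hG Xᴴ (hL X hX)
  refine ⟨starRingEnd ℂ c, ?_⟩
  have h := congrArg conjTranspose hc
  rw [conjTranspose_add, conjTranspose_mul, conjTranspose_mul, conjTranspose_conjTranspose, conjTranspose_smul,
    conj_tr48] at h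
  rw [starRingEnd_apply, ← h]
  abel

theorem tr_ne48 {x : Matrix n n ℂ} (h : x ≠ 0) : (xᴴ * x).trace ≠ 0 := by
  intro h0
  have h1 := trace_pos h
  rw [h0, Complex.zero_re] at h1
  exact lt_irrefl _ h1

/-- `Tᴴ T` commutes with `L` -/
theorem SemT.com (hL : ∀ X ∈ L, Xᴴ ∈ L) {T : Matrix n n ℂ} (hT : SemT L T) : Com L (Tᴴ * T) := fun X hX => by
  by_cases hT0 : T = 0
  · rw [hT0]
    simp
  obtain ⟨c, hc⟩ := hT X hX
  obtain ⟨d, hd⟩ := hT.star hL X hX
  have h1 : X * (Tᴴ * T) - Tᴴ * T * X = (c + d) • (Tᴴ * T) := by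
    calc X * (Tᴴ * T) - Tᴴ * T * X = (X * Tᴴ - Tᴴ * X) * T + Tᴴ * (X * T - T * X) := by
          rw [sub_mul, mul_sub]
          simp only [mul_assoc]
          abel
      _ = _ := by rw [hc, hd, smul_mul_assoc, mul_smul_comm, add_smul, add_comm]
  have h2 := congrArg Matrix.trace h1
  rw [Matrix.trace_sub, Matrix.trace_mul_comm X, sub_self, Matrix.trace_smul, smul_eq_mul] at h2
  have h3 : c + d = 0 := (mul_eq_zero.1 h2.symm).resolve_right (tr_ne48 hT0)
  rw [h3, zero_smul] at h1
  exact sub_eq_zero.1 h1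

theorem SemT.com' (hL : ∀ X ∈ L, Xᴴ ∈ L) {T : Matrix n n ℂ} (hT : SemT L T) : Com L (T * Tᴴ) := by
  have h := (hT.star hL).com hL
  rwa [conjTranspose_conjTranspose] at h

/-- `Fᴴ F` commutes with `L` -/
theorem SemB.com (hL : ∀ X ∈ L, Xᴴ ∈ L) {F : Matrix n n ℂ} (hF : SemB L F) : Com L (Fᴴ * F) := fun X hX => by
  by_cases hF0 : F = 0
  · rw [hF0]
    simp
  obtain ⟨c, hc⟩ := hF X hX
  obtain ⟨d, hd⟩ := hF.star hL X hX
  have h1 : X * (Fᴴ * F) - Fᴴ * F * X = (d - c) • (Fᴴ * F) := by
    calc X * (Fᴴ * F) - Fᴴ * F * X = (X * Fᴴ + Fᴴ * Xᵀ) * F - Fᴴ * (Xᵀ * F + F * X) := by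
          rw [add_mul, mul_add]
          simp only [mul_assoc]
          abel
      _ = _ := by rw [hc, hd, smul_mul_assoc, mul_smul_comm, sub_smul]
  have h2 := congrArg Matrix.trace h1
  rw [Matrix.trace_sub, Matrix.trace_mul_comm X, sub_self, Matrix.trace_smul, smul_eq_mul] at h2
  have h3 : d - c = 0 := (mul_eq_zero.1 h2.symm).resolve_right (tr_ne48 hF0)
  rw [h3, zero_smul] at h1
  exact sub_eq_zero.1 h1

/-! ### Schur -/

theorem IrrL.tr_ne {e : Matrix n n ℂ} (he : IrrL L e) (hs : eᴴ = e) : e.trace ≠ 0 := by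
  have h := tr_ne48 he.ne
  rwa [hs, he.idem] at h

/-- A nonzero semi-invariant between two irreducible blocks is invertible. -/
theorem SemT.inv (hL : ∀ X ∈ L, Xᴴ ∈ L) {e f T : Matrix n n ℂ} (he : IrrL L e) (hf : IrrL L f) (hes : eᴴ = e)
    (hfs : fᴴ = f) (hT : SemT L T) (h1 : e * T = T) (h2 : T * f = T) (h0 : T ≠ 0) :
    ∃ T' : Matrix n n ℂ, T' * T = f ∧ T * T' = e ∧ f * T' = T' ∧ T' * e = T' ∧ SemT L T' := by
  have h3 : f * Tᴴ = Tᴴ := by
    have h := congrArg conjTranspose h2
    rwa [conjTranspose_mul, hfs] at h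
  have h4 : Tᴴ * e = Tᴴ := by
    have h := congrArg conjTranspose h1
    rwa [conjTranspose_mul, hes] at h
  obtain ⟨lam, hlam⟩ := hf.min _ (hT.com hL)
  obtain ⟨mu, hmu⟩ := he.min _ (hT.com' hL)
  rw [← mul_assoc, h3, mul_assoc, h2] at hlam
  rw [← mul_assoc, h1, mul_assoc, h4] at hmu
  have hl0 : lam ≠ 0 := by
    intro h
    rw [h, zero_smul] at hlam
    exact h0 (eq_zero_of_mul hlam)
  have hlm : lam = mu := by
    have e1 : T * (Tᴴ * T) = T * Tᴴ * T := by rw [mul_assoc]
    rw [hlam, hmu, mul_smul_comm, smul_mul_assoc, h2, h1] at e1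
    have e2 : (lam - mu) • T = 0 := by rw [sub_smul, e1, sub_self]
    exact sub_eq_zero.1 ((smul_eq_zero.1 e2).resolve_right h0)
  refine ⟨lam⁻¹ • Tᴴ, ?_, ?_, ?_, ?_, ?_⟩
  · rw [smul_mul_assoc, hlam, smul_smul, inv_mul_cancel₀ hl0, one_smul]
  · rw [mul_smul_comm, hmu, ← hlm, smul_smul, inv_mul_cancel₀ hl0, one_smul]
  · rw [mul_smul_comm, h3]
  · rw [smul_mul_assoc, h4]
  · intro X hX
    obtain ⟨c, hc⟩ := hT.star hL X hX
    refine ⟨c, ?_⟩
    rw [mul_smul_comm, smul_mul_assoc, ← smul_sub, hc, smul_comm]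

/-- A semi-invariant of an irreducible block is a scalar. -/
theorem SemT.scalar (hL : ∀ X ∈ L, Xᴴ ∈ L) {e T : Matrix n n ℂ} (he : IrrL L e) (hes : eᴴ = e)
    (hT : SemT L T) (h1 : e * T = T) (h2 : T * e = T) : ∃ c : ℂ, T = c • e := by
  by_cases h0 : T = 0
  · exact ⟨0, by rw [h0, zero_smul]⟩
  obtain ⟨T', a1, a2, a3, a4, a5⟩ := hT.inv hL he he hes hes h1 h2 h0
  have hcom : Com L T := by
    intro X hX
    obtain ⟨c, hc⟩ := hT X hX
    have e1 : (X * T - T * X) * T' = (c • T) * T' := by rw [hc]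
    rw [sub_mul, mul_assoc X, a2, smul_mul_assoc, a2] at e1
    have e2 := congrArg Matrix.trace e1
    rw [Matrix.trace_sub, Matrix.trace_mul_comm (T * X), ← mul_assoc, a1, Matrix.trace_mul_comm X, sub_self,
      Matrix.trace_smul, smul_eq_mul] at e2
    have e3 : c = 0 := (mul_eq_zero.1 e2.symm).resolve_right (he.tr_ne hes)
    rw [e3, zero_smul] at hc
    exact sub_eq_zero.1 hc
  obtain ⟨c, hc⟩ := he.min T hcom
  rw [h1, h2] at hc
  exact ⟨c, hc⟩

private theorem tr_herm48 {f : Matrix n n ℂ} (hfs : fᴴ = f) : (fᵀ)ᴴ = fᵀ := by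
  have h : (fᵀ)ᴴ = (fᴴ)ᵀ := by
    ext i j
    simp [Matrix.conjTranspose_apply, Matrix.transpose_apply]
  rw [h, hfs]

/-- A nonzero semi-invariant form on two irreducible blocks is invertible. -/
theorem SemB.inv (hL : ∀ X ∈ L, Xᴴ ∈ L) {e f F : Matrix n n ℂ} (he : IrrL L e) (hf : IrrL L f) (hes : eᴴ = e)
    (hfs : fᴴ = f) (hF : SemB L F) (h1 : eᵀ * F = F) (h2 : F * f = F) (h0 : F ≠ 0) :
    ∃ F' : Matrix n n ℂ, F' * F = f ∧ F * F' = eᵀ ∧ f * F' = F' ∧ F' * eᵀ = F' := by
  have h3 : f * Fᴴ = Fᴴ := by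
    have h := congrArg conjTranspose h2
    rwa [conjTranspose_mul, hfs] at h
  have h4 : Fᴴ * eᵀ = Fᴴ := by
    have h := congrArg conjTranspose h1
    rwa [conjTranspose_mul, tr_herm48 hes] at h
  obtain ⟨lam, hlam⟩ := hf.min _ (hF.com hL)
  rw [← mul_assoc, h3, mul_assoc, h2] at hlam
  -- the transposed form
  have hFt : SemB L Fᵀ := by
    intro X hX
    obtain ⟨c, hc⟩ := hF X hX
    refine ⟨c, ?_⟩
    have h := congrArg Matrix.transpose hc
    rw [Matrix.transpose_add, Matrix.transpose_mul, Matrix.transpose_mul, Matrix.transpose_transpose,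
      Matrix.transpose_smul] at h
    rw [← h]
    abel
  have h5 : Fᵀ * e = Fᵀ := by
    have h := congrArg Matrix.transpose h1
    rwa [Matrix.transpose_mul, Matrix.transpose_transpose] at h
  have h6 : e * (Fᵀ)ᴴ = (Fᵀ)ᴴ := by
    have h := congrArg conjTranspose h5
    rwa [conjTranspose_mul, hes] at h
  obtain ⟨mu, hmu⟩ := he.min _ (hFt.com hL)
  rw [← mul_assoc, h6, mul_assoc, h5] at hmu
  have h7 : F * Fᴴ = mu • eᵀ := by
    have h := congrArg Matrix.transpose hmu
    rw [Matrix.transpose_mul, Matrix.transpose_transpose, Matrix.transpose_smul] at h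
    have h8 : ((Fᵀ)ᴴ)ᵀ = Fᴴ := by
      ext i j
      simp [Matrix.conjTranspose_apply, Matrix.transpose_apply]
    rwa [h8] at h
  have hl0 : lam ≠ 0 := by
    intro h
    rw [h, zero_smul] at hlam
    exact h0 (eq_zero_of_mul hlam)
  have hlm : lam = mu := by
    have e1 : F * (Fᴴ * F) = F * Fᴴ * F := by rw [mul_assoc]
    rw [hlam, h7, mul_smul_comm, smul_mul_assoc, h2, h1] at e1
    have e2 : (lam - mu) • F = 0 := by rw [sub_smul, e1, sub_self]
    exact sub_eq_zero.1 ((smul_eq_zero.1 e2).resolve_right h0)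
  refine ⟨lam⁻¹ • Fᴴ, ?_, ?_, ?_, ?_⟩
  · rw [smul_mul_assoc, hlam, smul_smul, inv_mul_cancel₀ hl0, one_smul]
  · rw [mul_smul_comm, h7, ← hlm, smul_smul, inv_mul_cancel₀ hl0, one_smul]
  · rw [mul_smul_comm, h3]
  · rw [smul_mul_assoc, h4]

/-! ### the decomposition -/

/-- Every Hermitian idempotent of the commutant is a sum of pairwise orthogonal irreducible Hermitian idempotents. -/
theorem exists_irr_sum_aux (hL : ∀ X ∈ L, Xᴴ ∈ L) (N : ℕ) : ∀ p : Matrix n n ℂ, p.rank ≤ N → Com L p → p * p = p → pᴴ = p →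
    ∃ (ι : Type) (_ : Fintype ι) (_ : DecidableEq ι) (e : ι → Matrix n n ℂ), (∀ i, IrrL L (e i)) ∧
      (∀ i, (e i)ᴴ = e i) ∧ (∀ i j, i ≠ j → e i * e j = 0) ∧ ∑ i, e i = p := by
  induction N with
  | zero =>
    intro p hr _ hpp hps
    have h1 : p.trace = 0 := by
      rw [← rank_eq_trace hpp, Nat.le_zero.1 hr, Nat.cast_zero]
    have h2 : p = 0 := by
      by_contra h0
      have h3 := tr_ne48 h0
      rw [hps, hpp] at h3
      exact h3 h1
    exact ⟨Empty, inferInstance, inferInstance, fun i => i.elim, fun i => i.elim, fun i => i.elim,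
      fun i => i.elim, by rw [h2]; simp⟩
  | succ N ih =>
    intro p hr hp hpp hps
    by_cases h0 : p = 0
    · exact ⟨Empty, inferInstance, inferInstance, fun i => i.elim, fun i => i.elim, fun i => i.elim,
        fun i => i.elim, by rw [h0]; simp⟩
    by_cases hmin : ∀ x, Com L x → ∃ c : ℂ, p * x * p = c • p
    · refine ⟨Unit, inferInstance, inferInstance, fun _ => p, fun _ => ⟨hp, hpp, h0, hmin⟩, fun _ => hps, ?_, by simp⟩
      intro i j hij
      exact absurd rfl hij
    push Not at hmin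
    obtain ⟨x, hx, hxp⟩ := hmin
    -- a Hermitian element that is not a multiple of `p`
    obtain ⟨y, hy, hys, hpy, hyp, hyc⟩ : ∃ y : Matrix n n ℂ, Com L y ∧ yᴴ = y ∧ p * y = y ∧ y * p = y ∧
        ∀ c : ℂ, y ≠ c • p := by
      set z := p * x * p with hz
      have hzc : Com L z := (hp.mul hx).mul hp
      have hzs : Com L zᴴ := hzc.star hL
      have hpz : p * z = z := by rw [hz, ← mul_assoc, ← mul_assoc, hpp]
      have hzp : z * p = z := by rw [hz, mul_assoc, hpp]
      have hpz' : p * zᴴ = zᴴ := by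
        have h := congrArg conjTranspose hzp
        rwa [conjTranspose_mul, hps] at h
      have hzp' : zᴴ * p = zᴴ := by
        have h := congrArg conjTranspose hpz
        rwa [conjTranspose_mul, hps] at h
      by_cases h1 : ∀ c : ℂ, z + zᴴ ≠ c • p
      · refine ⟨z + zᴴ, hzc.add hzs, ?_, ?_, ?_, h1⟩
        · rw [conjTranspose_add, conjTranspose_conjTranspose, add_comm]
        · rw [mul_add, hpz, hpz']
        · rw [add_mul, hzp, hzp']
      · push Not at h1
        obtain ⟨c, hc⟩ := h1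
        refine ⟨Complex.I • (z - zᴴ), (hzc.sub hzs).smul _, ?_, ?_, ?_, ?_⟩
        · rw [conjTranspose_smul, conjTranspose_sub, conjTranspose_conjTranspose]
          have : star Complex.I = -Complex.I := by simp
          rw [this, neg_smul, ← smul_neg, neg_sub]
        · rw [mul_smul_comm, mul_sub, hpz, hpz']
        · rw [smul_mul_assoc, sub_mul, hzp, hzp']
        · intro d hd
          have h2 : z - zᴴ = (-Complex.I * d) • p := by
            rw [mul_smul, ← hd, smul_smul, neg_mul, Complex.I_mul_I, neg_neg, one_smul]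
          apply hxp ((c + -Complex.I * d) / 2)
          have h3 : (2 : ℂ) • z = (c + -Complex.I * d) • p := by
            rw [add_smul, ← hc, ← h2, two_smul]
            abel
          have h4 : z = (2 : ℂ)⁻¹ • ((2 : ℂ) • z) := by
            rw [smul_smul, inv_mul_cancel₀ two_ne_zero, one_smul]
          rw [h4, h3, smul_smul]
          congr 1
          ring
    obtain ⟨F, Λ, hF, hFa⟩ := exists_spec98 hys
    have hFc : ∀ μ, Com L (F μ) := fun μ => hy.adjoin (hFa μ)
    have hFp : ∀ μ, F μ * p = p * F μ := by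
      intro μ
      have h1 : Com {p} y := by
        intro X hX
        rw [Set.mem_singleton_iff] at hX
        rw [hX, hpy, hyp]
      exact ((h1.adjoin (hFa μ)) p rfl).symm
    obtain ⟨μ, hq0, hqp⟩ : ∃ μ, F μ * p ≠ 0 ∧ F μ * p ≠ p := by
      by_contra hcon
      push Not at hcon
      have h1 : ∃ μ ∈ Λ, F μ * p ≠ 0 := by
        by_contra h2
        push Not at h2
        apply h0
        calc p = (∑ μ ∈ Λ, F μ) * p := by rw [hF.sum, one_mul]
          _ = 0 := by
            rw [Finset.sum_mul]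
            exact Finset.sum_eq_zero h2
      obtain ⟨μ, hμ, h2⟩ := h1
      have h3 := hcon μ h2
      apply hyc (μ : ℂ)
      have h4 : ∀ ν, ν ≠ μ → F ν * p = 0 := by
        intro ν hν
        rw [← h3, ← mul_assoc, hF.mul, if_neg hν, zero_mul]
      calc y = y * p := hyp.symm
        _ = (∑ ν ∈ Λ, (ν : ℂ) • F ν) * p := by rw [← hF.eq]
        _ = (μ : ℂ) • p := by
          rw [Finset.sum_mul, Finset.sum_eq_single μ]
          · rw [smul_mul_assoc, h3]
          · intro ν _ hν
            rw [smul_mul_assoc, h4 ν hν, smul_zero]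
          · intro h
            exact absurd hμ h
    set q := F μ * p with hq
    have hqc : Com L q := (hFc μ).mul hp
    have hqq : q * q = q := by
      have hFF : F μ * F μ = F μ := by rw [hF.mul, if_pos rfl]
      calc q * q = F μ * (p * F μ) * p := by rw [hq]; simp only [mul_assoc]
        _ = (F μ * F μ) * (p * p) := by rw [← hFp]; simp only [mul_assoc]
        _ = q := by rw [hpp, hFF]
    have hqs : qᴴ = q := by rw [hq, conjTranspose_mul, hF.star, hps, hFp]
    have hqp1 : q * p = q := by rw [hq, mul_assoc, hpp]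
    have hpq1 : p * q = q := by rw [hq, ← mul_assoc, ← hFp, mul_assoc, hpp]
    have hr' : ∀ r : Matrix n n ℂ, r * r = r → rᴴ = r → r ≠ 0 → 0 < r.rank := by
      intro r hrr hrs hr0
      rcases Nat.eq_zero_or_pos r.rank with h | h
      · have h3 := tr_ne48 hr0
        rw [hrs, hrr, ← rank_eq_trace hrr, h, Nat.cast_zero] at h3
        exact absurd rfl h3
      · exact h
    have hcc : (p - q) * (p - q) = p - q := by
      rw [sub_mul, mul_sub, mul_sub, hpp, hpq1, hqp1, hqq]
      abel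
    have hsum : q.rank + (p - q).rank = p.rank := by
      have h1 : ((q.rank + (p - q).rank : ℕ) : ℂ) = (p.rank : ℂ) := by
        rw [Nat.cast_add, rank_eq_trace hqq, rank_eq_trace hcc, rank_eq_trace hpp, Matrix.trace_sub]
        ring
      exact_mod_cast h1
    have hpos1 := hr' q hqq hqs hq0
    have hpos2 := hr' (p - q) hcc (by rw [conjTranspose_sub, hps, hqs]) (fun h => hqp (sub_eq_zero.1 h).symm)
    obtain ⟨ι1, _, _, e1, a1, a2, a3, a4⟩ := ih q (by omega) hqc hqq hqs
    obtain ⟨ι2, _, _, e2, b1, b2, b3, b4⟩ := ih (p - q) (by omega) (hp.sub hqc) hcc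
      (by rw [conjTranspose_sub, hps, hqs])
    have c1 : ∀ i, e1 i * q = e1 i := by
      intro i
      rw [← a4, Finset.mul_sum, Finset.sum_eq_single i]
      · exact (a1 i).idem
      · intro j _ hj
        exact a3 i j (Ne.symm hj)
      · intro h
        exact absurd (Finset.mem_univ i) h
    have c1' : ∀ i, q * e1 i = e1 i := by
      intro i
      rw [← a4, Finset.sum_mul, Finset.sum_eq_single i]
      · exact (a1 i).idem
      · intro j _ hj
        exact a3 j i hj
      · intro h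
        exact absurd (Finset.mem_univ i) h
    have c2 : ∀ i, (p - q) * e2 i = e2 i := by
      intro i
      rw [← b4, Finset.sum_mul, Finset.sum_eq_single i]
      · exact (b1 i).idem
      · intro j _ hj
        exact b3 j i hj
      · intro h
        exact absurd (Finset.mem_univ i) h
    have c2' : ∀ i, e2 i * (p - q) = e2 i := by
      intro i
      rw [← b4, Finset.mul_sum, Finset.sum_eq_single i]
      · exact (b1 i).idem
      · intro j _ hj
        exact b3 i j (Ne.symm hj)
      · intro h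
        exact absurd (Finset.mem_univ i) h
    have hqr : q * (p - q) = 0 := by rw [mul_sub, hqp1, hqq, sub_self]
    have hrq : (p - q) * q = 0 := by rw [sub_mul, hpq1, hqq, sub_self]
    refine ⟨ι1 ⊕ ι2, inferInstance, inferInstance, Sum.elim e1 e2, ?_, ?_, ?_, ?_⟩
    · rintro (i | i)
      · exact a1 i
      · exact b1 i
    · rintro (i | i)
      · exact a2 i
      · exact b2 i
    · rintro (i | i) (j | j) hij
      · exact a3 i j (fun h => hij (by rw [h]))
      · change e1 i * e2 j = 0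
        rw [← c1 i, ← c2 j, mul_assoc, ← mul_assoc q, hqr, zero_mul, mul_zero]
      · change e2 i * e1 j = 0
        rw [← c2' i, ← c1' j, mul_assoc, ← mul_assoc (p - q), hrq, zero_mul, mul_zero]
      · exact b3 i j (fun h => hij (by rw [h]))
    · rw [Fintype.sum_sum_type]
      simp only [Sum.elim_inl, Sum.elim_inr]
      rw [a4, b4]
      abel

/-- The space is the orthogonal sum of irreducible blocks. -/
theorem exists_irr_sum (hL : ∀ X ∈ L, Xᴴ ∈ L) :
    ∃ (ι : Type) (_ : Fintype ι) (_ : DecidableEq ι) (e : ι → Matrix n n ℂ), (∀ i, IrrL L (e i)) ∧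
      (∀ i, (e i)ᴴ = e i) ∧ (∀ i j, i ≠ j → e i * e j = 0) ∧ ∑ i, e i = 1 :=
  exists_irr_sum_aux hL _ 1 le_rfl Com.one (one_mul 1) conjTranspose_one

end MH
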