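import Pool.Agent.Helper48.GH.Fix1
import Pool.Agent.Helper48.GH.Fix2

/-!
Project GH, block H5, third part: coordinates of the blocks that are, up to twists, copies or dual copies of a given
irreducible block; the elements of the block group and of its Lie algebra on the whole space.
-/

set_option linter.unusedSectionVars false
set_option linter.unusedVariables false

open Matrix

namespace MH

variable {n : Type*} [Fintype n] [DecidableEq n] {m : Type*} [Fintype m] [DecidableEq m]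
variable {L : Set (Matrix n n ℂ)}

/-- coordinates on the range of an idempotent -/
theorem exists_coord48 {e : Matrix n n ℂ} (hee : e * e = e) :
    ∃ (r : ℕ) (W : Matrix n (Fin r) ℂ) (V : Matrix (Fin r) n ℂ), V * W = 1 ∧ W * V = e := by
  classical
  let p : Submodule ℂ (n → ℂ) := LinearMap.range (Matrix.toLin' e)
  let B := Module.finBasis ℂ p
  let ι : p →ₗ[ℂ] (n → ℂ) := p.subtype
  let π : (n → ℂ) →ₗ[ℂ] p := (Matrix.toLin' e).rangeRestrict
  have hπ : ∀ x : p, π (ι x) = x := by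
    rintro ⟨x, y, rfl⟩
    apply Subtype.ext
    change Matrix.toLin' e (Matrix.toLin' e y) = Matrix.toLin' e y
    rw [Matrix.toLin'_apply, Matrix.toLin'_apply, Matrix.mulVec_mulVec, hee]
  refine ⟨Module.finrank ℂ p, LinearMap.toMatrix B (Pi.basisFun ℂ n) ι, LinearMap.toMatrix (Pi.basisFun ℂ n) B π,
    ?_, ?_⟩
  · rw [← LinearMap.toMatrix_comp]
    have h1 : π ∘ₗ ι = LinearMap.id := LinearMap.ext hπ
    rw [h1, LinearMap.toMatrix_id]
  · rw [← LinearMap.toMatrix_comp]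
    have h1 : ι ∘ₗ π = Matrix.toLin' e := LinearMap.ext fun x => rfl
    rw [h1, LinearMap.toMatrix_eq_toMatrix', LinearMap.toMatrix'_toLin']

/-- coordinates on a block of the commutant -/
structure Co48 (L : Set (Matrix n n ℂ)) (e : Matrix n n ℂ) (W : Matrix n m ℂ) (V : Matrix m n ℂ) : Prop where
  mem : Com L e
  one : V * W = 1
  ev : W * V = e

namespace Co48

variable {e : Matrix n n ℂ} {W : Matrix n m ℂ} {V : Matrix m n ℂ}

theorem eW (C : Co48 L e W V) : e * W = W := by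
  rw [← C.ev, Matrix.mul_assoc, C.one, Matrix.mul_one]

theorem Ve (C : Co48 L e W V) : V * e = V := by
  rw [← C.ev, ← Matrix.mul_assoc, C.one, Matrix.one_mul]

theorem XW (C : Co48 L e W V) {X : Matrix n n ℂ} (hX : X ∈ L) : X * W = W * (V * X * W) := by
  calc X * W = X * (e * W) := by rw [C.eW]
    _ = X * e * W := by rw [Matrix.mul_assoc]
    _ = e * X * W := by rw [C.mem X hX]
    _ = _ := by rw [← C.ev]; simp only [Matrix.mul_assoc]

theorem VX (C : Co48 L e W V) {X : Matrix n n ℂ} (hX : X ∈ L) : V * X = V * X * W * V := by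
  calc V * X = V * e * X := by rw [C.Ve]
    _ = V * (e * X) := by rw [Matrix.mul_assoc]
    _ = V * (X * e) := by rw [C.mem X hX]
    _ = _ := by rw [← C.ev]; simp only [Matrix.mul_assoc]

end Co48

section schur

variable {e : Matrix n n ℂ} {W : Matrix n m ℂ} {V : Matrix m n ℂ}

/-- the Lemma of Schur in coordinates -/
theorem Co48.scal1 (C : Co48 L e W V) (hL : ∀ X ∈ L, Xᴴ ∈ L) (he : IrrL L e) (hes : eᴴ = e) {τ : Matrix m m ℂ}
    (h : ∀ X ∈ L, ∃ c : ℂ, (V * X * W) * τ - τ * (V * X * W) = c • τ) : ∃ c : ℂ, τ = c • (1 : Matrix m m ℂ) := by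
  have hT : SemT L (W * τ * V) := by
    intro X hX
    obtain ⟨c, hc⟩ := h X hX
    refine ⟨c, ?_⟩
    have e1 : X * (W * τ * V) = W * ((V * X * W) * τ) * V := by
      calc X * (W * τ * V) = X * W * τ * V := by simp only [Matrix.mul_assoc]
        _ = W * (V * X * W) * τ * V := by rw [C.XW hX]
        _ = _ := by simp only [Matrix.mul_assoc]
    have e2 : W * τ * V * X = W * (τ * (V * X * W)) * V := by
      calc W * τ * V * X = W * τ * (V * X) := by simp only [Matrix.mul_assoc]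
        _ = W * τ * (V * X * W * V) := by rw [← C.VX hX]
        _ = _ := by simp only [Matrix.mul_assoc]
    rw [e1, e2, ← Matrix.sub_mul, ← Matrix.mul_sub, hc, Matrix.mul_smul, Matrix.smul_mul]
  have h1 : e * (W * τ * V) = W * τ * V := by
    rw [← Matrix.mul_assoc, ← Matrix.mul_assoc, C.eW]
  have h2 : W * τ * V * e = W * τ * V := by
    rw [Matrix.mul_assoc, C.Ve]
  obtain ⟨c, hc⟩ := hT.scalar hL he hes h1 h2
  refine ⟨c, ?_⟩
  calc τ = V * W * τ * (V * W) := by rw [C.one, Matrix.one_mul, Matrix.mul_one]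
    _ = V * (W * τ * V) * W := by simp only [Matrix.mul_assoc]
    _ = c • (V * e * W) := by rw [hc, Matrix.mul_smul, Matrix.smul_mul]
    _ = c • 1 := by rw [C.Ve, C.one]

theorem Co48.scal2 (C : Co48 L e W V) (hL : ∀ X ∈ L, Xᴴ ∈ L) (he : IrrL L e) (hes : eᴴ = e) {τ : Matrix m m ℂ}
    (h : ∀ X ∈ L, ∃ c : ℂ, (V * X * W)ᵀ * τ - τ * (V * X * W)ᵀ = c • τ) : ∃ c : ℂ, τ = c • (1 : Matrix m m ℂ) := by
  obtain ⟨c, hc⟩ := C.scal1 hL he hes (τ := τᵀ) (by
    intro X hX
    obtain ⟨c, hc⟩ := h X hX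
    refine ⟨-c, ?_⟩
    generalize V * X * W = Y at hc ⊢
    have h1 := congrArg Matrix.transpose hc
    rw [Matrix.transpose_sub, Matrix.transpose_mul, Matrix.transpose_mul, Matrix.transpose_transpose,
      Matrix.transpose_smul] at h1
    rw [neg_smul, ← h1]
    abel)
  refine ⟨c, ?_⟩
  have h1 := congrArg Matrix.transpose hc
  rwa [Matrix.transpose_transpose, Matrix.transpose_smul, Matrix.transpose_one] at h1

/-- a form on the block -/
def Frm48 (L : Set (Matrix n n ℂ)) (W : Matrix n m ℂ) (V : Matrix m n ℂ) (β : Matrix m m ℂ) : Prop :=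
  ∀ X ∈ L, ∃ c : ℂ, (V * X * W)ᵀ * β + β * (V * X * W) = c • β

theorem Co48.frm_semB (C : Co48 L e W V) {β : Matrix m m ℂ} (h : Frm48 L W V β) : SemB L (Vᵀ * β * V) := by
  intro X hX
  obtain ⟨c, hc⟩ := h X hX
  refine ⟨c, ?_⟩
  have e1 : Xᵀ * (Vᵀ * β * V) = Vᵀ * ((V * X * W)ᵀ * β) * V := by
    calc Xᵀ * (Vᵀ * β * V) = (V * X)ᵀ * β * V := by rw [Matrix.transpose_mul]; simp only [Matrix.mul_assoc]
      _ = (V * X * W * V)ᵀ * β * V := by rw [← C.VX hX]
      _ = _ := by rw [Matrix.transpose_mul (V * X * W)]; simp only [Matrix.mul_assoc]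
  have e2 : Vᵀ * β * V * X = Vᵀ * (β * (V * X * W)) * V := by
    calc Vᵀ * β * V * X = Vᵀ * β * (V * X) := by simp only [Matrix.mul_assoc]
      _ = Vᵀ * β * (V * X * W * V) := by rw [← C.VX hX]
      _ = _ := by simp only [Matrix.mul_assoc]
  rw [e1, e2, ← Matrix.add_mul, ← Matrix.mul_add, hc, Matrix.mul_smul, Matrix.smul_mul]

/-- a nonzero form on the dual of the block is invertible, and its inverse is a form -/
theorem Co48.cofrm (C : Co48 L e W V) (hL : ∀ X ∈ L, Xᴴ ∈ L) (he : IrrL L e) (hes : eᴴ = e) {γ : Matrix m m ℂ}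
    (h : ∀ X ∈ L, ∃ c : ℂ, (V * X * W) * γ + γ * (V * X * W)ᵀ = c • γ) (h0 : γ ≠ 0) :
    ∃ β : Matrix m m ℂ, γ * β = 1 ∧ β * γ = 1 ∧ Frm48 L W V β := by
  set G : Matrix n n ℂ := W * γ * Wᵀ with hG
  have hGr : ∀ X ∈ L, ∃ c : ℂ, X * G + G * Xᵀ = c • G := by
    intro X hX
    obtain ⟨c, hc⟩ := h X hX
    refine ⟨c, ?_⟩
    have e1 : X * (W * γ * Wᵀ) = W * ((V * X * W) * γ) * Wᵀ := by
      calc X * (W * γ * Wᵀ) = X * W * γ * Wᵀ := by simp only [Matrix.mul_assoc]
        _ = W * (V * X * W) * γ * Wᵀ := by rw [C.XW hX]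
        _ = _ := by simp only [Matrix.mul_assoc]
    have e2 : W * γ * Wᵀ * Xᵀ = W * (γ * (V * X * W)ᵀ) * Wᵀ := by
      calc W * γ * Wᵀ * Xᵀ = W * γ * (X * W)ᵀ := by rw [Matrix.transpose_mul X W]; simp only [Matrix.mul_assoc]
        _ = W * γ * (W * (V * X * W))ᵀ := by rw [← C.XW hX]
        _ = _ := by rw [Matrix.transpose_mul W]; simp only [Matrix.mul_assoc]
    rw [hG, e1, e2, ← Matrix.add_mul, ← Matrix.mul_add, hc, Matrix.mul_smul, Matrix.smul_mul]
  have hB : SemB L Gᴴ := SemB.of_star hL hGr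
  have hcom := hB.com hL
  rw [conjTranspose_conjTranspose] at hcom
  obtain ⟨lam, hlam⟩ := he.min _ hcom
  have h1 : e * G = G := by rw [hG, ← Matrix.mul_assoc, ← Matrix.mul_assoc, C.eW]
  have h2 : Gᴴ * e = Gᴴ := by
    have h3 := congrArg conjTranspose h1
    rwa [conjTranspose_mul, hes] at h3
  rw [← mul_assoc, h1, mul_assoc, h2] at hlam
  have hG0 : G ≠ 0 := by
    intro hz
    apply h0
    have h3 : Vᵀᵀ = V := Matrix.transpose_transpose V
    calc γ = (V * W) * γ * (V * W)ᵀ := by rw [C.one, Matrix.one_mul, Matrix.transpose_one, Matrix.mul_one]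
      _ = V * (W * γ * Wᵀ) * Vᵀ := by rw [Matrix.transpose_mul]; simp only [Matrix.mul_assoc]
      _ = 0 := by rw [← hG, hz, Matrix.mul_zero, Matrix.zero_mul]
  have hl0 : lam ≠ 0 := by
    intro hz
    rw [hz, zero_smul] at hlam
    apply hG0
    have h3 : (Gᴴ)ᴴ * Gᴴ = 0 := by rw [conjTranspose_conjTranspose, hlam]
    have h4 := eq_zero_of_mul h3
    have h5 := congrArg conjTranspose h4
    rwa [conjTranspose_conjTranspose, conjTranspose_zero] at h5
  set β : Matrix m m ℂ := lam⁻¹ • (Wᵀ * Gᴴ * W) with hβ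
  have hγβ : γ * β = 1 := by
    calc γ * β = lam⁻¹ • (γ * (Wᵀ * Gᴴ * W)) := by rw [hβ, Matrix.mul_smul]
      _ = lam⁻¹ • ((V * W) * γ * Wᵀ * Gᴴ * W) := by rw [C.one, Matrix.one_mul]; simp only [Matrix.mul_assoc]
      _ = lam⁻¹ • (V * (G * Gᴴ) * W) := by rw [hG]; simp only [Matrix.mul_assoc]
      _ = 1 := by rw [hlam, Matrix.mul_smul, Matrix.smul_mul, C.Ve, C.one, smul_smul, inv_mul_cancel₀ hl0, one_smul]
  have hβγ : β * γ = 1 := mul_eq_one_comm.1 hγβ
  clear_value β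
  refine ⟨β, hγβ, hβγ, ?_⟩
  intro X hX
  obtain ⟨c, hc⟩ := h X hX
  refine ⟨c, ?_⟩
  calc (V * X * W)ᵀ * β + β * (V * X * W) = β * ((V * X * W) * γ + γ * (V * X * W)ᵀ) * β := by
        rw [mul_add, add_mul]
        have e1 : β * ((V * X * W) * γ) * β = β * (V * X * W) * (γ * β) := by simp only [mul_assoc]
        have e2 : β * (γ * (V * X * W)ᵀ) * β = (β * γ) * (V * X * W)ᵀ * β := by simp only [mul_assoc]
        rw [e1, e2, hγβ, hβγ, mul_one, one_mul, add_comm]
    _ = c • β := by rw [hc, mul_smul_comm, smul_mul_assoc, hβγ, one_mul]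

/-- a nonzero form on the block is invertible -/
theorem Co48.frm_inv (C : Co48 L e W V) (hL : ∀ X ∈ L, Xᴴ ∈ L) (he : IrrL L e) (hes : eᴴ = e) {β : Matrix m m ℂ}
    (h : Frm48 L W V β) (h0 : β ≠ 0) : ∃ γ : Matrix m m ℂ, γ * β = 1 ∧ β * γ = 1 ∧
      ∀ X ∈ L, ∃ c : ℂ, (V * X * W) * γ + γ * (V * X * W)ᵀ = c • γ := by
  have hB := C.frm_semB h
  set F := Vᵀ * β * V with hF
  obtain ⟨lam, hlam⟩ := he.min _ (hB.com hL)
  have h1 : F * e = F := by rw [hF, Matrix.mul_assoc, C.Ve]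
  have h2 : e * Fᴴ = Fᴴ := by
    have h3 := congrArg conjTranspose h1
    rwa [conjTranspose_mul, hes] at h3
  rw [← mul_assoc, h2, mul_assoc, h1] at hlam
  have hF0 : F ≠ 0 := by
    intro hz
    apply h0
    calc β = (V * W)ᵀ * β * (V * W) := by rw [C.one, Matrix.transpose_one, Matrix.one_mul, Matrix.mul_one]
      _ = Wᵀ * (Vᵀ * β * V) * W := by rw [Matrix.transpose_mul]; simp only [Matrix.mul_assoc]
      _ = 0 := by rw [← hF, hz, Matrix.mul_zero, Matrix.zero_mul]
  have hl0 : lam ≠ 0 := by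
    intro hz
    rw [hz, zero_smul] at hlam
    exact hF0 (eq_zero_of_mul hlam)
  set γ : Matrix m m ℂ := lam⁻¹ • (V * Fᴴ * Vᵀ) with hγ
  have hγβ : γ * β = 1 := by
    calc γ * β = lam⁻¹ • (V * Fᴴ * Vᵀ * β) := by rw [hγ, Matrix.smul_mul]
      _ = lam⁻¹ • (V * Fᴴ * Vᵀ * β * (V * W)) := by rw [C.one, Matrix.mul_one]
      _ = lam⁻¹ • (V * (Fᴴ * F) * W) := by rw [hF]; simp only [Matrix.mul_assoc]
      _ = 1 := by rw [hlam, Matrix.mul_smul, Matrix.smul_mul, C.Ve, C.one, smul_smul, inv_mul_cancel₀ hl0, one_smul]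
  have hβγ : β * γ = 1 := mul_eq_one_comm.1 hγβ
  clear_value γ
  refine ⟨γ, hγβ, hβγ, ?_⟩
  intro X hX
  obtain ⟨c, hc⟩ := h X hX
  refine ⟨c, ?_⟩
  calc (V * X * W) * γ + γ * (V * X * W)ᵀ = γ * ((V * X * W)ᵀ * β + β * (V * X * W)) * γ := by
        rw [mul_add, add_mul]
        have e1 : γ * ((V * X * W)ᵀ * β) * γ = γ * (V * X * W)ᵀ * (β * γ) := by simp only [mul_assoc]
        have e2 : γ * (β * (V * X * W)) * γ = (γ * β) * (V * X * W) * γ := by simp only [mul_assoc]
        rw [e1, e2, hγβ, hβγ, mul_one, one_mul, add_comm]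
    _ = c • γ := by rw [hc, mul_smul_comm, smul_mul_assoc, hγβ, one_mul]

/-- two forms on the block are proportional -/
theorem Co48.frm_uniq (C : Co48 L e W V) (hL : ∀ X ∈ L, Xᴴ ∈ L) (he : IrrL L e) (hes : eᴴ = e) {β β' : Matrix m m ℂ}
    (h : Frm48 L W V β) (h0 : β ≠ 0) (h' : Frm48 L W V β') : ∃ c : ℂ, β' = c • β := by
  obtain ⟨γ, h1, h2, h3⟩ := C.frm_inv hL he hes h h0
  obtain ⟨c, hc⟩ := C.scal1 hL he hes (τ := γ * β') (by
    intro X hX
    obtain ⟨c, hc⟩ := h3 X hX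
    obtain ⟨d, hd⟩ := h' X hX
    refine ⟨c - d, ?_⟩
    calc (V * X * W) * (γ * β') - γ * β' * (V * X * W) =
        ((V * X * W) * γ + γ * (V * X * W)ᵀ) * β' - γ * ((V * X * W)ᵀ * β' + β' * (V * X * W)) := by
          rw [add_mul, mul_add]
          simp only [mul_assoc]
          abel
      _ = _ := by rw [hc, hd, smul_mul_assoc, mul_smul_comm, sub_smul])
  refine ⟨c, ?_⟩
  calc β' = β * (γ * β') := by rw [← mul_assoc, h2, one_mul]
    _ = c • β := by rw [hc, mul_smul_comm, mul_one]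

/-- a form on the block is symmetric or alternating -/
theorem Co48.frm_symm (C : Co48 L e W V) (hL : ∀ X ∈ L, Xᴴ ∈ L) (he : IrrL L e) (hes : eᴴ = e) {β : Matrix m m ℂ}
    (h : Frm48 L W V β) (h0 : β ≠ 0) : βᵀ = β ∨ βᵀ = -β := by
  have h' : Frm48 L W V βᵀ := by
    intro X hX
    obtain ⟨c, hc⟩ := h X hX
    refine ⟨c, ?_⟩
    generalize V * X * W = Y at hc ⊢
    have h1 := congrArg Matrix.transpose hc
    rw [Matrix.transpose_add, Matrix.transpose_mul, Matrix.transpose_mul, Matrix.transpose_transpose,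
      Matrix.transpose_smul] at h1
    rw [← h1]
    abel
  obtain ⟨c, hc⟩ := C.frm_uniq hL he hes h h0 h'
  have h1 : β = (c * c) • β := by
    have h2 := congrArg Matrix.transpose hc
    rw [Matrix.transpose_transpose, Matrix.transpose_smul, hc, smul_smul] at h2
    exact h2
  have h2 : (1 - c * c) • β = 0 := by
    rw [sub_smul, one_smul, ← h1, sub_self]
  have h3 : 1 - c * c = 0 := (smul_eq_zero.1 h2).resolve_right h0
  have h4 : (c - 1) * (c + 1) = 0 := by linear_combination -h3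
  rcases mul_eq_zero.1 h4 with h5 | h5
  · left
    rw [hc, sub_eq_zero.1 h5, one_smul]
  · right
    rw [hc, eq_neg_of_add_eq_zero_left h5, neg_one_smul]

end schur

/-! ### links -/

/-- The block `e` has coordinates in which it is a copy (`s = true`) or a dual copy (`s = false`), up to a character, of the
block with coordinates `W0`, `V0`. -/
structure Nice48 (L : Set (Matrix n n ℂ)) (W0 : Matrix n m ℂ) (V0 : Matrix m n ℂ) (s : Bool) (e : Matrix n n ℂ)
    (W : Matrix n m ℂ) (V : Matrix m n ℂ) : Prop where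
  co : Co48 L e W V
  rel : ∀ X ∈ L, ∃ c : ℂ, V * X * W = li48 s (V0 * X * W0) + c • (1 : Matrix m m ℂ)

variable {W0 : Matrix n m ℂ} {V0 : Matrix m n ℂ} {s : Bool} {e f : Matrix n n ℂ} {W : Matrix n m ℂ} {V : Matrix m n ℂ}

/-- transport along a semi-invariant -/
theorem Nice48.ofT (hL : ∀ X ∈ L, Xᴴ ∈ L) (N : Nice48 L W0 V0 s f W V) (he : IrrL L e) (hf : IrrL L f) (hes : eᴴ = e)
    (hfs : fᴴ = f) {T : Matrix n n ℂ} (hT : SemT L T) (h0 : e * T * f ≠ 0) : ∃ W' V', Nice48 L W0 V0 s e W' V' := by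
  have hT1 : SemT L (e * T * f) := (hT.com_mul he.mem).mul_com hf.mem
  have h1 : e * (e * T * f) = e * T * f := by rw [← mul_assoc, ← mul_assoc, he.idem]
  have h2 : e * T * f * f = e * T * f := by rw [mul_assoc, hf.idem]
  set T1 := e * T * f with hT1def
  obtain ⟨T', a1, a2, a3, a4, a5⟩ := hT1.inv hL he hf hes hfs h1 h2 h0
  refine ⟨T1 * W, V * T', ⟨he.mem, ?_, ?_⟩, ?_⟩
  · calc V * T' * (T1 * W) = V * (T' * T1) * W := by simp only [Matrix.mul_assoc]
      _ = 1 := by rw [a1, N.co.Ve, N.co.one]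
  · calc T1 * W * (V * T') = T1 * (W * V) * T' := by simp only [Matrix.mul_assoc]
      _ = e := by rw [N.co.ev, h2, a2]
  · intro X hX
    obtain ⟨c, hc⟩ := N.rel X hX
    obtain ⟨d, hd⟩ := hT1 X hX
    refine ⟨c + d, ?_⟩
    have e1 : X * T1 = T1 * X + d • T1 := by rw [← hd]; abel
    calc V * T' * X * (T1 * W) = V * (T' * (X * T1)) * W := by simp only [Matrix.mul_assoc]
      _ = V * (f * X + d • f) * W := by
        rw [e1, mul_add, ← mul_assoc, a1, mul_smul_comm, a1]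
      _ = V * X * W + d • (1 : Matrix m m ℂ) := by
        rw [Matrix.mul_add, ← Matrix.mul_assoc V f X, N.co.Ve, Matrix.mul_smul, N.co.Ve, Matrix.add_mul,
          Matrix.smul_mul, N.co.one]
      _ = _ := by rw [hc, add_assoc, ← add_smul]

/-- transport along a semi-invariant form -/
theorem Nice48.ofB (hL : ∀ X ∈ L, Xᴴ ∈ L) (N : Nice48 L W0 V0 s f W V) (he : IrrL L e) (hf : IrrL L f) (hes : eᴴ = e)
    (hfs : fᴴ = f) {F : Matrix n n ℂ} (hF : SemB L F) (h0 : eᵀ * F * f ≠ 0) :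
    ∃ W' V', Nice48 L W0 V0 (!s) e W' V' := by
  have hF1 : SemB L (eᵀ * F * f) := (hF.com_mul he.mem).mul_com hf.mem
  have hee : eᵀ * eᵀ = eᵀ := by rw [← Matrix.transpose_mul, he.idem]
  have h1 : eᵀ * (eᵀ * F * f) = eᵀ * F * f := by rw [← mul_assoc, ← mul_assoc, hee]
  have h2 : eᵀ * F * f * f = eᵀ * F * f := by rw [mul_assoc, hf.idem]
  set F1 := eᵀ * F * f with hF1def
  obtain ⟨F', a1, a2, a3, a4⟩ := hF1.inv hL he hf hes hfs h1 h2 h0
  refine ⟨(V * F')ᵀ, (F1 * W)ᵀ, ⟨he.mem, ?_, ?_⟩, ?_⟩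
  · rw [← Matrix.transpose_mul]
    have e1 : V * F' * (F1 * W) = 1 := by
      calc V * F' * (F1 * W) = V * (F' * F1) * W := by simp only [Matrix.mul_assoc]
        _ = 1 := by rw [a1, N.co.Ve, N.co.one]
    rw [e1, Matrix.transpose_one]
  · rw [← Matrix.transpose_mul]
    have e1 : F1 * W * (V * F') = eᵀ := by
      calc F1 * W * (V * F') = F1 * (W * V) * F' := by simp only [Matrix.mul_assoc]
        _ = eᵀ := by rw [N.co.ev, h2, a2]
    rw [e1, Matrix.transpose_transpose]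
  · intro X hX
    obtain ⟨c, hc⟩ := N.rel X hX
    obtain ⟨d, hd⟩ := hF1 X hX
    refine ⟨d - c, ?_⟩
    have e1 : Xᵀ * F1 = d • F1 - F1 * X := by rw [← hd]; abel
    have e2 : V * F' * Xᵀ * (F1 * W) = d • (1 : Matrix m m ℂ) - V * X * W := by
      calc V * F' * Xᵀ * (F1 * W) = V * (F' * (Xᵀ * F1)) * W := by simp only [Matrix.mul_assoc]
        _ = V * (d • f - f * X) * W := by rw [e1, mul_sub, ← mul_assoc, a1, mul_smul_comm, a1]
        _ = _ := by
          rw [Matrix.mul_sub, ← Matrix.mul_assoc V f X, N.co.Ve, Matrix.mul_smul, N.co.Ve, Matrix.sub_mul,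
            Matrix.smul_mul, N.co.one]
    have e3 : (F1 * W)ᵀ * X * (V * F')ᵀ = (V * F' * Xᵀ * (F1 * W))ᵀ := by
      rw [Matrix.transpose_mul (V * F' * Xᵀ), Matrix.transpose_mul (V * F'), Matrix.transpose_transpose,
        Matrix.mul_assoc]
    rw [e3, e2, hc, Matrix.transpose_sub, Matrix.transpose_smul, Matrix.transpose_one, Matrix.transpose_add,
      Matrix.transpose_smul, Matrix.transpose_one, sub_smul]
    have e4 : (li48 s (V0 * X * W0))ᵀ = -li48 (!s) (V0 * X * W0) := by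
      cases s
      · simp [li48]
      · simp [li48]
    rw [e4]
    abel

/-- the canonical semi-invariant of a copy -/
theorem Nice48.semT (C0 : Co48 L f W0 V0) (N : Nice48 L W0 V0 true e W V) : SemT L (W * V0) := by
  intro X hX
  obtain ⟨c, hc⟩ := N.rel X hX
  refine ⟨c, ?_⟩
  have e1 : X * (W * V0) = W * (V0 * X * W0) * V0 + c • (W * V0) := by
    calc X * (W * V0) = X * W * V0 := by rw [Matrix.mul_assoc]
      _ = W * (V * X * W) * V0 := by rw [← N.co.XW hX]
      _ = _ := by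
        rw [hc, Matrix.mul_add, Matrix.add_mul, Matrix.mul_smul, Matrix.mul_one, Matrix.smul_mul]
        rfl
  have e2 : W * V0 * X = W * (V0 * X * W0) * V0 := by
    calc W * V0 * X = W * (V0 * X) := by rw [Matrix.mul_assoc]
      _ = W * (V0 * X * W0 * V0) := by rw [← C0.VX hX]
      _ = _ := by simp only [Matrix.mul_assoc]
  rw [e1, e2]
  abel

/-- the canonical semi-invariant form of a dual copy -/
theorem Nice48.semB (C0 : Co48 L f W0 V0) (N : Nice48 L W0 V0 false e W V) : SemB L (Vᵀ * V0) := by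
  intro X hX
  obtain ⟨c, hc⟩ := N.rel X hX
  refine ⟨c, ?_⟩
  have e1 : Xᵀ * (Vᵀ * V0) = -(Vᵀ * (V0 * X * W0) * V0) + c • (Vᵀ * V0) := by
    calc Xᵀ * (Vᵀ * V0) = (V * X)ᵀ * V0 := by rw [Matrix.transpose_mul]; simp only [Matrix.mul_assoc]
      _ = (V * X * W * V)ᵀ * V0 := by rw [← N.co.VX hX]
      _ = Vᵀ * (V * X * W)ᵀ * V0 := by rw [Matrix.transpose_mul (V * X * W)]
      _ = _ := by
        rw [hc]
        simp only [li48]
        rw [Matrix.transpose_add, Matrix.transpose_smul, Matrix.transpose_one]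
        simp only [Bool.false_eq_true, if_false, Matrix.transpose_neg, Matrix.transpose_transpose, Matrix.mul_add,
          Matrix.add_mul, Matrix.mul_neg, Matrix.neg_mul, Matrix.mul_smul, Matrix.mul_one, Matrix.smul_mul]
  have e2 : Vᵀ * V0 * X = Vᵀ * (V0 * X * W0) * V0 := by
    calc Vᵀ * V0 * X = Vᵀ * (V0 * X) := by rw [Matrix.mul_assoc]
      _ = Vᵀ * (V0 * X * W0 * V0) := by rw [← C0.VX hX]
      _ = _ := by simp only [Matrix.mul_assoc]
  rw [e1, e2]
  abel

/-- the base block is a copy of itself -/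
theorem Nice48.refl (C0 : Co48 L f W0 V0) : Nice48 L W0 V0 true f W0 V0 :=
  ⟨C0, fun X _ => ⟨0, by rw [zero_smul, add_zero]; rfl⟩⟩

/-- the action of a group element on the copies and dual copies -/
theorem Nice48.act (C0 : Co48 L f W0 V0) (N : Nice48 L W0 V0 s e W V) {g gi : Matrix n n ℂ}
    (hT : ∀ T, SemT L T → g * T = T * g) (hB : ∀ F, SemB L F → gᵀ * F * g = F)
    (h1 : (V0 * g * W0) * (V0 * gi * W0) = 1) : V * g * W = gp48 s (V0 * g * W0) (V0 * gi * W0) := by
  cases s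
  · have h2 := hB _ (N.semB C0)
    have h3 : (V * g * W)ᵀ * (V0 * g * W0) = 1 := by
      calc (V * g * W)ᵀ * (V0 * g * W0) = Wᵀ * (gᵀ * (Vᵀ * V0) * g) * W0 := by
            rw [Matrix.transpose_mul, Matrix.transpose_mul]; simp only [Matrix.mul_assoc]
        _ = (V * W)ᵀ * (V0 * W0) := by rw [h2, Matrix.transpose_mul]; simp only [Matrix.mul_assoc]
        _ = 1 := by rw [N.co.one, C0.one, Matrix.transpose_one, Matrix.one_mul]
    have h4 : (V * g * W)ᵀ = V0 * gi * W0 := by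
      calc (V * g * W)ᵀ = (V * g * W)ᵀ * ((V0 * g * W0) * (V0 * gi * W0)) := by rw [h1, mul_one]
        _ = _ := by rw [← mul_assoc, h3, one_mul]
    have h5 := congrArg Matrix.transpose h4
    rw [Matrix.transpose_transpose] at h5
    rw [h5]
    rfl
  · have h2 := hT _ (N.semT C0)
    calc V * g * W = V * (g * (W * V0)) * W0 := by
          calc V * g * W = V * g * W * (V0 * W0) := by rw [C0.one, Matrix.mul_one]
            _ = _ := by simp only [Matrix.mul_assoc]
      _ = (V * W) * (V0 * g * W0) := by rw [h2]; simp only [Matrix.mul_assoc]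
      _ = V0 * g * W0 := by rw [N.co.one, Matrix.one_mul]
      _ = _ := rfl

end MH
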