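import Pool.Agent.Helper57.CF.Mat

/-!
Project GH, l-adic side, block A: the compact form theorem for a pair of representations. `P` is a Lie algebra of pairs of
matrices such that both projections are irreducible, of trace zero and injective on `P`. Then there are bases in which `P`
is closed under the adjoint and the element `(h₁, h₂)` with real eigenvalues is Hermitian.
-/

set_option linter.unusedSectionVars false
set_option linter.unusedVariables false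

open Module LieModule LieAlgebra LieAlgebra.IsKilling

namespace CF

open MTP MTP.MF

section lie

variable {L : Type*} [LieRing L] [LieAlgebra ℂ L] [FiniteDimensional ℂ L] [IsKilling ℂ L]
  (H : LieSubalgebra ℂ L) [H.IsCartanSubalgebra]

section one

variable {V : Type*} [AddCommGroup V] [Module ℂ V] [FiniteDimensional ℂ V] [LieRingModule L V] [LieModule ℂ L V]

/-- The coroots have integral eigenvalues. -/
private lemma hint48 {I : Type*} [Fintype I] (B : WB (V := V) H I) (i : I) (α : H.root) :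
    ∃ a : ℤ, B.w i (coroot α.1) = (a : ℂ) := by
  obtain ⟨e, f, ht, he, hf⟩ := exists_triple α
  refine int_weight (h := toEnd ℂ L V ((coroot α.1 : H) : L)) (e := toEnd ℂ L V e) (f := toEnd ℂ L V f)
    ?_ ?_ ?_ (B.v.ne_zero i) (B.lie_v i (coroot α.1))
  · ext u
    have h1 := leibniz_lie ((coroot α.1 : H) : L) e u
    rw [ht.lie_h_e_nsmul] at h1
    simp only [LinearMap.sub_apply, Module.End.mul_apply, toEnd_apply_apply, LinearMap.smul_apply]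
    rw [h1, nsmul_lie]
    module
  · ext u
    have h1 := leibniz_lie ((coroot α.1 : H) : L) f u
    rw [ht.lie_h_f_nsmul] at h1
    simp only [LinearMap.sub_apply, Module.End.mul_apply, toEnd_apply_apply, LinearMap.smul_apply,
      LinearMap.neg_apply]
    rw [h1, neg_lie, nsmul_lie]
    module
  · ext u
    have h1 := leibniz_lie e f u
    rw [ht.lie_e_f] at h1
    simp only [LinearMap.sub_apply, Module.End.mul_apply, toEnd_apply_apply]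
    rw [h1]
    abel

/-- An invariant positive definite Hermitian form, for given generators. -/
theorem compact48 [Nontrivial V] {b : (rootSystem H).Base} {es fs : H.root → L} (G : Gen b es fs)
    (hirr : ∀ W : Submodule ℂ V, (∀ x : L, ∀ u ∈ W, ⁅x, u⁆ ∈ W) → W = ⊥ ∨ W = ⊤)
    (hfaith : ∀ x : L, (∀ u : V, ⁅x, u⁆ = 0) → x = 0) :
    ∃ (S : V →ₗ[ℂ] V →ₗ⋆[ℂ] ℂ) (θ : L → L), (∀ u v, S v u = starRingEnd ℂ (S u v)) ∧
      (∀ u, u ≠ 0 → ∃ r : ℝ, 0 < r ∧ S u u = (r : ℂ)) ∧ TH b es fs S θ ∧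
      ∀ h : H, (∀ c : ℂ, ∀ v : V, v ≠ 0 → ⁅(h : L), v⁆ = c • v → starRingEnd ℂ c = c) →
        ∀ u v : V, S ⁅(h : L), u⁆ v = S u ⁅(h : L), v⁆ := by
  classical
  obtain ⟨n₀, ⟨B⟩⟩ := exists_WB (V := V) (H := H) hirr
  have hI : Nonempty (Fin n₀) := B.v.index_nonempty
  have hint := hint48 H B
  have hex : ∀ i, ∃ c : ℤ, B.w i (rho2 b) = (c : ℂ) := by
    intro i
    choose a ha using hint i
    refine ⟨∑ α with b.IsPos α, a α, ?_⟩
    rw [rho2, map_sum, Int.cast_sum]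
    exact Finset.sum_congr rfl fun α _ => ha α
  choose c hc using hex
  obtain ⟨t, ht⟩ := Finite.exists_max c
  obtain ⟨S, F, h1⟩ := exists_HF hirr G (gen_top G) B hint hc ht
  obtain ⟨θ, T⟩ := exists_TH hfaith G (gen_top G) F
  have hex2 : ∀ α : H.root, ∃ e f : L, IsSl2Triple ((coroot α.1 : H) : L) e f ∧
    e ∈ rootSpace H α.1 ∧ f ∈ rootSpace H (-α.1) := exists_triple
  choose ea fa htr he hf using hex2
  refine ⟨S, θ, F.herm, ?_, T, ?_⟩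
  · intro u hu
    refine form_pos hirr hfaith B hint G F T hc ht h1 ?_ ea fa htr he hf ?_ hu
    · intro α hα x hx hx0
      exact norm_pos hfaith B hint (lie_root_ne G) eig_fe G T hα hx hx0
    · intro k
      obtain ⟨a, ha⟩ := cas_scalar (b := b) hirr hfaith B hint ea fa htr he hf k
      obtain ⟨r, hr, hra, hr0⟩ := cas_pos hfaith B hint ea fa htr he hf k _ ha
      refine ⟨r, hr, ?_, ?_⟩
      · intro v hv
        rw [← hra]
        exact ha v hv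
      · intro h2 α hα v hv
        exact hr0 h2 α (by simp [hα]) v hv
  · intro h hh
    -- the simple coroots are self-adjoint
    have hco : ∀ α ∈ b.support, ∀ u v : V,
        S ⁅((coroot α.1 : H) : L), u⁆ v = S u ⁅((coroot α.1 : H) : L), v⁆ := by
      intro α hα u v
      have h2 : θ ((coroot α.1 : H) : L) = ((coroot α.1 : H) : L) := by
        rw [← (G.tr α hα).lie_e_f, T.lie, T.e α hα, T.f α hα]
      rw [T.adj, h2]
    -- orthogonality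
    have hort : ∀ i j, S (B.v i) (B.v j) ≠ 0 → B.w i = B.w j := by
      intro i j hij
      have h3 : ∀ α ∈ b.support, B.w i (coroot α.1) = B.w j (coroot α.1) := by
        intro α hα
        obtain ⟨a, ha⟩ := hint j α
        have h4 := hco α hα (B.v i) (B.v j)
        rw [B.lie_v, B.lie_v, ha, LinearMap.map_smul₂, LinearMap.map_smulₛₗ, smul_eq_mul,
          smul_eq_mul, map_intCast] at h4
        rw [ha]
        exact mul_right_cancel₀ hij h4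
      ext x
      have h5 : x ∈ Submodule.span ℂ ((rootSystem H).coroot '' b.support) := by
        rw [b.span_coroot_support, RootPairing.corootSpan,
          RootPairing.IsRootSystem.span_coroot_eq_top]
        trivial
      induction h5 using Submodule.span_induction with
      | mem u hu =>
        obtain ⟨α, hα, rfl⟩ := hu
        exact h3 α hα
      | zero => rw [map_zero, map_zero]
      | add u v _ _ hu hv => rw [map_add, map_add, hu, hv]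
      | smul r u _ hu => rw [map_smul, map_smul, hu]
    have hij : ∀ i j, S ⁅(h : L), B.v i⁆ (B.v j) = S (B.v i) ⁅(h : L), B.v j⁆ := by
      intro i j
      rw [B.lie_v, B.lie_v, LinearMap.map_smul₂, LinearMap.map_smulₛₗ, smul_eq_mul, smul_eq_mul,
        hh (B.w j h) (B.v j) (B.v.ne_zero j) (B.lie_v j h)]
      by_cases h6 : S (B.v i) (B.v j) = 0
      · rw [h6, mul_zero, mul_zero]
      · rw [hort i j h6]
    intro u v
    rw [← B.v.sum_repr u, ← B.v.sum_repr v, lie_sum, lie_sum, LinearMap.map_sum₂, LinearMap.map_sum₂]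
    refine Finset.sum_congr rfl fun i _ => ?_
    rw [map_sum, map_sum]
    refine Finset.sum_congr rfl fun j _ => ?_
    rw [lie_smul, lie_smul, LinearMap.map_smul₂, LinearMap.map_smul₂, LinearMap.map_smulₛₗ,
      LinearMap.map_smulₛₗ, hij]

end one

section two

variable {V₁ : Type*} [AddCommGroup V₁] [Module ℂ V₁] [FiniteDimensional ℂ V₁] [LieRingModule L V₁] [LieModule ℂ L V₁]
variable {V₂ : Type*} [AddCommGroup V₂] [Module ℂ V₂] [FiniteDimensional ℂ V₂] [LieRingModule L V₂] [LieModule ℂ L V₂]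

/-- The two adjoints agree. -/
theorem TH_uniq48 {b : (rootSystem H).Base} {es fs : H.root → L} (G : Gen b es fs)
    {S₁ : V₁ →ₗ[ℂ] V₁ →ₗ⋆[ℂ] ℂ} {S₂ : V₂ →ₗ[ℂ] V₂ →ₗ⋆[ℂ] ℂ} {θ₁ θ₂ : L → L} (T₁ : TH b es fs S₁ θ₁)
    (T₂ : TH b es fs S₂ θ₂) : θ₁ = θ₂ := by
  have z1 : θ₁ 0 = 0 := by
    have h := T₁.smul 0 0
    rwa [zero_smul, map_zero, zero_smul] at h
  have z2 : θ₂ 0 = 0 := by
    have h := T₂.smul 0 0
    rwa [zero_smul, map_zero, zero_smul] at h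
  let M : LieSubalgebra ℂ L :=
    { carrier := {x | θ₁ x = θ₂ x}
      add_mem' := by
        intro x y hx hy
        change θ₁ (x + y) = θ₂ (x + y)
        rw [T₁.add, T₂.add, show θ₁ x = θ₂ x from hx, show θ₁ y = θ₂ y from hy]
      zero_mem' := by
        change θ₁ 0 = θ₂ 0
        rw [z1, z2]
      smul_mem' := by
        intro c x hx
        change θ₁ (c • x) = θ₂ (c • x)
        rw [T₁.smul, T₂.smul, show θ₁ x = θ₂ x from hx]
      lie_mem' := by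
        intro x y hx hy
        change θ₁ ⁅x, y⁆ = θ₂ ⁅x, y⁆
        rw [T₁.lie, T₂.lie, show θ₁ x = θ₂ x from hx, show θ₁ y = θ₂ y from hy] }
  have hM : M = ⊤ := by
    refine gen_top G M (fun i hi => ?_) fun i hi => ?_
    · change θ₁ (es i) = θ₂ (es i)
      rw [T₁.e i hi, T₂.e i hi]
    · change θ₁ (fs i) = θ₂ (fs i)
      rw [T₁.f i hi, T₂.f i hi]
  funext x
  have h : x ∈ M := by rw [hM]; trivial
  exact h

/-- Invariant positive definite Hermitian forms on two modules with the same adjoint. -/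
theorem compact_two48 [Nontrivial V₁] [Nontrivial V₂]
    (hirr₁ : ∀ W : Submodule ℂ V₁, (∀ x : L, ∀ u ∈ W, ⁅x, u⁆ ∈ W) → W = ⊥ ∨ W = ⊤)
    (hfaith₁ : ∀ x : L, (∀ u : V₁, ⁅x, u⁆ = 0) → x = 0)
    (hirr₂ : ∀ W : Submodule ℂ V₂, (∀ x : L, ∀ u ∈ W, ⁅x, u⁆ ∈ W) → W = ⊥ ∨ W = ⊤)
    (hfaith₂ : ∀ x : L, (∀ u : V₂, ⁅x, u⁆ = 0) → x = 0) :
    ∃ (S₁ : V₁ →ₗ[ℂ] V₁ →ₗ⋆[ℂ] ℂ) (S₂ : V₂ →ₗ[ℂ] V₂ →ₗ⋆[ℂ] ℂ) (θ : L → L),
      (∀ u v, S₁ v u = starRingEnd ℂ (S₁ u v)) ∧ (∀ u, u ≠ 0 → ∃ r : ℝ, 0 < r ∧ S₁ u u = (r : ℂ)) ∧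
      (∀ (x : L) (u v : V₁), S₁ ⁅x, u⁆ v = S₁ u ⁅θ x, v⁆) ∧
      (∀ h : H, (∀ c : ℂ, ∀ v : V₁, v ≠ 0 → ⁅(h : L), v⁆ = c • v → starRingEnd ℂ c = c) →
        ∀ u v : V₁, S₁ ⁅(h : L), u⁆ v = S₁ u ⁅(h : L), v⁆) ∧
      (∀ u v, S₂ v u = starRingEnd ℂ (S₂ u v)) ∧ (∀ u, u ≠ 0 → ∃ r : ℝ, 0 < r ∧ S₂ u u = (r : ℂ)) ∧
      (∀ (x : L) (u v : V₂), S₂ ⁅x, u⁆ v = S₂ u ⁅θ x, v⁆) ∧
      (∀ h : H, (∀ c : ℂ, ∀ v : V₂, v ≠ 0 → ⁅(h : L), v⁆ = c • v → starRingEnd ℂ c = c) →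
        ∀ u v : V₂, S₂ ⁅(h : L), u⁆ v = S₂ u ⁅(h : L), v⁆) := by
  obtain ⟨b⟩ := (rootSystem H).nonempty_base
  obtain ⟨es, fs, G⟩ := exists_gen b
  obtain ⟨S₁, θ₁, a1, a2, a3, a4⟩ := compact48 H G hirr₁ hfaith₁
  obtain ⟨S₂, θ₂, b1, b2, b3, b4⟩ := compact48 H G hirr₂ hfaith₂
  have h := TH_uniq48 H G a3 b3
  subst h
  exact ⟨S₁, S₂, θ₁, a1, a2, a3.adj, a4, b1, b2, b3.adj, b4⟩

end two

end lie

end CF

namespace MH

open Matrix

variable {n : Type*} [Fintype n] [DecidableEq n]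

/-- The Gram matrix. -/
private def gm48 (S : (n → ℂ) →ₗ[ℂ] (n → ℂ) →ₗ⋆[ℂ] ℂ) : Matrix n n ℂ :=
  Matrix.of fun j i => S (Pi.single i 1) (Pi.single j 1)

private lemma gm_apply48 (S : (n → ℂ) →ₗ[ℂ] (n → ℂ) →ₗ⋆[ℂ] ℂ) (u v : n → ℂ) :
    S u v = star v ⬝ᵥ (gm48 S *ᵥ u) := by
  have hu : u = ∑ i, u i • (Pi.single i 1 : n → ℂ) := pi_eq_sum_univ' u
  have hv : v = ∑ i, v i • (Pi.single i 1 : n → ℂ) := pi_eq_sum_univ' v
  conv_lhs => rw [hu, hv]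
  rw [LinearMap.map_sum₂, dotProduct]
  simp only [mulVec, dotProduct, Finset.mul_sum]
  rw [Finset.sum_comm]
  refine Finset.sum_congr rfl fun i _ => ?_
  rw [map_sum]
  refine Finset.sum_congr rfl fun j _ => ?_
  rw [LinearMap.map_smul₂, LinearMap.map_smulₛₗ, smul_eq_mul, smul_eq_mul, gm48, of_apply,
    Pi.star_apply, Complex.star_def]
  ring

open scoped MatrixOrder ComplexOrder Matrix.Norms.L2Operator in
private lemma chol48 {M : Matrix n n ℂ} (hM : M.PosDef) :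
    ∃ B Bi : Matrix n n ℂ, B * Bi = 1 ∧ Bi * B = 1 ∧ M = Bᴴ * B := by
  obtain ⟨y, hy, h⟩ := CStarAlgebra.isStrictlyPositive_iff_eq_star_mul_self.mp hM.isStrictlyPositive
  obtain ⟨u, rfl⟩ := hy
  exact ⟨u, ((u⁻¹ : (Matrix n n ℂ)ˣ) : Matrix n n ℂ), u.mul_inv, u.inv_mul, h⟩

private lemma adj48 {S : (n → ℂ) →ₗ[ℂ] (n → ℂ) →ₗ⋆[ℂ] ℂ} (hM : (gm48 S)ᴴ = gm48 S) {X Y : Matrix n n ℂ}
    (h : ∀ u v, S (X *ᵥ u) v = S u (Y *ᵥ v)) : Xᴴ * gm48 S = gm48 S * Y := by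
  have h1 : gm48 S * X = Yᴴ * gm48 S := by
    ext i j
    have h2 := h (Pi.single j 1) (Pi.single i 1)
    rw [gm_apply48, gm_apply48, star_mulVec, mulVec_mulVec, ← dotProduct_mulVec, mulVec_mulVec] at h2
    simpa using h2
  have h3 := congrArg conjTranspose h1
  rw [conjTranspose_mul, conjTranspose_mul, conjTranspose_conjTranspose, hM] at h3
  exact h3

private lemma gram48 {B Bi X Y : Matrix n n ℂ} (h1 : B * Bi = 1) (hXY : Xᴴ * (Bᴴ * B) = Bᴴ * B * Y) :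
    (cj B Bi X)ᴴ = cj B Bi Y := by
  have h2 : Biᴴ * Bᴴ = 1 := by rw [← conjTranspose_mul, h1, conjTranspose_one]
  unfold cj
  rw [conjTranspose_mul, conjTranspose_mul]
  calc Biᴴ * (Xᴴ * Bᴴ) = Biᴴ * (Xᴴ * Bᴴ) * (B * Bi) := by rw [h1, mul_one]
    _ = Biᴴ * (Xᴴ * (Bᴴ * B)) * Bi := by simp only [mul_assoc]
    _ = Biᴴ * Bᴴ * (B * Y * Bi) := by rw [hXY]; simp only [mul_assoc]
    _ = B * Y * Bi := by rw [h2, one_mul]

open scoped ComplexOrder in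
private lemma pd48 {S : (n → ℂ) →ₗ[ℂ] (n → ℂ) →ₗ⋆[ℂ] ℂ} (hM : (gm48 S)ᴴ = gm48 S)
    (hpos : ∀ u, u ≠ 0 → ∃ r : ℝ, 0 < r ∧ S u u = (r : ℂ)) :
    ∃ B Bi : Matrix n n ℂ, B * Bi = 1 ∧ Bi * B = 1 ∧ gm48 S = Bᴴ * B := by
  apply chol48
  refine Matrix.PosDef.of_dotProduct_mulVec_pos hM fun x hx => ?_
  obtain ⟨r, hr, hr2⟩ := hpos x hx
  rw [← gm_apply48, hr2]
  exact_mod_cast hr

private lemma gm_herm48 {S : (n → ℂ) →ₗ[ℂ] (n → ℂ) →ₗ⋆[ℂ] ℂ} (hherm : ∀ u v, S v u = starRingEnd ℂ (S u v)) :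
    (gm48 S)ᴴ = gm48 S := by
  ext i j
  rw [conjTranspose_apply, gm48, of_apply, of_apply, hherm]
  exact star_star _

private lemma real_eig48 {h : Matrix n n ℂ} {E : ℝ → Matrix n n ℂ} {Λ : Finset ℝ} (hE : SD h E Λ) {c : ℂ}
    {v : n → ℂ} (hv : v ≠ 0) (hcv : h *ᵥ v = c • v) : starRingEnd ℂ c = c := by
  have h4 : ∃ μ ∈ Λ, E μ *ᵥ v ≠ 0 := by
    by_contra hcon
    push Not at hcon
    apply hv
    have h5 : (∑ μ ∈ Λ, E μ) *ᵥ v = v := by rw [hE.sum, one_mulVec]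
    rw [← h5, Matrix.sum_mulVec]
    exact Finset.sum_eq_zero hcon
  obtain ⟨μ, -, h5⟩ := h4
  have h6 : E μ *ᵥ (h *ᵥ v) = (μ : ℂ) • (E μ *ᵥ v) := by
    rw [mulVec_mulVec, hE.mul_l, smul_mulVec]
  rw [hcv, mulVec_smul] at h6
  have h7 : c = μ := smul_left_injective ℂ h5 h6
  rw [h7, Complex.conj_ofReal]

section alg

attribute [local instance 100] LieRing.ofAssociativeRing

variable {m : Type*} [Fintype m] [DecidableEq m] {k : Type*} [Fintype k] [DecidableEq k]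

/-- The Lie algebra of operators on the first space. -/
private def la48 (P : Submodule ℂ (Matrix m m ℂ × Matrix k k ℂ)) (hbr : ∀ p ∈ P, ∀ q ∈ P, p * q - q * p ∈ P) :
    LieSubalgebra ℂ (Module.End ℂ (m → ℂ)) where
  carrier := {T | ∃ p ∈ P, toLin' p.1 = T}
  add_mem' := by
    rintro _ _ ⟨p, hp, rfl⟩ ⟨q, hq, rfl⟩
    exact ⟨p + q, P.add_mem hp hq, by rw [Prod.fst_add, map_add]⟩
  zero_mem' := ⟨0, P.zero_mem, by rw [Prod.fst_zero, map_zero]⟩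
  smul_mem' := by
    rintro c _ ⟨p, hp, rfl⟩
    exact ⟨c • p, P.smul_mem c hp, by rw [Prod.smul_fst, map_smul]⟩
  lie_mem' := by
    rintro _ _ ⟨p, hp, rfl⟩ ⟨q, hq, rfl⟩
    refine ⟨p * q - q * p, hbr p hp q hq, ?_⟩
    rw [Prod.fst_sub, Prod.fst_mul, Prod.fst_mul, map_sub, toLin'_mul, toLin'_mul]
    rfl

/-- **The compact form theorem for a pair of representations.** -/
theorem exists_herm_pair [Nonempty m] [Nonempty k] (P : Submodule ℂ (Matrix m m ℂ × Matrix k k ℂ))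
    (hbr : ∀ p ∈ P, ∀ q ∈ P, p * q - q * p ∈ P)
    (hirr1 : ∀ W : Submodule ℂ (m → ℂ), (∀ p ∈ P, ∀ w ∈ W, p.1 *ᵥ w ∈ W) → W = ⊥ ∨ W = ⊤)
    (hirr2 : ∀ W : Submodule ℂ (k → ℂ), (∀ p ∈ P, ∀ w ∈ W, p.2 *ᵥ w ∈ W) → W = ⊥ ∨ W = ⊤)
    (htr : ∀ p ∈ P, p.1.trace = 0) (h12 : ∀ p ∈ P, p.1 = 0 → p.2 = 0) (h21 : ∀ p ∈ P, p.2 = 0 → p.1 = 0)
    {h₁ : Matrix m m ℂ} {h₂ : Matrix k k ℂ} (hh : (h₁, h₂) ∈ P) {E₁ : ℝ → Matrix m m ℂ} {Λ₁ : Finset ℝ}
    {E₂ : ℝ → Matrix k k ℂ} {Λ₂ : Finset ℝ} (hE₁ : SD h₁ E₁ Λ₁) (hE₂ : SD h₂ E₂ Λ₂) :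
    ∃ (B₁ Bi₁ : Matrix m m ℂ) (B₂ Bi₂ : Matrix k k ℂ), B₁ * Bi₁ = 1 ∧ Bi₁ * B₁ = 1 ∧ B₂ * Bi₂ = 1 ∧ Bi₂ * B₂ = 1 ∧
      (cj B₁ Bi₁ h₁)ᴴ = cj B₁ Bi₁ h₁ ∧ (cj B₂ Bi₂ h₂)ᴴ = cj B₂ Bi₂ h₂ ∧
      ∀ p ∈ P, (cj Bi₁ B₁ (cj B₁ Bi₁ p.1)ᴴ, cj Bi₂ B₂ (cj B₂ Bi₂ p.2)ᴴ) ∈ P := by
  classical
  set L' := la48 P hbr with hL'
  have hmem : ∀ p ∈ P, toLin' p.1 ∈ L' := fun p hp => ⟨p, hp, rfl⟩
  have hex : ∀ x : L', ∃ p ∈ P, toLin' p.1 = (x : Module.End ℂ (m → ℂ)) := fun x => x.2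
  choose pr hprP hpr using hex
  -- the pair of an element of `P`
  have hpr_eq : ∀ p (hp : p ∈ P), pr ⟨toLin' p.1, hmem p hp⟩ = p := by
    intro p hp
    have h1 := hpr ⟨toLin' p.1, hmem p hp⟩
    have h2 : (pr ⟨toLin' p.1, hmem p hp⟩).1 = p.1 := toLin'.injective h1
    have h3 : pr ⟨toLin' p.1, hmem p hp⟩ - p ∈ P := P.sub_mem (hprP _) hp
    have h4 := h12 _ h3 (by rw [Prod.fst_sub, h2, sub_self])
    exact Prod.ext h2 (sub_eq_zero.1 h4)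
  have hpr_uniq : ∀ (x : L') p, p ∈ P → toLin' p.1 = (x : Module.End ℂ (m → ℂ)) → pr x = p := by
    intro x p hp h1
    have h2 : (pr x).1 = p.1 := toLin'.injective ((hpr x).trans h1.symm)
    have h3 : pr x - p ∈ P := P.sub_mem (hprP _) hp
    have h4 := h12 _ h3 (by rw [Prod.fst_sub, h2, sub_self])
    exact Prod.ext h2 (sub_eq_zero.1 h4)
  -- the second representation
  let f2 : L' →ₗ⁅ℂ⁆ Module.End ℂ (k → ℂ) :=
    { toFun := fun x => toLin' (pr x).2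
      map_add' := by
        intro x y
        have h1 : pr (x + y) = pr x + pr y := hpr_uniq _ _ (P.add_mem (hprP x) (hprP y)) (by
          rw [Prod.fst_add, map_add, hpr, hpr]
          rfl)
        rw [h1, Prod.snd_add, map_add]
      map_smul' := by
        intro c x
        have h1 : pr (c • x) = c • pr x := hpr_uniq _ _ (P.smul_mem c (hprP x)) (by
          rw [Prod.smul_fst, map_smul, hpr]
          rfl)
        rw [h1, Prod.smul_snd, map_smul]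
        rfl
      map_lie' := by
        intro x y
        have h1 : pr ⁅x, y⁆ = pr x * pr y - pr y * pr x := hpr_uniq _ _ (hbr _ (hprP x) _ (hprP y)) (by
          rw [Prod.fst_sub, Prod.fst_mul, Prod.fst_mul, map_sub, toLin'_mul, toLin'_mul, hpr, hpr]
          rfl)
        change toLin' (pr ⁅x, y⁆).2 = _
        rw [h1, Prod.snd_sub, Prod.snd_mul, Prod.snd_mul, map_sub, toLin'_mul, toLin'_mul]
        rfl }
  have hf2 : ∀ x : L', f2 x = toLin' (pr x).2 := fun x => rfl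
  letI i2 : LieRingModule L' (k → ℂ) := LieRingModule.compLieHom (k → ℂ) f2
  haveI i2' : LieModule ℂ L' (k → ℂ) := LieModule.compLieHom (k → ℂ) f2
  have hb2 : ∀ (x : L') (v : k → ℂ), ⁅x, v⁆ = (pr x).2 *ᵥ v := fun x v => rfl
  have hb1 : ∀ (x : L') (v : m → ℂ), ⁅x, v⁆ = (pr x).1 *ᵥ v := by
    intro x v
    change (x : Module.End ℂ (m → ℂ)) v = _
    rw [← hpr x, toLin'_apply]
  have hirrL : ∀ W : Submodule ℂ (m → ℂ), (∀ z ∈ L', ∀ w ∈ W, z w ∈ W) → W = ⊥ ∨ W = ⊤ := by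
    intro W hW
    refine hirr1 W fun p hp w hw => ?_
    have h1 := hW (toLin' p.1) (hmem p hp) w hw
    rwa [toLin'_apply] at h1
  have htrL : ∀ z ∈ L', LinearMap.trace ℂ (m → ℂ) z = 0 := by
    rintro _ ⟨p, hp, rfl⟩
    rw [LinearMap.trace_eq_matrix_trace ℂ (Pi.basisFun ℂ m), LinearMap.toMatrix_eq_toMatrix',
      LinearMap.toMatrix'_toLin']
    exact htr p hp
  have hk : IsKilling ℂ L' := UN.killing_tr hirrL htrL
  obtain ⟨H, hH, hhH⟩ := Pool.Agent.Helper54.MT.exists_cartan_end (L := L') ⟨toLin' h₁, hmem _ hh⟩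
    (Pool.Agent.Helper54.MT.semisimple_of_diag hE₁.iSup_eq)
  have hi1 : ∀ W : Submodule ℂ (m → ℂ), (∀ x : L', ∀ u ∈ W, ⁅x, u⁆ ∈ W) → W = ⊥ ∨ W = ⊤ :=
    fun W hW => hirrL W fun z hz w hw => hW ⟨z, hz⟩ w hw
  have hi2 : ∀ W : Submodule ℂ (k → ℂ), (∀ x : L', ∀ u ∈ W, ⁅x, u⁆ ∈ W) → W = ⊥ ∨ W = ⊤ := by
    intro W hW
    refine hirr2 W fun p hp w hw => ?_
    have h1 := hW ⟨toLin' p.1, hmem p hp⟩ w hw
    rwa [hb2, hpr_eq p hp] at h1
  have hfa1 : ∀ x : L', (∀ u : m → ℂ, ⁅x, u⁆ = 0) → x = 0 := by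
    intro x hx
    apply Subtype.ext
    exact LinearMap.ext fun u => hx u
  have hfa2 : ∀ x : L', (∀ u : k → ℂ, ⁅x, u⁆ = 0) → x = 0 := by
    intro x hx
    have h1 : (pr x).2 = 0 := by
      apply toLin'.injective
      rw [map_zero]
      refine LinearMap.ext fun u => ?_
      rw [toLin'_apply, LinearMap.zero_apply, ← hb2]
      exact hx u
    have h2 := h21 _ (hprP x) h1
    apply Subtype.ext
    rw [← hpr x, h2, map_zero]
    rfl
  obtain ⟨S₁, S₂, θ, a1, a2, a3, a4, b1, b2, b3, b4⟩ := CF.compact_two48 (V₁ := m → ℂ) (V₂ := k → ℂ) H hi1 hfa1 hi2 hfa2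
  have hM1 := gm_herm48 a1
  have hM2 := gm_herm48 b1
  obtain ⟨B₁, Bi₁, c1, c2, c3⟩ := pd48 hM1 a2
  obtain ⟨B₂, Bi₂, d1, d2, d3⟩ := pd48 hM2 b2
  have hprh : pr ⟨toLin' h₁, hmem _ hh⟩ = (h₁, h₂) := hpr_eq (h₁, h₂) hh
  refine ⟨B₁, Bi₁, B₂, Bi₂, c1, c2, d1, d2, ?_, ?_, ?_⟩
  · apply gram48 c1
    rw [← c3]
    apply adj48 hM1
    have h1 := a4 ⟨⟨toLin' h₁, hmem _ hh⟩, hhH⟩ (by
      intro c v hv hcv
      replace hcv : h₁ *ᵥ v = c • v := by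
        have h2 := hb1 ⟨toLin' h₁, hmem _ hh⟩ v
        rw [hprh] at h2
        rw [← h2]
        exact hcv
      exact real_eig48 hE₁ hv hcv)
    intro u v
    have h2 := h1 u v
    change S₁ ⁅(⟨toLin' h₁, hmem _ hh⟩ : L'), u⁆ v = S₁ u ⁅(⟨toLin' h₁, hmem _ hh⟩ : L'), v⁆ at h2
    rw [hb1, hb1, hprh] at h2
    exact h2
  · apply gram48 d1
    rw [← d3]
    apply adj48 hM2
    have h1 := b4 ⟨⟨toLin' h₁, hmem _ hh⟩, hhH⟩ (by
      intro c v hv hcv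
      replace hcv : h₂ *ᵥ v = c • v := by
        have h2 := hb2 ⟨toLin' h₁, hmem _ hh⟩ v
        rw [hprh] at h2
        rw [← h2]
        exact hcv
      exact real_eig48 hE₂ hv hcv)
    intro u v
    have h2 := h1 u v
    change S₂ ⁅(⟨toLin' h₁, hmem _ hh⟩ : L'), u⁆ v = S₂ u ⁅(⟨toLin' h₁, hmem _ hh⟩ : L'), v⁆ at h2
    rw [hb2, hb2, hprh] at h2
    exact h2
  · intro p hp
    set x : L' := ⟨toLin' p.1, hmem p hp⟩ with hx
    set q := pr (θ x) with hq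
    have hprx : pr x = p := hpr_eq p hp
    have e1 : (cj B₁ Bi₁ p.1)ᴴ = cj B₁ Bi₁ q.1 := by
      apply gram48 c1
      rw [← c3]
      apply adj48 hM1
      intro u v
      have h5 := a3 x u v
      rw [hb1, hb1, hprx] at h5
      exact h5
    have e2 : (cj B₂ Bi₂ p.2)ᴴ = cj B₂ Bi₂ q.2 := by
      apply gram48 d1
      rw [← d3]
      apply adj48 hM2
      intro u v
      have h5 := b3 x u v
      rw [hb2, hb2, hprx] at h5
      exact h5
    have e3 : cj Bi₁ B₁ (cj B₁ Bi₁ q.1) = q.1 := by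
      unfold cj
      calc Bi₁ * (B₁ * q.1 * Bi₁) * B₁ = (Bi₁ * B₁) * q.1 * (Bi₁ * B₁) := by simp only [mul_assoc]
        _ = q.1 := by rw [c2, one_mul, mul_one]
    have e4 : cj Bi₂ B₂ (cj B₂ Bi₂ q.2) = q.2 := by
      unfold cj
      calc Bi₂ * (B₂ * q.2 * Bi₂) * B₂ = (Bi₂ * B₂) * q.2 * (Bi₂ * B₂) := by simp only [mul_assoc]
        _ = q.2 := by rw [d2, one_mul, mul_one]
    rw [e1, e2, e3, e4]
    exact hprP (θ x)

end alg

end MH
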