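import Pool.Agent.Helper48.GH.GalE1
import Pool.Agent.Helper48.GH.CF2
import Pool.Agent.Helper67.GH.Two
import Pool.Agent.Helper58.GH.Pair

/-!
Project GH, l-adic side, block C: pairs of blocks.
-/

set_option linter.unusedSectionVars false

open Matrix GH

namespace MH

/-! ### change of coordinates -/

section pp

variable {n : Type*} [Fintype n] [DecidableEq n] {L : Submodule ℂ (Matrix n n ℂ)} {a b : ℕ} {W : Matrix n (Fin a) ℂ}
  {V : Matrix (Fin a) n ℂ} {W' : Matrix n (Fin b) ℂ} {V' : Matrix (Fin b) n ℂ} {e f : Matrix n n ℂ}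

theorem PP_fst48 : (PP L W V W' V').map (LinearMap.fst ℂ _ _) = cpS W V L := by
  ext y
  rw [mem_cpS48]
  constructor
  · rintro ⟨_, ⟨x, hx, c, d, rfl⟩, rfl⟩
    exact ⟨x, hx, c, rfl⟩
  · rintro ⟨x, hx, c, rfl⟩
    exact ⟨_, ⟨x, hx, c, 0, rfl⟩, rfl⟩

theorem PP_snd48 : (PP L W V W' V').map (LinearMap.snd ℂ _ _) = cpS W' V' L := by
  ext y
  rw [mem_cpS48]
  constructor
  · rintro ⟨_, ⟨x, hx, c, d, rfl⟩, rfl⟩
    exact ⟨x, hx, d, rfl⟩
  · rintro ⟨x, hx, c, rfl⟩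
    exact ⟨_, ⟨x, hx, 0, c, rfl⟩, rfl⟩

theorem PP_br48 (br : ∀ x ∈ L, ∀ y ∈ L, x * y - y * x ∈ L) (hVW : V * W = 1) (hWV : W * V = e) (hVW' : V' * W' = 1)
    (hWV' : W' * V' = f) (he : ∀ x ∈ L, x * e = e * x) (hf : ∀ x ∈ L, x * f = f * x) :
    ∀ p ∈ PP L W V W' V', ∀ q ∈ PP L W V W' V', p * q - q * p ∈ PP L W V W' V' := by
  rintro _ ⟨x, hx, c, d, rfl⟩ _ ⟨y, hy, c', d', rfl⟩
  refine ⟨x * y - y * x, br x hx y hy, 0, 0, ?_⟩
  have h1 : ∀ {r : ℕ} (X Y : Matrix (Fin r) (Fin r) ℂ) (s t : ℂ),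
      (X + s • (1 : Matrix (Fin r) (Fin r) ℂ)) * (Y + t • (1 : Matrix (Fin r) (Fin r) ℂ)) -
        (Y + t • (1 : Matrix (Fin r) (Fin r) ℂ)) * (X + s • (1 : Matrix (Fin r) (Fin r) ℂ)) = X * Y - Y * X := by
    intro r X Y s t
    simp only [Matrix.add_mul, Matrix.mul_add, Matrix.smul_mul, Matrix.mul_smul, Matrix.one_mul, Matrix.mul_one,
      smul_add]
    rw [smul_comm t s]
    abel
  rw [Prod.mk_mul_mk, Prod.mk_mul_mk, Prod.mk_sub_mk, h1, h1, zero_smul, zero_smul, add_zero, add_zero]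
  rw [cmul48 hVW hWV (he y hy), cmul48 hVW hWV (he x hx), cmul48 hVW' hWV' (hf y hy), cmul48 hVW' hWV' (hf x hx),
    Matrix.mul_sub, Matrix.sub_mul, Matrix.mul_sub, Matrix.sub_mul]

theorem cj_cp48 (B Bi : Matrix (Fin a) (Fin a) ℂ) (x : Matrix n n ℂ) :
    (B * V) * x * (W * Bi) = cj B Bi (V * x * W) := by
  unfold cj
  simp only [Matrix.mul_assoc]

variable {B₁ Bi₁ : Matrix (Fin a) (Fin a) ℂ} {B₂ Bi₂ : Matrix (Fin b) (Fin b) ℂ}

theorem PP_cj48 (h1 : B₁ * Bi₁ = 1) (h2 : B₂ * Bi₂ = 1) {p : Matrix (Fin a) (Fin a) ℂ × Matrix (Fin b) (Fin b) ℂ}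
    (hp : p ∈ PP L W V W' V') :
    (cj B₁ Bi₁ p.1, cj B₂ Bi₂ p.2) ∈ PP L (W * Bi₁) (B₁ * V) (W' * Bi₂) (B₂ * V') := by
  obtain ⟨x, hx, c, d, rfl⟩ := hp
  refine ⟨x, hx, c, d, ?_⟩
  rw [cj_cp48, cj_cp48]
  change (cj B₁ Bi₁ (V * x * W + c • 1), cj B₂ Bi₂ (V' * x * W' + d • 1)) = _
  rw [cj_add, cj_add, cj_smul, cj_smul, cj_one h1, cj_one h2]

theorem PP_of_cj48 (h1 : B₁ * Bi₁ = 1) (h2 : B₂ * Bi₂ = 1)
    {p : Matrix (Fin a) (Fin a) ℂ × Matrix (Fin b) (Fin b) ℂ}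
    (hp : p ∈ PP L (W * Bi₁) (B₁ * V) (W' * Bi₂) (B₂ * V')) :
    ∃ q ∈ PP L W V W' V', p = (cj B₁ Bi₁ q.1, cj B₂ Bi₂ q.2) := by
  obtain ⟨x, hx, c, d, rfl⟩ := hp
  refine ⟨_, ⟨x, hx, c, d, rfl⟩, ?_⟩
  rw [cj_cp48, cj_cp48]
  change _ = (cj B₁ Bi₁ (V * x * W + c • 1), cj B₂ Bi₂ (V' * x * W' + d • 1))
  rw [cj_add, cj_add, cj_smul, cj_smul, cj_one h1, cj_one h2]

theorem scalar_cj48 {r : ℕ} {B Bi x : Matrix (Fin r) (Fin r) ℂ} (h1 : B * Bi = 1) (h2 : Bi * B = 1) :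
    (∃ c : ℂ, cj B Bi x = c • (1 : Matrix (Fin r) (Fin r) ℂ)) ↔ ∃ c : ℂ, x = c • (1 : Matrix (Fin r) (Fin r) ℂ) := by
  constructor
  · rintro ⟨c, hc⟩
    refine ⟨c, ?_⟩
    have h3 := congrArg (cj Bi B) hc
    rwa [cj_cj h2, cj_smul, cj_one h2] at h3
  · rintro ⟨c, rfl⟩
    exact ⟨c, by rw [cj_smul, cj_one h1]⟩

theorem Gra_cj48 (h1 : B₁ * Bi₁ = 1) (h1' : Bi₁ * B₁ = 1) (h2 : B₂ * Bi₂ = 1) (h2' : Bi₂ * B₂ = 1)
    (hg : Gra (PP L W V W' V')) : Gra (PP L (W * Bi₁) (B₁ * V) (W' * Bi₂) (B₂ * V')) := by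
  intro p hp
  obtain ⟨q, hq, rfl⟩ := PP_of_cj48 h1 h2 hp
  change (∃ c : ℂ, cj B₁ Bi₁ q.1 = c • 1) ↔ ∃ c : ℂ, cj B₂ Bi₂ q.2 = c • 1
  rw [scalar_cj48 h1 h1', scalar_cj48 h2 h2']
  exact hg q hq

theorem LinkT_cj48 (h1 : B₁ * Bi₁ = 1) (h1' : Bi₁ * B₁ = 1) (h2 : B₂ * Bi₂ = 1) (h2' : Bi₂ * B₂ = 1)
    (hT : LinkT (PP L (W * Bi₁) (B₁ * V) (W' * Bi₂) (B₂ * V'))) : LinkT (PP L W V W' V') := by
  obtain ⟨T, hT0, hT⟩ := hT
  refine ⟨Bi₂ * T * B₁, ?_, ?_⟩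
  · intro h
    apply hT0
    calc T = (B₂ * Bi₂) * T * (B₁ * Bi₁) := by rw [h1, h2, Matrix.one_mul, Matrix.mul_one]
      _ = B₂ * (Bi₂ * T * B₁) * Bi₁ := by simp only [Matrix.mul_assoc]
      _ = 0 := by rw [h, Matrix.mul_zero, Matrix.zero_mul]
  · intro p hp
    obtain ⟨c, hc⟩ := hT _ (PP_cj48 h1 h2 hp)
    refine ⟨c, ?_⟩
    change cj B₂ Bi₂ p.2 * T - T * cj B₁ Bi₁ p.1 = c • T at hc
    unfold cj at hc
    calc p.2 * (Bi₂ * T * B₁) - Bi₂ * T * B₁ * p.1 =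
        (Bi₂ * B₂) * p.2 * (Bi₂ * T * B₁) - Bi₂ * T * B₁ * p.1 * (Bi₁ * B₁) := by
          rw [h1', h2', Matrix.one_mul, Matrix.mul_one]
      _ = Bi₂ * (B₂ * p.2 * Bi₂ * T - T * (B₁ * p.1 * Bi₁)) * B₁ := by
          rw [Matrix.mul_sub, Matrix.sub_mul]
          simp only [Matrix.mul_assoc]
      _ = c • (Bi₂ * T * B₁) := by rw [hc, Matrix.mul_smul, Matrix.smul_mul]

theorem LinkF_cj48 (h1 : B₁ * Bi₁ = 1) (h1' : Bi₁ * B₁ = 1) (h2 : B₂ * Bi₂ = 1) (h2' : Bi₂ * B₂ = 1)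
    (hF : LinkF (PP L (W * Bi₁) (B₁ * V) (W' * Bi₂) (B₂ * V'))) : LinkF (PP L W V W' V') := by
  obtain ⟨F, hF0, hF⟩ := hF
  have t1 : Bi₂ᵀ * B₂ᵀ = 1 := by rw [← Matrix.transpose_mul, h2, Matrix.transpose_one]
  have t2 : B₂ᵀ * Bi₂ᵀ = 1 := by rw [← Matrix.transpose_mul, h2', Matrix.transpose_one]
  refine ⟨B₂ᵀ * F * B₁, ?_, ?_⟩
  · intro h
    apply hF0
    calc F = (Bi₂ᵀ * B₂ᵀ) * F * (B₁ * Bi₁) := by rw [h1, t1, Matrix.one_mul, Matrix.mul_one]
      _ = Bi₂ᵀ * (B₂ᵀ * F * B₁) * Bi₁ := by simp only [Matrix.mul_assoc]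
      _ = 0 := by rw [h, Matrix.mul_zero, Matrix.zero_mul]
  · intro p hp
    obtain ⟨c, hc⟩ := hF _ (PP_cj48 h1 h2 hp)
    refine ⟨c, ?_⟩
    change (cj B₂ Bi₂ p.2)ᵀ * F + F * cj B₁ Bi₁ p.1 = c • F at hc
    unfold cj at hc
    rw [Matrix.transpose_mul, Matrix.transpose_mul] at hc
    calc p.2ᵀ * (B₂ᵀ * F * B₁) + B₂ᵀ * F * B₁ * p.1 =
        (B₂ᵀ * Bi₂ᵀ) * p.2ᵀ * (B₂ᵀ * F * B₁) + B₂ᵀ * F * B₁ * p.1 * (Bi₁ * B₁) := by
          rw [h1', t2, Matrix.one_mul, Matrix.mul_one]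
      _ = B₂ᵀ * (Bi₂ᵀ * (p.2ᵀ * B₂ᵀ) * F + F * (B₁ * p.1 * Bi₁)) * B₁ := by
          rw [Matrix.mul_add, Matrix.add_mul]
          simp only [Matrix.mul_assoc]
      _ = c • (B₂ᵀ * F * B₁) := by rw [hc, Matrix.mul_smul, Matrix.smul_mul]

end pp

variable {n : Type*} [Fintype n] [DecidableEq n]
variable {w : ℤ} {Q : Matrix n n ℚ} {S : Finset ℤ} {P : ℤ → Matrix n n ℂ} {Γ : Subgroup (GL n ℂ)}

/-- full Lie algebras of matrices of size two -/
theorem TyF.two48 {C : Submodule ℂ (Matrix (Fin 2) (Fin 2) ℂ)} (h : TyF C) {x : Matrix (Fin 2) (Fin 2) ℂ}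
    (hx : x.trace = 0) : x ∈ C := by
  rcases h.2 with h | h
  · exact h x hx
  · rw [Fintype.card_fin] at h
    omega

section pr

variable (H : IsHW w Q S P) (G : IsGalW w Q S P Γ) {e f : Matrix n n ℂ} {a b : ℕ} {W : Matrix n (Fin a) ℂ}
  {V : Matrix (Fin a) n ℂ} {W' : Matrix n (Fin b) ℂ} {V' : Matrix (Fin b) n ℂ}
include H G

/-- pairs, the first block of size two -/
theorem IsGalW.pair2 {W : Matrix n (Fin 2) ℂ} {V : Matrix (Fin 2) n ℂ} (he : IsBlk P e) (hf : IsBlk P f)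
    (hVW : V * W = 1) (hWV : W * V = e) (hVW' : V' * W' = 1) (hWV' : W' * V' = f) (hb : 2 ≤ b)
    (hg : Gra (PP (LG Γ) W V W' V')) : LinkT (PP (LG Γ) W V W' V') := by
  refine pair_two (PP_br48 (fun x hx y hy => LG_br48 hx hy) hVW hWV hVW' hWV' (fun x hx => G.LG_EC hx he.mem)
    (fun x hx => G.LG_EC hx hf.mem)) hg (by rw [Fintype.card_fin]) ?_ ?_
  · intro x
    have h1 : x - (x.trace / 2) • (1 : Matrix (Fin 2) (Fin 2) ℂ) ∈ cpS W V (LG Γ) := by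
      refine TyF.two48 (G.ty H he hVW hWV le_rfl) ?_
      rw [Matrix.trace_sub, Matrix.trace_smul, Matrix.trace_one, Fintype.card_fin, smul_eq_mul]
      push_cast
      ring
    obtain ⟨y, hy, c, hc⟩ := mem_cpS48.1 h1
    refine ⟨V' * y * W' + (0 : ℂ) • 1, y, hy, c + x.trace / 2, 0, ?_⟩
    rw [add_smul, ← add_assoc, ← hc, sub_add_cancel]
  · rw [PP_snd48]
    exact G.ty H hf hVW' hWV' hb

/-- the trace of the Hodge-Tate element on a block is real -/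
theorem IsGalW.sd_blk {S' : Finset ℤ} {R : ℤ → Matrix n n ℂ} (hRG : IsHTw w Q S' Γ R) (he : IsBlk P e)
    (hVW : V * W = 1) (hWV : W * V = e) (ha : 0 < a) : ∃ (c : ℝ) (E : ℝ → Matrix (Fin a) (Fin a) ℂ) (Λ : Finset ℝ),
    (V * hR S' R * W - (c : ℂ) • (1 : Matrix (Fin a) (Fin a) ℂ)).trace = 0 ∧
      SD (V * hR S' R * W - (c : ℂ) • (1 : Matrix (Fin a) (Fin a) ℂ)) E Λ := by
  have hRe : ∀ p, R p * e = e * R p := fun p => G.R_EC hRG he.mem p
  have hmul : ∀ p q, V * R p * W * (V * R q * W) = if p = q then V * R p * W else 0 := by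
    intro p q
    rw [cmul48 hVW hWV (hRe q), hRG.mul]
    split_ifs
    · rfl
    · simp
  have hsum : ∑ p ∈ S', V * R p * W = 1 := by
    rw [← Matrix.sum_mul, ← Matrix.mul_sum, hRG.sum, Matrix.mul_one, hVW]
  have hh : V * hR S' R * W = ∑ p ∈ S', (p : ℂ) • (V * R p * W) := by
    unfold hR
    rw [Matrix.mul_sum, Matrix.sum_mul]
    refine Finset.sum_congr rfl fun p _ => ?_
    rw [Matrix.mul_smul, Matrix.smul_mul]
  refine ⟨(∑ p ∈ S', (p : ℝ) * ((V * R p * W).rank : ℝ)) / a,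
    spR (fun p => V * R p * W) S' ((∑ p ∈ S', (p : ℝ) * ((V * R p * W).rank : ℝ)) / a),
    S'.image fun p : ℤ => ((p : ℝ) - (∑ p ∈ S', (p : ℝ) * ((V * R p * W).rank : ℝ)) / a), ?_, ?_⟩
  rotate_left
  · rw [hh]
    exact spR_sd hmul hsum (fun p hp => by rw [hRG.supp p hp]; simp) _
  · rw [Matrix.trace_sub, Matrix.trace_smul, Matrix.trace_one, Fintype.card_fin, smul_eq_mul, hh, Matrix.trace_sum]
    have h1 : ∀ p : ℤ, ((p : ℂ) • (V * R p * W)).trace = ((p : ℝ) * ((V * R p * W).rank : ℝ) : ℝ) := by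
      intro p
      rw [Matrix.trace_smul, smul_eq_mul, ← rank_eq_trace (by rw [hmul, if_pos rfl])]
      push_cast
      rfl
    rw [Finset.sum_congr rfl fun p _ => h1 p]
    have h2 : (a : ℂ) ≠ 0 := by
      have : a ≠ 0 := by omega
      exact_mod_cast this
    push_cast
    field_simp
    ring

/-- pairs of blocks of size at least three -/
theorem IsGalW.pair3 (he : IsBlk P e) (hf : IsBlk P f)
    (hVW : V * W = 1) (hWV : W * V = e) (hVW' : V' * W' = 1) (hWV' : W' * V' = f) (ha : 3 ≤ a) (hb : 3 ≤ b)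
    (hg : Gra (PP (LG Γ) W V W' V')) : LinkT (PP (LG Γ) W V W' V') ∨ LinkF (PP (LG Γ) W V W' V') := by
  have hLe : ∀ x ∈ LG Γ, x * e = e * x := fun x hx => G.LG_EC hx he.mem
  have hLf : ∀ x ∈ LG Γ, x * f = f * x := fun x hx => G.LG_EC hx hf.mem
  have hrk : e.rank = a := by
    have h1 := rank_eq_trace (he.idem)
    have h2 : e.trace = (a : ℂ) := by
      rw [← hWV, Matrix.trace_mul_comm, hVW, Matrix.trace_one, Fintype.card_fin]
    rw [h2] at h1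
    exact_mod_cast h1
  obtain ⟨S', R, hRG, hgcd, hDom⟩ := G.touch e he (by omega)
  have hmem := hRG.hR_mem
  have hRe : ∀ p, R p * e = e * R p := fun p => G.R_EC hRG he.mem p
  -- the Hodge-Tate element is not scalar on `e`
  have hns : ∀ c : ℂ, hR S' R * e ≠ c • e := by
    intro c hc
    have h1 : ∀ p : ℤ, (p : ℂ) ≠ c → e * R p = 0 := by
      intro p hp
      by_cases hpS : p ∈ S'
      · have h2 : R p * hR S' R = (p : ℂ) • R p := by
          unfold hR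
          rw [Finset.mul_sum, Finset.sum_eq_single p]
          · rw [mul_smul_comm, hRG.mul, if_pos rfl]
          · intro q _ hq
            rw [mul_smul_comm, hRG.mul, if_neg (Ne.symm hq), smul_zero]
          · exact fun h => absurd hpS h
        have h3 : (p : ℂ) • (R p * e) = c • (R p * e) := by
          calc (p : ℂ) • (R p * e) = R p * (hR S' R * e) := by rw [← mul_assoc, h2, smul_mul_assoc]
            _ = c • (R p * e) := by rw [hc, mul_smul_comm]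
        have h4 : ((p : ℂ) - c) • (R p * e) = 0 := by rw [sub_smul, h3, sub_self]
        rcases smul_eq_zero.mp h4 with h5 | h5
        · exact absurd (sub_eq_zero.mp h5) hp
        · rw [← hRe, h5]
      · rw [hRG.supp p hpS, mul_zero]
    have h2 : a = 1 := by
      apply hgcd a
      intro p
      by_cases hp : (p : ℂ) = c
      · have h3 : e * R p = e := by
          calc e * R p = e * ∑ q ∈ S', R q := by
                rw [Finset.mul_sum]
                symm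
                by_cases hpS : p ∈ S'
                · refine Finset.sum_eq_single p ?_ (fun h => absurd hpS h)
                  intro q _ hq
                  apply h1
                  intro h
                  apply hq
                  have h4 : (q : ℂ) = p := by rw [h, hp]
                  exact_mod_cast h4
                · rw [hRG.supp p hpS, mul_zero]
                  refine Finset.sum_eq_zero fun q hq => ?_
                  apply h1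
                  intro h
                  have h4 : (q : ℂ) = p := by rw [h, hp]
                  have h5 : q = p := by exact_mod_cast h4
                  exact hpS (h5 ▸ hq)
            _ = e := by rw [hRG.sum, mul_one]
        rw [h3, hrk]
      · rw [h1 p hp, Matrix.rank_zero]
        exact dvd_zero a
    omega
  -- nor on `f`
  have hns' : ∀ c : ℂ, hR S' R * f ≠ c • f := by
    intro c hc
    have h1 : (V * hR S' R * W + (0 : ℂ) • (1 : Matrix (Fin a) (Fin a) ℂ),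
        V' * hR S' R * W' + (0 : ℂ) • (1 : Matrix (Fin b) (Fin b) ℂ)) ∈ PP (LG Γ) W V W' V' :=
      ⟨_, hmem, 0, 0, rfl⟩
    have h2 := (hg _ h1).2 ⟨c, by
      change V' * hR S' R * W' + (0 : ℂ) • (1 : Matrix (Fin b) (Fin b) ℂ) = c • 1
      rw [zero_smul, add_zero]
      calc V' * hR S' R * W' = V' * (hR S' R * f) * W' := by
            rw [← hWV']
            calc V' * hR S' R * W' = V' * hR S' R * W' * (V' * W') := by rw [hVW', Matrix.mul_one]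
              _ = _ := by simp only [Matrix.mul_assoc]
        _ = c • 1 := by
            rw [hc, Matrix.mul_smul, Matrix.smul_mul, Ve48 hVW' hWV', hVW']⟩
    obtain ⟨d, hd⟩ := h2
    change V * hR S' R * W + (0 : ℂ) • (1 : Matrix (Fin a) (Fin a) ℂ) = d • 1 at hd
    rw [zero_smul, add_zero] at hd
    apply hns d
    rw [xe48 hVW hWV (hLe _ hmem), hd, Matrix.mul_smul, Matrix.mul_one, Matrix.smul_mul, hWV]
  obtain ⟨c₁, E₁, Λ₁, ht₁, hsd₁⟩ := G.sd_blk H hRG he hVW hWV (by omega)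
  obtain ⟨c₂, E₂, Λ₂, ht₂, hsd₂⟩ := G.sd_blk H hRG hf hVW' hWV' (by omega)
  -- the pairs of trace zero
  have hbr := PP_br48 (L := LG Γ) (fun x hx y hy => LG_br48 hx hy) hVW hWV hVW' hWV' hLe hLf
  set P0 : Submodule ℂ (Matrix (Fin a) (Fin a) ℂ × Matrix (Fin b) (Fin b) ℂ) :=
    { carrier := {p | p ∈ PP (LG Γ) W V W' V' ∧ p.1.trace = 0 ∧ p.2.trace = 0}
      add_mem' := by
        rintro p q ⟨h1, h2, h3⟩ ⟨h1', h2', h3'⟩
        exact ⟨Submodule.add_mem _ h1 h1', by rw [Prod.fst_add, Matrix.trace_add, h2, h2', add_zero],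
          by rw [Prod.snd_add, Matrix.trace_add, h3, h3', add_zero]⟩
      zero_mem' := ⟨Submodule.zero_mem _, by simp, by simp⟩
      smul_mem' := by
        rintro c p ⟨h1, h2, h3⟩
        exact ⟨Submodule.smul_mem _ c h1, by rw [Prod.smul_fst, Matrix.trace_smul, h2, smul_zero],
          by rw [Prod.smul_snd, Matrix.trace_smul, h3, smul_zero]⟩ } with hP0
  have ha0 : (a : ℂ) ≠ 0 := by
    have : a ≠ 0 := by omega
    exact_mod_cast this
  have hb0 : (b : ℂ) ≠ 0 := by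
    have : b ≠ 0 := by omega
    exact_mod_cast this
  have hproj : ∀ x ∈ LG Γ, ∀ c d : ℂ, ∃ s t : ℂ, (V * x * W + c • (1 : Matrix (Fin a) (Fin a) ℂ) - s • 1,
      V' * x * W' + d • (1 : Matrix (Fin b) (Fin b) ℂ) - t • 1) ∈ P0 := by
    intro x hx c d
    refine ⟨(V * x * W + c • (1 : Matrix (Fin a) (Fin a) ℂ)).trace / a,
      (V' * x * W' + d • (1 : Matrix (Fin b) (Fin b) ℂ)).trace / b,
      ⟨x, hx, c - (V * x * W + c • (1 : Matrix (Fin a) (Fin a) ℂ)).trace / a,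
        d - (V' * x * W' + d • (1 : Matrix (Fin b) (Fin b) ℂ)).trace / b, ?_⟩, ?_, ?_⟩
    · rw [sub_smul, sub_smul, add_sub_assoc, add_sub_assoc]
    · change (V * x * W + c • (1 : Matrix (Fin a) (Fin a) ℂ) -
        ((V * x * W + c • (1 : Matrix (Fin a) (Fin a) ℂ)).trace / a) • (1 : Matrix (Fin a) (Fin a) ℂ)).trace = 0
      rw [Matrix.trace_sub, Matrix.trace_smul, Matrix.trace_one, Fintype.card_fin, smul_eq_mul, div_mul_cancel₀ _ ha0,
        sub_self]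
    · change (V' * x * W' + d • (1 : Matrix (Fin b) (Fin b) ℂ) -
        ((V' * x * W' + d • (1 : Matrix (Fin b) (Fin b) ℂ)).trace / b) • (1 : Matrix (Fin b) (Fin b) ℂ)).trace = 0
      rw [Matrix.trace_sub, Matrix.trace_smul, Matrix.trace_one, Fintype.card_fin, smul_eq_mul, div_mul_cancel₀ _ hb0,
        sub_self]
  have hne1 : Nonempty (Fin a) := ⟨⟨0, by omega⟩⟩
  have hne2 : Nonempty (Fin b) := ⟨⟨0, by omega⟩⟩
  have hscal0 : ∀ {r : ℕ}, (r : ℂ) ≠ 0 → ∀ {x : Matrix (Fin r) (Fin r) ℂ}, x.trace = 0 →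
      (∃ c : ℂ, x = c • (1 : Matrix (Fin r) (Fin r) ℂ)) → x = 0 := by
    rintro r hr x hx ⟨c, rfl⟩
    rw [Matrix.trace_smul, Matrix.trace_one, Fintype.card_fin, smul_eq_mul] at hx
    rcases mul_eq_zero.mp hx with h | h
    · rw [h, zero_smul]
    · exact absurd h hr
  obtain ⟨B₁, Bi₁, B₂, Bi₂, k1, k1', k2, k2', hh1, hh2, hst⟩ := exists_herm_pair P0
    (by
      rintro p ⟨h1, _, _⟩ q ⟨h1', _, _⟩
      refine ⟨hbr p h1 q h1', ?_, ?_⟩
      · rw [Prod.fst_sub, Prod.fst_mul, Prod.fst_mul, Matrix.trace_sub, Matrix.trace_mul_comm, sub_self]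
      · rw [Prod.snd_sub, Prod.snd_mul, Prod.snd_mul, Matrix.trace_sub, Matrix.trace_mul_comm, sub_self])
    (by
      intro U hU
      refine G.irr H he hVW hWV U ?_
      rintro _ ⟨x, hx, rfl⟩ u hu
      obtain ⟨s, t, hst⟩ := hproj x hx 0 0
      have h1 := hU _ hst u hu
      change (V * x * W + (0 : ℂ) • (1 : Matrix (Fin a) (Fin a) ℂ) - s • 1) *ᵥ u ∈ U at h1
      rw [zero_smul, add_zero, Matrix.sub_mulVec, Matrix.smul_mulVec, Matrix.one_mulVec] at h1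
      have h2 := U.add_mem h1 (U.smul_mem s hu)
      rwa [sub_add_cancel] at h2)
    (by
      intro U hU
      refine G.irr H hf hVW' hWV' U ?_
      rintro _ ⟨x, hx, rfl⟩ u hu
      obtain ⟨s, t, hst⟩ := hproj x hx 0 0
      have h1 := hU _ hst u hu
      change (V' * x * W' + (0 : ℂ) • (1 : Matrix (Fin b) (Fin b) ℂ) - t • 1) *ᵥ u ∈ U at h1
      rw [zero_smul, add_zero, Matrix.sub_mulVec, Matrix.smul_mulVec, Matrix.one_mulVec] at h1
      have h2 := U.add_mem h1 (U.smul_mem t hu)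
      rwa [sub_add_cancel] at h2)
    (fun p hp => hp.2.1)
    (fun p hp h0 => hscal0 hb0 hp.2.2 ((hg p hp.1).1 ⟨0, by rw [h0, zero_smul]⟩))
    (fun p hp h0 => hscal0 ha0 hp.2.1 ((hg p hp.1).2 ⟨0, by rw [h0, zero_smul]⟩))
    (h₁ := V * hR S' R * W - (c₁ : ℂ) • (1 : Matrix (Fin a) (Fin a) ℂ))
    (h₂ := V' * hR S' R * W' - (c₂ : ℂ) • (1 : Matrix (Fin b) (Fin b) ℂ))
    ⟨⟨hR S' R, hmem, -(c₁ : ℂ), -(c₂ : ℂ), by rw [neg_smul, neg_smul, ← sub_eq_add_neg, ← sub_eq_add_neg]⟩, ht₁, ht₂⟩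
    hsd₁ hsd₂
  -- the new coordinates
  have hVW1 : (B₁ * V) * (W * Bi₁) = 1 := by
    calc (B₁ * V) * (W * Bi₁) = B₁ * (V * W) * Bi₁ := by simp only [Matrix.mul_assoc]
      _ = 1 := by rw [hVW, Matrix.mul_one, k1]
  have hWV1 : (W * Bi₁) * (B₁ * V) = e := by
    calc (W * Bi₁) * (B₁ * V) = W * (Bi₁ * B₁) * V := by simp only [Matrix.mul_assoc]
      _ = e := by rw [k1', Matrix.mul_one, hWV]
  have hVW2 : (B₂ * V') * (W' * Bi₂) = 1 := by
    calc (B₂ * V') * (W' * Bi₂) = B₂ * (V' * W') * Bi₂ := by simp only [Matrix.mul_assoc]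
      _ = 1 := by rw [hVW', Matrix.mul_one, k2]
  have hWV2 : (W' * Bi₂) * (B₂ * V') = f := by
    calc (W' * Bi₂) * (B₂ * V') = W' * (Bi₂ * B₂) * V' := by simp only [Matrix.mul_assoc]
      _ = f := by rw [k2', Matrix.mul_one, hWV']
  set P1 := PP (LG Γ) (W * Bi₁) (B₁ * V) (W' * Bi₂) (B₂ * V') with hP1
  have hstar : ∀ p ∈ P1, (p.1ᴴ, p.2ᴴ) ∈ P1 := by
    intro p hp
    obtain ⟨q, hq, rfl⟩ := PP_of_cj48 k1 k2 hp
    obtain ⟨x, hx, c, d, rfl⟩ := hq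
    obtain ⟨s, t, hst0⟩ := hproj x hx c d
    obtain ⟨h1, _, _⟩ := hst _ hst0
    have h2 := PP_cj48 (B₁ := B₁) (Bi₁ := Bi₁) (B₂ := B₂) (Bi₂ := Bi₂) k1 k2 h1
    change (cj B₁ Bi₁ (cj Bi₁ B₁ _), cj B₂ Bi₂ (cj Bi₂ B₂ _)) ∈ P1 at h2
    rw [cj_cj k1, cj_cj k2] at h2
    have h3 : (star s • (1 : Matrix (Fin a) (Fin a) ℂ), star t • (1 : Matrix (Fin b) (Fin b) ℂ)) ∈ P1 :=
      ⟨0, Submodule.zero_mem _, star s, star t, by simp⟩
    have h4 := Submodule.add_mem _ h2 h3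
    have e1 : (((cj B₁ Bi₁ (V * x * W + c • (1 : Matrix (Fin a) (Fin a) ℂ)))ᴴ),
        ((cj B₂ Bi₂ (V' * x * W' + d • (1 : Matrix (Fin b) (Fin b) ℂ)))ᴴ)) =
        ((cj B₁ Bi₁ (V * x * W + c • (1 : Matrix (Fin a) (Fin a) ℂ) - s • 1))ᴴ,
          (cj B₂ Bi₂ (V' * x * W' + d • (1 : Matrix (Fin b) (Fin b) ℂ) - t • 1))ᴴ) +
          (star s • (1 : Matrix (Fin a) (Fin a) ℂ), star t • (1 : Matrix (Fin b) (Fin b) ℂ)) := by
      rw [Prod.mk_add_mk, cj_sub, cj_sub, cj_smul, cj_smul, cj_one k1, cj_one k2, Matrix.conjTranspose_sub,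
        Matrix.conjTranspose_sub, Matrix.conjTranspose_smul, Matrix.conjTranspose_smul, Matrix.conjTranspose_one,
        Matrix.conjTranspose_one, sub_add_cancel, sub_add_cancel]
    rw [← e1] at h4
    exact h4
  have hherm : ∀ {r : ℕ} {B Bi h : Matrix (Fin r) (Fin r) ℂ} {c : ℝ}, B * Bi = 1 →
      (cj B Bi (h - (c : ℂ) • (1 : Matrix (Fin r) (Fin r) ℂ)))ᴴ = cj B Bi (h - (c : ℂ) • 1) → (cj B Bi h)ᴴ = cj B Bi h := by
    intro r B Bi h c hB hh
    rw [cj_sub, cj_smul, cj_one hB, Matrix.conjTranspose_sub, Matrix.conjTranspose_smul, Matrix.conjTranspose_one,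
      Complex.star_def, Complex.conj_ofReal] at hh
    exact sub_left_injective hh
  obtain ⟨d₁, F₁, M₁, good₁⟩ := G.good H he hVW1 hWV1 ha hRG (hDom e he) hns (by
      intro y hy
      rw [← PP_fst48 (W' := W' * Bi₂) (V' := B₂ * V')] at hy ⊢
      obtain ⟨p, hp, rfl⟩ := hy
      exact ⟨_, hstar p hp, rfl⟩) (by
      rw [cj_cp48]
      exact hherm k1 hh1)
  obtain ⟨d₂, F₂, M₂, good₂⟩ := G.good H hf hVW2 hWV2 hb hRG (hDom f hf) hns' (by
      intro y hy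
      rw [← PP_snd48 (W := W * Bi₁) (V := B₁ * V)] at hy ⊢
      obtain ⟨p, hp, rfl⟩ := hy
      exact ⟨_, hstar p hp, rfl⟩) (by
      rw [cj_cp48]
      exact hherm k2 hh2)
  have D : PG P1 (B₁ * V * hR S' R * (W * Bi₁) - d₁ • (1 : Matrix (Fin a) (Fin a) ℂ)) F₁ M₁
      (B₂ * V' * hR S' R * (W' * Bi₂) - d₂ • (1 : Matrix (Fin b) (Fin b) ℂ)) F₂ M₂ :=
    { spec1 := good₁.gr.spec
      spec2 := good₂.gr.spec
      br := PP_br48 (fun x hx y hy => LG_br48 hx hy) hVW1 hWV1 hVW2 hWV2 hLe hLf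
      st := hstar
      mem := ⟨hR S' R, hmem, -d₁, -d₂, by rw [neg_smul, neg_smul, ← sub_eq_add_neg, ← sub_eq_add_neg]⟩
      one1 := ⟨0, Submodule.zero_mem _, 1, 0, by simp⟩
      one2 := ⟨0, Submodule.zero_mem _, 0, 1, by simp⟩ }
  rcases D.pair (Gra_cj48 k1 k1' k2 k2' hg) (by rw [hP1, PP_fst48]; exact good₁) (by rw [hP1, PP_snd48]; exact good₂)
    with h | h
  · exact Or.inl (LinkT_cj48 k1 k1' k2 k2' h)
  · exact Or.inr (LinkF_cj48 k1 k1' k2 k2' h)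

/-- **C**: pairs of blocks -/
theorem IsGalW.pair (he : IsBlk P e) (hf : IsBlk P f)
    (hVW : V * W = 1) (hWV : W * V = e) (hVW' : V' * W' = 1) (hWV' : W' * V' = f) (ha : 2 ≤ a) (hb : 2 ≤ b)
    (hg : Gra (PP (LG Γ) W V W' V')) : LinkT (PP (LG Γ) W V W' V') ∨ LinkF (PP (LG Γ) W V W' V') := by
  rcases eq_or_lt_of_le ha with h | ha3
  · subst h
    exact Or.inl (G.pair2 H he hf hVW hWV hVW' hWV' hb hg)
  rcases eq_or_lt_of_le hb with h | hb3
  · subst h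
    left
    have hg' : Gra (PP (LG Γ) W' V' W V) := by
      rintro _ ⟨x, hx, c, d, rfl⟩
      exact (hg _ ⟨x, hx, d, c, rfl⟩).symm
    obtain ⟨T, hT0, hT⟩ := G.pair2 H hf he hVW' hWV' hVW hWV ha hg'
    obtain ⟨s, hs, hs'⟩ := schur_inv48 (K := (PP (LG Γ) W' V' W V : Set _)) (by
        intro U hU
        refine G.irr H hf hVW' hWV' U ?_
        rintro _ ⟨x, hx, rfl⟩ u hu
        have h1 := hU (V' * x * W' + (0 : ℂ) • 1, V * x * W + (0 : ℂ) • 1) ⟨x, hx, 0, 0, rfl⟩ u hu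
        change (V' * x * W' + (0 : ℂ) • 1) *ᵥ u ∈ U at h1
        rwa [zero_smul, add_zero] at h1) (by
        intro U hU
        refine G.irr H he hVW hWV U ?_
        rintro _ ⟨x, hx, rfl⟩ u hu
        have h1 := hU (V' * x * W' + (0 : ℂ) • 1, V * x * W + (0 : ℂ) • 1) ⟨x, hx, 0, 0, rfl⟩ u hu
        change (V * x * W + (0 : ℂ) • 1) *ᵥ u ∈ U at h1
        rwa [zero_smul, add_zero] at h1) hT hT0
    refine ⟨s, ?_, ?_⟩
    · intro h
      rw [h, Matrix.zero_mul] at hs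
      have h1 := congrFun (congrFun hs 0) 0
      simp at h1
    · rintro _ ⟨x, hx, c, d, rfl⟩
      obtain ⟨z, hz⟩ := hT _ ⟨x, hx, d, c, rfl⟩
      refine ⟨-z, ?_⟩
      change (V * x * W + c • 1) * T - T * (V' * x * W' + d • 1) = z • T at hz
      change (V' * x * W' + d • 1) * s - s * (V * x * W + c • 1) = -z • s
      have h1 := congrArg (fun y => s * y * s) hz
      simp only [Matrix.mul_sub, Matrix.sub_mul, Matrix.mul_smul, Matrix.smul_mul] at h1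
      have e1 : s * ((V * x * W + c • 1) * T) * s = s * (V * x * W + c • 1) := by
        calc s * ((V * x * W + c • 1) * T) * s = s * (V * x * W + c • 1) * (T * s) := by simp only [Matrix.mul_assoc]
          _ = _ := by rw [hs', Matrix.mul_one]
      have e2 : s * (T * (V' * x * W' + d • 1)) * s = (V' * x * W' + d • 1) * s := by
        calc s * (T * (V' * x * W' + d • 1)) * s = (s * T) * (V' * x * W' + d • 1) * s := by
              simp only [Matrix.mul_assoc]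
          _ = _ := by rw [hs, Matrix.one_mul]
      have e3 : s * T * s = s := by rw [hs, Matrix.one_mul]
      rw [e1, e2, e3] at h1
      rw [neg_smul, ← h1, neg_sub]
  · exact G.pair3 H he hf hVW hWV hVW' hWV' (by omega) (by omega) hg

end pr

end MH
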