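import Pool.Agent.Helper48.GH.GalE2
import Pool.Agent.Helper48.GH.GalC

/-!
Project GH, l-adic side: an operator with all the symmetries is in `LG`, and the tensors fixed by subgroups of finite
index of `Γ` are fixed by the group `InD`.
-/

set_option linter.unusedSectionVars false

open Matrix GH

namespace MH

variable {n : Type*} [Fintype n] [DecidableEq n]
variable {w : ℤ} {Q : Matrix n n ℚ} {S : Finset ℤ} {P : ℤ → Matrix n n ℂ} {Γ : Subgroup (GL n ℂ)}

theorem Sem.cell48 {L : Submodule ℂ (Matrix n n ℂ)} {T e f : Matrix n n ℂ} (hT : Sem L T)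
    (he : ∀ y ∈ L, y * e = e * y) (hf : ∀ y ∈ L, y * f = f * y) : Sem L (f * T * e) := by
  intro y hy
  obtain ⟨c, hc⟩ := hT y hy
  refine ⟨c, ?_⟩
  calc y * (f * T * e) - f * T * e * y = f * (y * T - T * y) * e := by
        rw [Matrix.mul_assoc (f * T), ← he y hy, mul_sub, sub_mul]
        have h1 : y * (f * T * e) = f * (y * T) * e := by
          rw [← Matrix.mul_assoc, ← Matrix.mul_assoc, hf y hy]; simp only [Matrix.mul_assoc]
        rw [h1]
        simp only [Matrix.mul_assoc]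
    _ = c • (f * T * e) := by rw [hc, mul_smul_comm, smul_mul_assoc]

theorem smul_of_com48 {L : Submodule ℂ (Matrix n n ℂ)} {T : Matrix n n ℂ} (h : ∀ y ∈ L, y * T = T * y) : Sem L T :=
  fun y hy => ⟨0, by rw [h y hy, sub_self, zero_smul]⟩

section glue

variable (H : IsHW w Q S P) (G : IsGalW w Q S P Γ)
include H G

/-- if the pairs of the brackets are a graph, so are the pairs of `LG` -/
theorem IsGalW.gra_brk {e f : Matrix n n ℂ} (he : IsBlk P e) (hf : IsBlk P f) {a b : ℕ} {W : Matrix n (Fin a) ℂ}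
    {V : Matrix (Fin a) n ℂ} {W' : Matrix n (Fin b) ℂ} {V' : Matrix (Fin b) n ℂ} (hVW : V * W = 1) (hWV : W * V = e)
    (hVW' : V' * W' = 1) (hWV' : W' * V' = f) (hb : 2 ≤ b) (hg : ∀ z ∈ brk (LG Γ), V * z * W = 0 → V' * z * W' = 0)
    {x : Matrix n n ℂ} (hx : x ∈ LG Γ) {c : ℂ} (hc : V * x * W = c • (1 : Matrix (Fin a) (Fin a) ℂ)) :
    ∃ d : ℂ, V' * x * W' = d • (1 : Matrix (Fin b) (Fin b) ℂ) := by
  have hxe := G.LG_EC hx he.mem
  have hxf := G.LG_EC hx hf.mem
  refine schur_one48 (K := {p : Matrix (Fin b) (Fin b) ℂ | ∃ y ∈ brk (LG Γ), p = V' * y * W'}) (by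
      intro U hU
      refine G.irr_brk H hf hVW' hWV' U ?_
      intro y hy u hu
      exact hU _ ⟨y, hy, rfl⟩ u hu) ?_
  rintro _ ⟨y, hy, rfl⟩
  have hye := G.LG_EC (LG_brk_le48 hy) he.mem
  have hyf := G.LG_EC (LG_brk_le48 hy) hf.mem
  have h1 : y * x - x * y ∈ brk (LG Γ) := br_mem62 (LG_brk_le48 hy) hx
  have h2 : V * (y * x - x * y) * W = 0 := by
    rw [Matrix.mul_sub, Matrix.sub_mul, ← cmul48 hVW hWV hxe, ← cmul48 hVW hWV hye, hc, Matrix.mul_smul,
      Matrix.mul_one, Matrix.smul_mul, Matrix.one_mul, sub_self]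
  have h3 := hg _ h1 h2
  rw [Matrix.mul_sub, Matrix.sub_mul, ← cmul48 hVW' hWV' hxf, ← cmul48 hVW' hWV' hyf] at h3
  exact sub_eq_zero.mp h3

/-- **GLUE-X.** -/
theorem IsGalW.glueX {X : Matrix n n ℂ} (h1 : ∀ T, SI S P T → X * T = T * X) (h2 : Xᵀ * toC Q + toC Q * X = 0)
    (h3 : ∀ e, IsBlk P e → (X * e).trace = 0) : X ∈ LG Γ := by
  classical
  obtain ⟨ι, i1, i2, e, hblk, horth, hsum⟩ := H.exists_blk
  choose r W V hVW hWV using fun i => exists_coord48 (hblk i).idem
  have hcomL : ∀ i, ∀ y ∈ brk (LG Γ), y * e i = e i * y := fun i y hy => G.LG_EC (LG_brk_le48 hy) (hblk i).mem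
  have D : FD (brk (LG Γ)) e r W V :=
    { vw := hVW
      wv := hWV
      orth := horth
      sum := hsum
      com := hcomL
      min := fun i x hx => G.com_min H (hblk i) (fun y hy => (hx y hy)) }
  have hXe : ∀ i, X * e i = e i * X := by
    intro i
    apply h1
    intro g hg
    exact ⟨1, by rw [one_smul]; exact H.MT_EC hg (hblk i).mem⟩
  -- `X` commutes with the semi-invariants
  have hsem : ∀ T, Sem (brk (LG Γ)) T → X * T = T * X := by
    intro T hT
    have hexp : T = ∑ i, ∑ j, e i * T * e j := by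
      calc T = (∑ i, e i) * T * (∑ j, e j) := by rw [hsum, one_mul, mul_one]
        _ = _ := by
            rw [Finset.sum_mul, Finset.sum_mul]
            refine Finset.sum_congr rfl fun i _ => ?_
            rw [Finset.mul_sum]
    rw [hexp, Finset.mul_sum, Finset.sum_mul]
    refine Finset.sum_congr rfl fun i _ => ?_
    rw [Finset.mul_sum, Finset.sum_mul]
    refine Finset.sum_congr rfl fun j _ => ?_
    apply h1
    refine G.cell_SI H (hblk j) (hblk i) ?_ ?_ (Sem.cell48 hT (hcomL j) (hcomL i))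
    · rw [← mul_assoc, ← mul_assoc, (hblk i).idem]
    · rw [mul_assoc, (hblk j).idem]
  -- traces
  have htr : ∀ f : Matrix n n ℂ, (∀ x ∈ brk (LG Γ), x * f = f * x) → f * f = f → (X * f).trace = 0 := by
    intro f hf _
    have hexp : X * f = ∑ i, X * e i * f := by
      rw [← Finset.sum_mul, ← Finset.mul_sum, hsum, mul_one]
    rw [hexp, Matrix.trace_sum]
    refine Finset.sum_eq_zero fun i _ => ?_
    obtain ⟨c, hc⟩ := G.com_min H (hblk i) (x := f) (fun y hy => (hf y hy).symm)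
    have h4 : X * e i * f = e i * (X * (e i * f)) := by
      calc X * e i * f = X * (e i * e i) * f := by rw [(hblk i).idem]
        _ = (X * e i) * (e i * f) := by simp only [mul_assoc]
        _ = e i * (X * (e i * f)) := by rw [hXe, mul_assoc]
    rw [h4, Matrix.trace_mul_comm, mul_assoc, hc, mul_smul_comm, Matrix.trace_smul, h3 _ (hblk i), smul_zero]
  refine LG_brk_le48 (FD.glue' (brk_br48 (fun _ hx _ hy => LG_br48 hx hy)) D ?_ (Q := toC Q)
    (fun x hx => G.brk_skew H hx) ?_ ?_ ?_ hsem h2 htr)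
  · intro T hT j hj
    exact G.hinv H (hblk j) hT hj
  · obtain ⟨_, _, Qi, _, _, hQ1, hQ2, _⟩ := H.exists_basis
    exact ⟨⟨toC Q, Qi, hQ1, hQ2⟩, rfl⟩
  · intro i hi
    have h4 : cpL (W i) (V i) (brk (LG Γ) ⊔ Submodule.span ℂ {1}) = cpS (W i) (V i) (brk (LG Γ)) := by
      ext y
      rw [mem_cpS48]
      constructor
      · rintro ⟨x, hx, rfl⟩
        obtain ⟨x0, hx0, x1, hx1, rfl⟩ := Submodule.mem_sup.mp hx
        obtain ⟨c, rfl⟩ := Submodule.mem_span_singleton.mp hx1
        refine ⟨x0, hx0, c, ?_⟩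
        rw [Matrix.mul_add, Matrix.add_mul, Matrix.mul_smul, Matrix.mul_one, Matrix.smul_mul, hVW i]
      · rintro ⟨x, hx, c, rfl⟩
        refine ⟨x + c • 1, Submodule.add_mem_sup hx (Submodule.smul_mem _ c (Submodule.mem_span_singleton_self 1)), ?_⟩
        rw [Matrix.mul_add, Matrix.add_mul, Matrix.mul_smul, Matrix.mul_one, Matrix.smul_mul, hVW i]
    rw [h4, G.cpS_brk H (hblk i) (hVW i) (hWV i)]
    exact G.ty H (hblk i) (hVW i) (hWV i) hi
  · intro i j hij hi hj
    refine FD.of_pair D hij ?_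
    intro hg
    have hle : PP (brk (LG Γ)) (W i) (V i) (W j) (V j) ≤ PP (LG Γ) (W i) (V i) (W j) (V j) := by
      rintro _ ⟨x, hx, c, d, rfl⟩
      exact ⟨x, LG_brk_le48 hx, c, d, rfl⟩
    have hg' : Gra (PP (LG Γ) (W i) (V i) (W j) (V j)) := by
      have key : ∀ z ∈ brk (LG Γ), (V i * z * W i = 0 → V j * z * W j = 0) ∧ (V j * z * W j = 0 → V i * z * W i = 0) := by
        intro z hz
        have h4 : (V i * z * W i + (0 : ℂ) • (1 : Matrix (Fin (r i)) (Fin (r i)) ℂ),
            V j * z * W j + (0 : ℂ) • (1 : Matrix (Fin (r j)) (Fin (r j)) ℂ)) ∈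
            PP (brk (LG Γ)) (W i) (V i) (W j) (V j) := ⟨z, hz, 0, 0, rfl⟩
        have h5 := hg _ h4
        simp only [zero_smul, add_zero] at h5
        have t1 : ∀ i, (V i * z * W i).trace = 0 := by
          intro i
          rw [Matrix.mul_assoc, Matrix.trace_mul_comm, Matrix.mul_assoc, hWV i]
          exact brk_trace48 (fun x hx => G.LG_EC hx (hblk i).mem) hz
        have t2 : ∀ i, 2 ≤ r i → (∃ c : ℂ, V i * z * W i = c • (1 : Matrix (Fin (r i)) (Fin (r i)) ℂ)) →
            V i * z * W i = 0 := by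
          rintro i hi ⟨c, hc⟩
          have h6 := t1 i
          rw [hc, Matrix.trace_smul, Matrix.trace_one, Fintype.card_fin, smul_eq_mul] at h6
          have h7 : (r i : ℂ) ≠ 0 := by
            have : r i ≠ 0 := by omega
            exact_mod_cast this
          have h8 : c = 0 := by
            rcases mul_eq_zero.mp h6 with h | h
            · exact h
            · exact absurd h h7
          rw [hc, h8, zero_smul]
        constructor
        · intro h6
          exact t2 j hj (h5.1 ⟨0, by rw [h6, zero_smul]⟩)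
        · intro h6
          exact t2 i hi (h5.2 ⟨0, by rw [h6, zero_smul]⟩)
      rintro _ ⟨x, hx, c, d, rfl⟩
      constructor
      · rintro ⟨s, hs⟩
        change V i * x * W i + c • (1 : Matrix (Fin (r i)) (Fin (r i)) ℂ) = s • 1 at hs
        have hs' : V i * x * W i = (s - c) • (1 : Matrix (Fin (r i)) (Fin (r i)) ℂ) := by
          rw [sub_smul, ← hs]; abel
        obtain ⟨t, ht⟩ := G.gra_brk H (hblk i) (hblk j) (hVW i) (hWV i) (hVW j) (hWV j) hj
          (fun z hz => (key z hz).1) hx hs'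
        exact ⟨t + d, by rw [add_smul, ← ht]⟩
      · rintro ⟨s, hs⟩
        change V j * x * W j + d • (1 : Matrix (Fin (r j)) (Fin (r j)) ℂ) = s • 1 at hs
        have hs' : V j * x * W j = (s - d) • (1 : Matrix (Fin (r j)) (Fin (r j)) ℂ) := by
          rw [sub_smul, ← hs]; abel
        obtain ⟨t, ht⟩ := G.gra_brk H (hblk j) (hblk i) (hVW j) (hWV j) (hVW i) (hWV i) hi
          (fun z hz => (key z hz).2) hx hs'
        exact ⟨t + c, by rw [add_smul, ← ht]⟩
    rcases G.pair H (hblk i) (hblk j) (hVW i) (hWV i) (hVW j) (hWV j) hi hj hg' with ⟨T, hT0, hT⟩ | ⟨F, hF0, hF⟩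
    · exact Or.inl ⟨T, hT0, fun p hp => hT p (hle hp)⟩
    · exact Or.inr ⟨F, hF0, fun p hp => hF p (hle hp)⟩

/-- **E**: the tensors fixed by subgroups of finite index of `Γ` are fixed by the group `InD` -/
theorem IsGalW.tate_fix {a b : ℕ} {t : (Fin a ⊕ Fin b → n) → ℂ}
    (ht : IsTateTensor Γ a b t) {g : GL n ℂ} (hg : InD Q S P (g : Matrix n n ℂ)) :
    actF (slot a b (g : Matrix n n ℂ) ((g⁻¹ : GL n ℂ) : Matrix n n ℂ)) t = t := by
  obtain ⟨B, Bi, Qi, h1, h2, h3, h4, hM⟩ := H.exists_basis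
  obtain ⟨g1, g2, g3⟩ := hg
  have hblkI : ∀ e, IrrL (LH Q S P : Set (Matrix n n ℂ)) e → IsBlk P e := by
    intro e he
    refine ⟨H.EC_of_LH (fun X hX => (he.mem X hX).symm), he.idem, he.ne, fun x hx => ?_⟩
    exact he.min x (fun X hX => H.LH_EC hX hx)
  refine D_fix (L := (LH Q S P : Set (Matrix n n ℂ))) (Q := toC Q) h1 h2 ?_ (fun X hX => hX.1) ?_ ?_ ?_ g2 ?_
  · intro X hX
    have h5 : cj B Bi X ∈ LB Q S P B Bi := by
      rw [mem_LB, cj_cj h2]
      exact hX
    exact mem_LB.1 (H.LB_star h1 h2 hM h5)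
  · intro h
    have h5 := congrArg Matrix.det h3
    rw [Matrix.det_mul, h, zero_mul, Matrix.det_one] at h5
    exact zero_ne_one h5
  · intro X hX1 hX2 hX3
    refine G.glueX H (X := X) ?_ hX2 ?_ a b t ht
    · intro T hT
      exact hX1 T (H.SI_iff_LH.1 hT)
    · intro e he
      exact hX3 e (fun Y hY => H.LH_EC hY he.mem)
  · intro T hT
    exact g1 T (H.SI_iff_LH.2 hT)
  · intro e he
    exact g3 e (hblkI e he)

end glue

end MH
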