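import Pool.Agent.Helper14.GH.DefsW
import Pool.Agent.Helper43.GH.Defs2
import Pool.Agent.Helper2.EL.Defs

/-!
Project GH (MP_b8862a_ag), l-adic side: definitions. After an isomorphism of `ℂ_ℓ` with `ℂ` the Galois group acts through a
subgroup `Γ` of `GL n ℂ`.
-/

set_option linter.unusedSectionVars false

open Matrix

namespace MH

variable {n : Type*} [Fintype n] [DecidableEq n]

/-- A Hodge-Tate decomposition for the group `Γ`: all tensors fixed by subgroups of finite index have weight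
zero, and the form `Q` has weight `w`. -/
structure IsHTw (w : ℤ) (Q : Matrix n n ℚ) (S : Finset ℤ) (Γ : Subgroup (GL n ℂ)) (R : ℤ → Matrix n n ℂ) :
    Prop where
  mul : ∀ p q, R p * R q = if p = q then R p else 0
  supp : ∀ p, p ∉ S → R p = 0
  sum : ∑ p ∈ S, R p = 1
  orth : ∀ p q, p + q ≠ w → (R p)ᵀ * toC Q * R q = 0
  ht : ∀ a b t, IsTateTensor Γ a b t → ∀ z : ℂ, z ≠ 0 →
    actF (slot a b (∑ p ∈ S, z ^ p • R p) (∑ p ∈ S, z⁻¹ ^ p • R p)) t = t

/-- The condition on a block for the Hodge-Tate decomposition `R`. -/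
def DomR (w : ℤ) (Q : Matrix n n ℚ) (P : ℤ → Matrix n n ℂ) (S : Finset ℤ) (R : ℤ → Matrix n n ℂ)
    (e : Matrix n n ℂ) : Prop :=
  DomG R e ∨ ∃ m, w = 2 * m ∧ OrthB Q P e ∧ DomM m S R e

/-- The `ℓ`-adic data: `Γ` consists of similitudes, its subgroups of finite index are semisimple, some of them commute
with the endomorphisms of the Hodge structure, everything that commutes with one of them is in the span of the
endomorphisms, everything that spans a line stable under one of them spans a line stable under the Mumford-Tate group; and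
for every block of rank at least two there is a Hodge-Tate decomposition whose numbers on this block have no common
divisor and for which all blocks satisfy the condition. -/
structure IsGalW (w : ℤ) (Q : Matrix n n ℚ) (S : Finset ℤ) (P : ℤ → Matrix n n ℂ) (Γ : Subgroup (GL n ℂ)) : Prop where
  sim : ∀ g ∈ Γ, ∃ c : ℂ, (g : Matrix n n ℂ)ᵀ * toC Q * (g : Matrix n n ℂ) = c • toC Q
  ss : ∀ Γ' : Subgroup (GL n ℂ), Γ' ≤ Γ → Γ'.relIndex Γ ≠ 0 → ∀ W : Submodule ℂ (n → ℂ),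
    (∀ g ∈ Γ', ∀ w ∈ W, (g : Matrix n n ℂ) *ᵥ w ∈ W) →
    ∃ W' : Submodule ℂ (n → ℂ), (∀ g ∈ Γ', ∀ w ∈ W', (g : Matrix n n ℂ) *ᵥ w ∈ W') ∧ IsCompl W W'
  comm : ∃ Γ' : Subgroup (GL n ℂ), Γ' ≤ Γ ∧ Γ'.relIndex Γ ≠ 0 ∧ ∀ g ∈ Γ', ∀ x ∈ EC P,
    (g : Matrix n n ℂ) * x = x * (g : Matrix n n ℂ)
  cent : ∀ Γ' : Subgroup (GL n ℂ), Γ' ≤ Γ → Γ'.relIndex Γ ≠ 0 → ∀ T : Matrix n n ℂ,
    (∀ g ∈ Γ', (g : Matrix n n ℂ) * T = T * (g : Matrix n n ℂ)) → T ∈ EC P
  semi : ∀ Γ' : Subgroup (GL n ℂ), Γ' ≤ Γ → Γ'.relIndex Γ ≠ 0 → ∀ T : Matrix n n ℂ,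
    (∀ g ∈ Γ', ∃ c : ℂ, (g : Matrix n n ℂ) * T = c • (T * (g : Matrix n n ℂ))) → SI S P T
  touch : ∀ e, IsBlk P e → e.rank ≠ 1 → ∃ (S' : Finset ℤ) (R : ℤ → Matrix n n ℂ), IsHTw w Q S' Γ R ∧
    (∀ d : ℕ, (∀ p, d ∣ (e * R p).rank) → d = 1) ∧ ∀ f, IsBlk P f → DomR w Q P S' R f

/-- the Hodge-Tate element -/
noncomputable def hR (S : Finset ℤ) (R : ℤ → Matrix n n ℂ) : Matrix n n ℂ := ∑ p ∈ S, (p : ℂ) • R p

/-- the compression to a block, with the scalars -/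
noncomputable def cpS {k : Type*} [Fintype k] [DecidableEq k] (W : Matrix n k ℂ) (V : Matrix k n ℂ)
    (L : Submodule ℂ (Matrix n n ℂ)) : Submodule ℂ (Matrix k k ℂ) :=
  cpL W V L ⊔ Submodule.span ℂ {1}

end MH
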