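import Pool.Agent.Helper43.GH.Defs2

/-!
Project GH: Schur's lemma for pairs of matrices, up to scalars.
-/

set_option linter.unusedSectionVars false

open Matrix

namespace GH

section schur

variable {a b : ℕ} {K : Set (Matrix (Fin a) (Fin a) ℂ × Matrix (Fin b) (Fin b) ℂ)}

/-- a matrix with trivial kernel has a left inverse -/
theorem exists_left48 {k m : Type*} [Fintype k] [DecidableEq k] [Fintype m] [DecidableEq m] (t : Matrix m k ℂ)
    (h : ∀ u : k → ℂ, t *ᵥ u = 0 → u = 0) : ∃ s : Matrix k m ℂ, s * t = 1 := by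
  have h1 : LinearMap.ker (Matrix.toLin' t) = ⊥ := by
    rw [LinearMap.ker_eq_bot']
    intro u hu
    exact h u (by simpa using hu)
  obtain ⟨g, hg⟩ := LinearMap.exists_leftInverse_of_injective _ h1
  refine ⟨LinearMap.toMatrix' g, ?_⟩
  have h2 : LinearMap.toMatrix' (g ∘ₗ Matrix.toLin' t) = 1 := by rw [hg, LinearMap.toMatrix'_id]
  rw [LinearMap.toMatrix'_comp, LinearMap.toMatrix'_toLin'] at h2
  exact h2

/-- a surjective matrix has a right inverse -/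
theorem exists_right48 {k m : Type*} [Fintype k] [DecidableEq k] [Fintype m] [DecidableEq m] (t : Matrix m k ℂ)
    (h : ∀ v : m → ℂ, ∃ u : k → ℂ, t *ᵥ u = v) : ∃ s : Matrix k m ℂ, t * s = 1 := by
  have h1 : LinearMap.range (Matrix.toLin' t) = ⊤ := by
    rw [LinearMap.range_eq_top]
    intro v
    obtain ⟨u, hu⟩ := h v
    exact ⟨u, by simpa using hu⟩
  obtain ⟨g, hg⟩ := LinearMap.exists_rightInverse_of_surjective _ h1
  refine ⟨LinearMap.toMatrix' g, ?_⟩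
  have h2 : LinearMap.toMatrix' (Matrix.toLin' t ∘ₗ g) = 1 := by rw [hg, LinearMap.toMatrix'_id]
  rw [LinearMap.toMatrix'_comp, LinearMap.toMatrix'_toLin'] at h2
  exact h2

theorem ker_inj48 (i1 : ∀ U : Submodule ℂ (Fin a → ℂ), (∀ p ∈ K, ∀ u ∈ U, p.1 *ᵥ u ∈ U) → U = ⊥ ∨ U = ⊤)
    {m : Type*} [Fintype m] [DecidableEq m] {t : Matrix m (Fin a) ℂ} (h0 : t ≠ 0)
    (ht : ∀ p ∈ K, ∃ z : Matrix m m ℂ, t * p.1 = z * t) : ∀ u : Fin a → ℂ, t *ᵥ u = 0 → u = 0 := by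
  have h1 := i1 (LinearMap.ker (Matrix.toLin' t)) (by
    intro p hp u hu
    obtain ⟨z, hz⟩ := ht p hp
    rw [LinearMap.mem_ker, Matrix.toLin'_apply] at hu ⊢
    rw [Matrix.mulVec_mulVec, hz, ← Matrix.mulVec_mulVec, hu, Matrix.mulVec_zero])
  rcases h1 with h1 | h1
  · intro u hu
    have h2 : u ∈ LinearMap.ker (Matrix.toLin' t) := by
      rw [LinearMap.mem_ker, Matrix.toLin'_apply]
      exact hu
    rw [h1, Submodule.mem_bot] at h2
    exact h2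
  · exfalso
    apply h0
    have h2 : Matrix.toLin' t = 0 := LinearMap.ker_eq_top.mp h1
    have h3 : LinearMap.toMatrix' (Matrix.toLin' t) = 0 := by rw [h2, map_zero]
    rwa [LinearMap.toMatrix'_toLin'] at h3

theorem rng_surj48 (i2 : ∀ U : Submodule ℂ (Fin b → ℂ), (∀ p ∈ K, ∀ u ∈ U, p.2 *ᵥ u ∈ U) → U = ⊥ ∨ U = ⊤)
    {m : Type*} [Fintype m] [DecidableEq m] {t : Matrix (Fin b) m ℂ} (h0 : t ≠ 0)
    (ht : ∀ p ∈ K, ∃ z : Matrix m m ℂ, p.2 * t = t * z) : ∀ v : Fin b → ℂ, ∃ u : m → ℂ, t *ᵥ u = v := by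
  have h1 := i2 (LinearMap.range (Matrix.toLin' t)) (by
    rintro p hp _ ⟨u, rfl⟩
    obtain ⟨z, hz⟩ := ht p hp
    refine ⟨z *ᵥ u, ?_⟩
    rw [Matrix.toLin'_apply, Matrix.toLin'_apply, Matrix.mulVec_mulVec, Matrix.mulVec_mulVec, hz])
  rcases h1 with h1 | h1
  · exfalso
    apply h0
    have h2 : Matrix.toLin' t = 0 := LinearMap.range_eq_bot.mp h1
    have h3 : LinearMap.toMatrix' (Matrix.toLin' t) = 0 := by rw [h2, map_zero]
    rwa [LinearMap.toMatrix'_toLin'] at h3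
  · intro v
    have h2 : v ∈ LinearMap.range (Matrix.toLin' t) := by rw [h1]; exact Submodule.mem_top
    obtain ⟨u, hu⟩ := h2
    exact ⟨u, by simpa using hu⟩

/-- **Schur's lemma**: an operator that intertwines two irreducible families up to scalars is zero or invertible -/
theorem schur_inv48 (i1 : ∀ U : Submodule ℂ (Fin a → ℂ), (∀ p ∈ K, ∀ u ∈ U, p.1 *ᵥ u ∈ U) → U = ⊥ ∨ U = ⊤)
    (i2 : ∀ U : Submodule ℂ (Fin b → ℂ), (∀ p ∈ K, ∀ u ∈ U, p.2 *ᵥ u ∈ U) → U = ⊥ ∨ U = ⊤)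
    {t : Matrix (Fin b) (Fin a) ℂ} (ht : ∀ p ∈ K, ∃ c : ℂ, p.2 * t - t * p.1 = c • t) (h0 : t ≠ 0) :
    ∃ s : Matrix (Fin a) (Fin b) ℂ, s * t = 1 ∧ t * s = 1 := by
  obtain ⟨s, hs⟩ := exists_left48 t (ker_inj48 i1 h0 (fun p hp => by
    obtain ⟨c, hc⟩ := ht p hp
    refine ⟨p.2 - c • 1, ?_⟩
    rw [Matrix.sub_mul, Matrix.smul_mul, Matrix.one_mul, ← hc]
    abel))
  obtain ⟨s', hs'⟩ := exists_right48 t (rng_surj48 i2 h0 (fun p hp => by
    obtain ⟨c, hc⟩ := ht p hp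
    refine ⟨p.1 + c • 1, ?_⟩
    rw [Matrix.mul_add, Matrix.mul_smul, Matrix.mul_one, ← hc]
    abel))
  have h1 : s = s' := by
    calc s = s * (t * s') := by rw [hs', Matrix.mul_one]
      _ = s * t * s' := by rw [Matrix.mul_assoc]
      _ = s' := by rw [hs, Matrix.one_mul]
  exact ⟨s, hs, by rw [h1, hs']⟩

/-- for matrices of trace zero the scalars vanish -/
theorem schur_zero48 (i1 : ∀ U : Submodule ℂ (Fin a → ℂ), (∀ p ∈ K, ∀ u ∈ U, p.1 *ᵥ u ∈ U) → U = ⊥ ∨ U = ⊤)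
    (i2 : ∀ U : Submodule ℂ (Fin b → ℂ), (∀ p ∈ K, ∀ u ∈ U, p.2 *ᵥ u ∈ U) → U = ⊥ ∨ U = ⊤)
    {t : Matrix (Fin b) (Fin a) ℂ} (ht : ∀ p ∈ K, ∃ c : ℂ, p.2 * t - t * p.1 = c • t)
    (tr1 : ∀ p ∈ K, p.1.trace = 0) (tr2 : ∀ p ∈ K, p.2.trace = 0) : ∀ p ∈ K, p.2 * t = t * p.1 := by
  intro p hp
  by_cases h0 : t = 0
  · rw [h0, Matrix.mul_zero, Matrix.zero_mul]
  obtain ⟨s, hs, hs'⟩ := schur_inv48 i1 i2 ht h0
  obtain ⟨c, hc⟩ := ht p hp
  have h1 : p.2 - t * (p.1 * s) = c • (1 : Matrix (Fin b) (Fin b) ℂ) := by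
    calc p.2 - t * (p.1 * s) = (p.2 * t - t * p.1) * s := by
          rw [Matrix.sub_mul, Matrix.mul_assoc p.2, hs', Matrix.mul_one, Matrix.mul_assoc t]
      _ = c • (t * s) := by rw [hc, Matrix.smul_mul]
      _ = c • (1 : Matrix (Fin b) (Fin b) ℂ) := by rw [hs']
  have h2 := congrArg Matrix.trace h1
  rw [Matrix.trace_sub, tr2 p hp, Matrix.trace_mul_comm, Matrix.mul_assoc, hs, Matrix.mul_one, tr1 p hp, sub_zero,
    Matrix.trace_smul, Matrix.trace_one, smul_eq_mul] at h2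
  have h3 : (Fintype.card (Fin b) : ℂ) ≠ 0 := by
    intro h
    have h4 : Fintype.card (Fin b) = 0 := by exact_mod_cast h
    rw [Fintype.card_fin] at h4
    subst h4
    exact h0 (by ext i; exact i.elim0)
  have h5 : c = 0 := by
    rcases mul_eq_zero.mp h2.symm with h | h
    · exact h
    · exact absurd h h3
  rw [h5, zero_smul] at hc
  exact sub_eq_zero.mp hc

/-- Schur's lemma for one family -/
theorem schur_one48 {K : Set (Matrix (Fin a) (Fin a) ℂ)}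
    (i1 : ∀ U : Submodule ℂ (Fin a → ℂ), (∀ p ∈ K, ∀ u ∈ U, p *ᵥ u ∈ U) → U = ⊥ ∨ U = ⊤)
    {t : Matrix (Fin a) (Fin a) ℂ} (ht : ∀ p ∈ K, p * t = t * p) : ∃ c : ℂ, t = c • (1 : Matrix (Fin a) (Fin a) ℂ) := by
  rcases Nat.eq_zero_or_pos a with h | h
  · subst h
    exact ⟨0, by ext i; exact i.elim0⟩
  have hne : Nonempty (Fin a) := ⟨⟨0, h⟩⟩
  obtain ⟨c, hc⟩ := Module.End.exists_eigenvalue (Matrix.toLin' t)
  refine ⟨c, ?_⟩
  rcases i1 (Module.End.eigenspace (Matrix.toLin' t) c) (by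
    intro p hp u hu
    rw [Module.End.mem_eigenspace_iff, Matrix.toLin'_apply] at hu ⊢
    rw [Matrix.mulVec_mulVec, ← ht p hp, ← Matrix.mulVec_mulVec, hu, Matrix.mulVec_smul]) with h1 | h1
  · exact absurd h1 hc
  · ext i j
    have h2 : (Pi.single j 1 : Fin a → ℂ) ∈ Module.End.eigenspace (Matrix.toLin' t) c := by
      rw [h1]; exact Submodule.mem_top
    rw [Module.End.mem_eigenspace_iff, Matrix.toLin'_apply, Matrix.mulVec_single_one] at h2
    have h3 := congrFun h2 i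
    rw [Matrix.col_apply] at h3
    rw [h3, Pi.smul_apply, Matrix.smul_apply, Matrix.one_apply, Pi.single_apply]

end schur

end GH
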