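import Pool.Agent.Helper98.GH.GalC
import Pool.Agent.Helper48.GH.Schur
import Pool.Agent.Helper48.GH.Fix5
import Pool.Agent.Helper56.EL.Lie
import Pool.Agent.Helper83.GH.Glue
import Pool.Agent.Helper68.GH.OfPair
import Pool.Agent.Helper14.GH.HW6

/-!
Project GH, l-adic side: the Lie algebra `LG` and its brackets on the blocks.
-/

set_option linter.unusedSectionVars false

open Matrix GH

namespace MH

variable {n : Type*} [Fintype n] [DecidableEq n]
variable {w : ℤ} {Q : Matrix n n ℚ} {S : Finset ℤ} {P : ℤ → Matrix n n ℂ} {Γ : Subgroup (GL n ℂ)}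

/-! ### decomposition into blocks -/

theorem IsHW.exists_blk (H : IsHW w Q S P) : ∃ (ι : Type) (_ : Fintype ι) (_ : DecidableEq ι) (e : ι → Matrix n n ℂ),
    (∀ i, IsBlk P (e i)) ∧ (∀ i j, i ≠ j → e i * e j = 0) ∧ ∑ i, e i = 1 := by
  obtain ⟨B, Bi, Qi, h1, h2, h3, h4, hM⟩ := H.exists_basis
  obtain ⟨ι, i1, i2, e, he, _, horth, hsum⟩ := exists_irr_sum (L := (LB Q S P B Bi : Set (Matrix n n ℂ)))
    (fun X hX => H.LB_star h1 h2 hM hX)
  have key : ∀ X ∈ LH Q S P, cj B Bi X ∈ LB Q S P B Bi := by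
    intro X hX
    rw [mem_LB, cj_cj h2]
    exact hX
  refine ⟨ι, i1, i2, fun i => cj Bi B (e i), fun i => ⟨?_, ?_, ?_, ?_⟩, ?_, ?_⟩
  · apply H.EC_of_LH
    intro X hX
    have h5 := (he i).mem _ (key X hX)
    have h6 := congrArg (cj Bi B) h5
    rw [← cj_mul h1, ← cj_mul h1, cj_cj h2] at h6
    exact h6.symm
  · rw [cj_mul h1, (he i).idem]
  · intro h
    apply (he i).ne
    have h5 := congrArg (cj B Bi) h
    rw [cj_cj h1, cj_zero] at h5
    exact h5
  · intro x hx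
    have h5 : Com (LB Q S P B Bi : Set (Matrix n n ℂ)) (cj B Bi x) := by
      intro X hX
      have h6 := H.LH_EC (mem_LB.1 hX) hx
      have h7 := congrArg (cj B Bi) h6
      rw [← cj_mul h2, ← cj_mul h2, cj_cj h1] at h7
      exact h7
    obtain ⟨c, hc⟩ := (he i).min _ h5
    refine ⟨c, ?_⟩
    have h6 := congrArg (cj Bi B) hc
    rw [← cj_mul h1, ← cj_mul h1, cj_cj h2, cj_smul] at h6
    exact h6
  · intro i j hij
    rw [cj_mul h1, horth i j hij, cj_zero]
  · rw [← cj_sum, hsum, cj_one h2]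

/-! ### the brackets -/

section brkt

theorem skew_br48 {Q' X Y : Matrix n n ℂ} {c d : ℂ} (hX : Xᵀ * Q' + Q' * X = c • Q') (hY : Yᵀ * Q' + Q' * Y = d • Q') :
    (X * Y - Y * X)ᵀ * Q' + Q' * (X * Y - Y * X) = 0 := by
  have h1 : Xᵀ * Q' = c • Q' - Q' * X := by rw [← hX]; abel
  have h2 : Yᵀ * Q' = d • Q' - Q' * Y := by rw [← hY]; abel
  have h3 : (X * Y - Y * X)ᵀ * Q' = Yᵀ * (Xᵀ * Q') - Xᵀ * (Yᵀ * Q') := by
    rw [Matrix.transpose_sub, Matrix.transpose_mul, Matrix.transpose_mul, Matrix.sub_mul, Matrix.mul_assoc,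
      Matrix.mul_assoc]
  rw [h3, h1, h2]
  simp only [Matrix.mul_sub, Matrix.mul_smul, ← Matrix.mul_assoc]
  rw [h1, h2]
  simp only [Matrix.sub_mul, Matrix.smul_mul, smul_sub, smul_smul, Matrix.mul_assoc, mul_comm d c]
  abel

theorem LG_brk_le48 : brk (LG Γ) ≤ LG Γ := brk_le62 (fun _ hx _ hy => LG_br48 hx hy)

theorem IsGalW.brk_skew (H : IsHW w Q S P) (G : IsGalW w Q S P Γ) {X : Matrix n n ℂ} (hX : X ∈ brk (LG Γ)) :
    Xᵀ * toC Q + toC Q * X = 0 := by
  unfold brk at hX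
  induction hX using Submodule.span_induction with
  | mem z hz =>
    obtain ⟨x, hx, y, hy, rfl⟩ := hz
    obtain ⟨c, hc⟩ := G.LG_sim H hx
    obtain ⟨d, hd⟩ := G.LG_sim H hy
    exact skew_br48 hc hd
  | zero => simp
  | add x y _ _ h1 h2 =>
    rw [Matrix.transpose_add, Matrix.add_mul, Matrix.mul_add]
    calc xᵀ * toC Q + yᵀ * toC Q + (toC Q * x + toC Q * y) =
        (xᵀ * toC Q + toC Q * x) + (yᵀ * toC Q + toC Q * y) := by abel
      _ = 0 := by rw [h1, h2, add_zero]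
  | smul c x _ h1 => rw [Matrix.transpose_smul, Matrix.smul_mul, Matrix.mul_smul, ← smul_add, h1, smul_zero]

theorem brk_br48 {L : Submodule ℂ (Matrix n n ℂ)} (br : ∀ x ∈ L, ∀ y ∈ L, x * y - y * x ∈ L) :
    ∀ x ∈ brk L, ∀ y ∈ brk L, x * y - y * x ∈ brk L :=
  fun _ hx _ hy => br_mem62 (brk_le62 br hx) (brk_le62 br hy)

/-- the trace of a bracket on a block is zero -/
theorem brk_trace48 {L : Submodule ℂ (Matrix n n ℂ)} {e : Matrix n n ℂ} (hc : ∀ x ∈ L, x * e = e * x) {y : Matrix n n ℂ}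
    (hy : y ∈ brk L) : (y * e).trace = 0 := by
  unfold brk at hy
  induction hy using Submodule.span_induction with
  | mem z hz =>
    obtain ⟨x, hx, y, hy, rfl⟩ := hz
    rw [Matrix.sub_mul, Matrix.trace_sub, Matrix.mul_assoc, hc y hy, ← Matrix.mul_assoc,
      Matrix.trace_mul_comm (x * e) y, ← Matrix.mul_assoc, sub_self]
  | zero => simp
  | add x y _ _ h1 h2 => rw [Matrix.add_mul, Matrix.trace_add, h1, h2, add_zero]
  | smul c x _ h1 => rw [Matrix.smul_mul, Matrix.trace_smul, h1, smul_zero]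

/-- brackets are stable under conjugation -/
theorem brk_conj48 {g : GL n ℂ} (hg : g ∈ Γ) {X : Matrix n n ℂ} (hX : X ∈ brk (LG Γ)) :
    (g : Matrix n n ℂ) * X * ((g⁻¹ : GL n ℂ) : Matrix n n ℂ) ∈ brk (LG Γ) := by
  have h0 : ((g⁻¹ : GL n ℂ) : Matrix n n ℂ) * (g : Matrix n n ℂ) = 1 := by
    rw [← Units.val_mul, inv_mul_cancel, Units.val_one]
  unfold brk at hX
  induction hX using Submodule.span_induction with
  | mem z hz =>
    obtain ⟨x, hx, y, hy, rfl⟩ := hz
    have h1 := br_mem62 (LG_conj hg hx) (LG_conj hg hy)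
    set g' := ((g⁻¹ : GL n ℂ) : Matrix n n ℂ)
    have h2 : ∀ x y : Matrix n n ℂ, (g : Matrix n n ℂ) * x * g' * ((g : Matrix n n ℂ) * y * g') =
        (g : Matrix n n ℂ) * (x * y) * g' := by
      intro x y
      calc (g : Matrix n n ℂ) * x * g' * ((g : Matrix n n ℂ) * y * g') =
          (g : Matrix n n ℂ) * x * (g' * (g : Matrix n n ℂ)) * y * g' := by simp only [mul_assoc]
        _ = _ := by rw [h0, mul_one]; simp only [mul_assoc]
    rw [h2, h2, ← sub_mul, ← mul_sub] at h1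
    exact h1
  | zero => simp
  | add x y _ _ h1 h2 => rw [mul_add, add_mul]; exact (brk _).add_mem h1 h2
  | smul c x _ h1 => rw [mul_smul_comm, smul_mul_assoc]; exact (brk _).smul_mem c h1

end brkt

/-! ### a block and the brackets -/

/-- full Lie algebras consist of brackets and scalars -/
theorem TyF.le48 {k : Type*} [Fintype k] [DecidableEq k] {C : Submodule ℂ (Matrix k k ℂ)} (h : TyF C)
    (h2 : 2 ≤ Fintype.card k) : C ≤ brk C ⊔ Submodule.span ℂ {1} := by
  obtain ⟨_, hd⟩ := brk_ty h h2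
  intro z hz
  have key : ∃ c : ℂ, z - c • (1 : Matrix k k ℂ) ∈ brk C := by
    rcases hd with hd | ⟨Q, hQ, hu, hL, hd⟩
    · refine ⟨z.trace / (Fintype.card k : ℂ), ?_⟩
      rw [hd, trace_sub, trace_smul, trace_one, smul_eq_mul]
      have h0 : (Fintype.card k : ℂ) ≠ 0 := by
        have : Fintype.card k ≠ 0 := by omega
        exact_mod_cast this
      field_simp
      ring
    · obtain ⟨c, hc⟩ := hL z hz
      refine ⟨c / 2, ?_⟩
      rw [hd, Matrix.transpose_sub, Matrix.transpose_smul, Matrix.transpose_one, Matrix.sub_mul, Matrix.mul_sub,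
        Matrix.smul_mul, Matrix.mul_smul, Matrix.one_mul, Matrix.mul_one]
      calc zᵀ * Q - (c / 2) • Q + (Q * z - (c / 2) • Q) = (zᵀ * Q + Q * z) - ((c / 2) • Q + (c / 2) • Q) := by abel
        _ = 0 := by
            rw [hc, ← add_smul, add_halves, sub_self]
  obtain ⟨c, hc⟩ := key
  have h3 : z = (z - c • (1 : Matrix k k ℂ)) + c • (1 : Matrix k k ℂ) := by abel
  rw [h3]
  exact Submodule.add_mem_sup hc (Submodule.smul_mem _ c (Submodule.mem_span_singleton_self 1))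

section block

variable {e : Matrix n n ℂ} {r : ℕ} {W : Matrix n (Fin r) ℂ} {V : Matrix (Fin r) n ℂ}

theorem eW48 (hVW : V * W = 1) (hWV : W * V = e) : e * W = W := by
  rw [← hWV, Matrix.mul_assoc, hVW, Matrix.mul_one]

theorem Ve48 (hVW : V * W = 1) (hWV : W * V = e) : V * e = V := by
  rw [← hWV, ← Matrix.mul_assoc, hVW, Matrix.one_mul]

theorem ee48 (hVW : V * W = 1) (hWV : W * V = e) : e * e = e := by
  rw [← hWV, Matrix.mul_assoc, ← Matrix.mul_assoc V W V, hVW, Matrix.one_mul]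

theorem xe48 (hVW : V * W = 1) (hWV : W * V = e) {x : Matrix n n ℂ} (hx : x * e = e * x) :
    x * e = W * (V * x * W) * V := by
  calc x * e = x * e * e := by rw [Matrix.mul_assoc, ee48 hVW hWV]
    _ = e * x * e := by rw [hx]
    _ = (W * V) * x * (W * V) := by rw [hWV]
    _ = W * (V * x * W) * V := by simp only [Matrix.mul_assoc]

theorem cmul48 (hVW : V * W = 1) (hWV : W * V = e) {x y : Matrix n n ℂ} (hy : y * e = e * y) :
    (V * x * W) * (V * y * W) = V * (x * y) * W := by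
  have h1 := eW48 hVW hWV
  calc (V * x * W) * (V * y * W) = V * x * (W * V) * y * W := by simp only [Matrix.mul_assoc]
    _ = V * x * (e * y) * W := by rw [hWV]; simp only [Matrix.mul_assoc]
    _ = V * x * y * (e * W) := by rw [← hy]; simp only [Matrix.mul_assoc]
    _ = V * (x * y) * W := by rw [h1]; simp only [Matrix.mul_assoc]

/-- brackets of the compression -/
theorem brk_cp48 (hVW : V * W = 1) (hWV : W * V = e) {M : Submodule ℂ (Matrix n n ℂ)} (hM : ∀ x ∈ M, x * e = e * x) :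
    brk (cpL W V M) = cpL W V (brk M) := by
  apply le_antisymm
  · unfold brk
    rw [Submodule.span_le]
    rintro _ ⟨_, ⟨x, hx, rfl⟩, _, ⟨y, hy, rfl⟩, rfl⟩
    refine ⟨x * y - y * x, Submodule.subset_span ⟨x, hx, y, hy, rfl⟩, ?_⟩
    rw [cmul48 hVW hWV (hM y hy), cmul48 hVW hWV (hM x hx), Matrix.mul_sub, Matrix.sub_mul]
  · rintro _ ⟨z, hz, rfl⟩
    unfold brk at hz
    induction hz using Submodule.span_induction with
    | mem z hz =>
      obtain ⟨x, hx, y, hy, rfl⟩ := hz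
      refine Submodule.subset_span ⟨V * x * W, ⟨x, hx, rfl⟩, V * y * W, ⟨y, hy, rfl⟩, ?_⟩
      rw [cmul48 hVW hWV (hM y hy), cmul48 hVW hWV (hM x hx), Matrix.mul_sub, Matrix.sub_mul]
    | zero => simp
    | add x y _ _ h1 h2 => rw [Matrix.mul_add, Matrix.add_mul]; exact Submodule.add_mem _ h1 h2
    | smul c x _ h1 => rw [Matrix.mul_smul, Matrix.smul_mul]; exact Submodule.smul_mem _ c h1

theorem mem_cpS48 {L : Submodule ℂ (Matrix n n ℂ)} {y : Matrix (Fin r) (Fin r) ℂ} :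
    y ∈ cpS W V L ↔ ∃ x ∈ L, ∃ c : ℂ, y = V * x * W + c • (1 : Matrix (Fin r) (Fin r) ℂ) := by
  unfold cpS
  constructor
  · intro h
    obtain ⟨_, ⟨x, hx, rfl⟩, z, hz, rfl⟩ := Submodule.mem_sup.mp h
    obtain ⟨c, rfl⟩ := Submodule.mem_span_singleton.mp hz
    exact ⟨x, hx, c, rfl⟩
  · rintro ⟨x, hx, c, rfl⟩
    exact Submodule.add_mem_sup ⟨x, hx, rfl⟩ (Submodule.smul_mem _ c (Submodule.mem_span_singleton_self 1))

/-- a block of rank at most one consists of scalars -/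
theorem small48 (hr : r ≤ 1) (y : Matrix (Fin r) (Fin r) ℂ) : ∃ c : ℂ, y = c • (1 : Matrix (Fin r) (Fin r) ℂ) := by
  interval_cases r
  · exact ⟨0, by ext i; exact i.elim0⟩
  · refine ⟨y 0 0, ?_⟩
    ext i j
    have hi : i = 0 := Subsingleton.elim _ _
    have hj : j = 0 := Subsingleton.elim _ _
    subst hi; subst hj
    simp

variable (H : IsHW w Q S P) (G : IsGalW w Q S P Γ)
include H G

/-- on a block the brackets and the scalars give everything -/
theorem IsGalW.cpS_brk (he : IsBlk P e) (hVW : V * W = 1) (hWV : W * V = e) :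
    cpS W V (brk (LG Γ)) = cpS W V (LG Γ) := by
  apply le_antisymm
  · intro y hy
    obtain ⟨x, hx, c, rfl⟩ := mem_cpS48.1 hy
    exact mem_cpS48.2 ⟨x, LG_brk_le48 hx, c, rfl⟩
  · by_cases hr : 2 ≤ r
    · intro y hy
      have h1 := TyF.le48 (G.ty H he hVW hWV hr) (by rw [Fintype.card_fin]; exact hr) hy
      have h2 : brk (cpS W V (LG Γ)) = cpL W V (brk (LG Γ)) := by
        unfold cpS
        rw [brk_one62]
        exact brk_cp48 hVW hWV (fun x hx => G.LG_EC hx he.mem)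
      rw [h2] at h1
      exact h1
    · intro y _
      obtain ⟨c, hc⟩ := small48 (by omega) y
      exact mem_cpS48.2 ⟨0, Submodule.zero_mem _, c, by rw [hc]; simp⟩

/-- a subspace of a block stable under the brackets is trivial -/
theorem IsGalW.irr_brk (he : IsBlk P e) (hVW : V * W = 1) (hWV : W * V = e)
    (U : Submodule ℂ (Fin r → ℂ)) (hU : ∀ y ∈ brk (LG Γ), ∀ u ∈ U, (V * y * W) *ᵥ u ∈ U) : U = ⊥ ∨ U = ⊤ := by
  refine G.irr H he hVW hWV U ?_
  intro y hy u hu
  have h1 : y ∈ cpS W V (LG Γ) := (le_sup_left : cpL W V (LG Γ) ≤ _) hy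
  rw [← G.cpS_brk H he hVW hWV] at h1
  obtain ⟨x, hx, c, rfl⟩ := mem_cpS48.1 h1
  rw [Matrix.add_mulVec, Matrix.smul_mulVec, Matrix.one_mulVec]
  exact U.add_mem (hU x hx u hu) (U.smul_mem c hu)

end block

end MH
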