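import Pool.Agent.Helper61.EL.Fix
import Pool.Agent.Helper71.CY.SpGenA

/-!
Project GH, block H5, first part: a family of copies and dual copies of one block. A tensor that is killed by the Lie
algebra `sl`, `sp` or `so` of the block (acting diagonally on the copies, contragrediently on the dual copies) is fixed
by the group `SL`, `Sp` or `SO` of the block.
-/

set_option linter.unusedSectionVars false
set_option linter.unusedVariables false

open Matrix

namespace MH

variable {n : Type*} [Fintype n] [DecidableEq n]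

/-- the torus of a pair of orthogonal idempotents -/
noncomputable def tor48 {m : Type*} [DecidableEq m] (Pe Pf : Matrix m m ℂ) (z : ℂ) : Matrix m m ℂ :=
  1 + (z - 1) • Pe + (z⁻¹ - 1) • Pf

/-- a pair of orthogonal idempotents -/
structure OP48 {m : Type*} [Fintype m] [DecidableEq m] (Pe Pf : Matrix m m ℂ) : Prop where
  ee : Pe * Pe = Pe
  ff : Pf * Pf = Pf
  ef : Pe * Pf = 0
  fe : Pf * Pe = 0

theorem OP48.tor_inv {m : Type*} [Fintype m] [DecidableEq m] {Pe Pf : Matrix m m ℂ} (H : OP48 Pe Pf) {z : ℂ}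
    (hz : z ≠ 0) : tor48 Pe Pf z * tor48 Pe Pf z⁻¹ = 1 := by
  have e2 : (z - 1) + (z⁻¹ - 1) + (z - 1) * (z⁻¹ - 1) = 0 := by
    field_simp
    ring
  have e3 : tor48 Pe Pf z * tor48 Pe Pf z⁻¹ =
      1 + ((z - 1) + (z⁻¹ - 1) + (z - 1) * (z⁻¹ - 1)) • Pe +
        ((z - 1) + (z⁻¹ - 1) + (z - 1) * (z⁻¹ - 1)) • Pf := by
    unfold tor48
    rw [inv_inv]
    simp only [add_mul, mul_add, one_mul, mul_one, smul_mul_smul_comm, H.ee, H.ff, H.ef, H.fe, smul_zero, add_zero,
      zero_add, add_smul, mul_comm (z⁻¹ - 1) (z - 1)]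
    abel
  rw [e3, e2, zero_smul, zero_smul, add_zero, add_zero]

/-- the torus of a pair of orthogonal idempotents fixes the tensor if its generator kills it -/
theorem OP48.mem {Pe Pf : Matrix n n ℂ} (H : OP48 Pe Pf) {a b : ℕ} {t : (Fin a ⊕ Fin b → n) → ℂ}
    (hk : dL a b t (Pe - Pf) = 0) {z : ℂ} (hz : z ≠ 0) : tor48 Pe Pf z ∈ Fixm61 a b t := by
  classical
  have ee := H.ee
  have ff := H.ff
  have ef := H.ef
  have fe := H.fe
  let R : ℤ → Matrix n n ℂ := fun p => if p = 1 then Pe else if p = -1 then Pf else if p = 0 then 1 - Pe - Pf else 0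
  have R1 : R 1 = Pe := rfl
  have Rm : R (-1) = Pf := rfl
  have R0 : R 0 = 1 - Pe - Pf := rfl
  have Ro : ∀ p, p ≠ 1 → p ≠ -1 → p ≠ 0 → R p = 0 := by
    intro p a b c
    simp only [R, if_neg a, if_neg b, if_neg c]
  have hR : Idm ({1, -1, 0} : Finset ℤ) R := by
    refine ⟨?_, ?_⟩
    · intro p q
      by_cases p1 : p = 1
      · subst p1
        by_cases q1 : q = 1
        · subst q1
          rw [R1, ee, if_pos rfl]
        · rw [if_neg (Ne.symm q1), R1]
          by_cases q2 : q = -1
          · subst q2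
            rw [Rm, ef]
          · by_cases q3 : q = 0
            · subst q3
              rw [R0, mul_sub, mul_sub, mul_one, ee, ef, sub_self, sub_zero]
            · rw [Ro q q1 q2 q3, mul_zero]
      · by_cases p2 : p = -1
        · subst p2
          rw [Rm]
          by_cases q1 : q = 1
          · subst q1
            rw [R1, fe, if_neg (by norm_num)]
          · by_cases q2 : q = -1
            · subst q2
              rw [Rm, ff, if_pos rfl]
            · rw [if_neg (Ne.symm q2)]
              by_cases q3 : q = 0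
              · subst q3
                rw [R0, mul_sub, mul_sub, mul_one, fe, ff, sub_zero, sub_self]
              · rw [Ro q q1 q2 q3, mul_zero]
        · by_cases p3 : p = 0
          · subst p3
            rw [R0]
            by_cases q1 : q = 1
            · subst q1
              rw [R1, sub_mul, sub_mul, one_mul, ee, fe, if_neg (by norm_num), sub_self, sub_zero]
            · by_cases q2 : q = -1
              · subst q2
                rw [Rm, sub_mul, sub_mul, one_mul, ef, ff, if_neg (by norm_num), sub_zero, sub_self]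
              · by_cases q3 : q = 0
                · subst q3
                  rw [R0, if_pos rfl, sub_mul, sub_mul, one_mul, mul_sub, mul_sub, mul_sub, mul_sub, mul_one, mul_one,
                    ee, ef, fe, ff]
                  abel
                · rw [Ro q q1 q2 q3, mul_zero, if_neg (Ne.symm q3)]
          · rw [Ro p p1 p2 p3, zero_mul]
            split_ifs <;> rfl
    · rw [Finset.sum_insert (by decide), Finset.sum_insert (by decide), Finset.sum_singleton, R1, Rm, R0]
      abel
  have hsum : ∀ c : ℤ → ℂ, ∑ p ∈ ({1, -1, 0} : Finset ℤ), c p • R p = c 1 • Pe + (c (-1) • Pf + c 0 • (1 - Pe - Pf)) := by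
    intro c
    rw [Finset.sum_insert (by decide), Finset.sum_insert (by decide), Finset.sum_singleton, R1, Rm, R0]
  have hhyp : ∀ z : ℂ, ∑ p ∈ ({1, -1, 0} : Finset ℤ), z ^ p • R p = tor48 Pe Pf z := by
    intro z
    rw [hsum (fun p => z ^ p)]
    unfold tor48
    rw [_root_.zpow_one, _root_.zpow_neg_one, _root_.zpow_zero, sub_smul, sub_smul, one_smul, one_smul,
      one_smul]
    abel
  refine ⟨tor48 Pe Pf z⁻¹, H.tor_inv hz, ?_⟩
  have h6 : Pe - Pf = ∑ p ∈ ({1, -1, 0} : Finset ℤ), (p : ℂ) • R p := by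
    rw [hsum (fun p => (p : ℂ))]
    push_cast
    rw [one_smul, zero_smul, add_zero, neg_one_smul, sub_eq_add_neg]
  rw [h6] at hk
  have h7 := (hR.inv_iff a b t).2 hk z hz
  rw [hhyp, hhyp] at h7
  exact h7

/-! ### copies and dual copies of a block -/

section fam

variable {κ m : Type*} [Fintype κ] [DecidableEq κ] [Fintype m] [DecidableEq m]

/-- coordinates of a family of pairwise orthogonal blocks of the same size -/
structure Fam48 (W : κ → Matrix n m ℂ) (V : κ → Matrix m n ℂ) : Prop where
  one : ∀ k, V k * W k = 1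
  zero : ∀ k l, k ≠ l → V k * W l = 0

/-- the group element on a copy (`true`) or on a dual copy (`false`); `y` is the inverse of `x` -/
def gp48 (s : Bool) (x y : Matrix m m ℂ) : Matrix m m ℂ := if s then x else yᵀ

/-- the Lie algebra element on a copy (`true`) or on a dual copy (`false`) -/
def li48 (s : Bool) (x : Matrix m m ℂ) : Matrix m m ℂ := if s then x else -xᵀ

/-- the group element on the whole space -/
def emb48 (W : κ → Matrix n m ℂ) (V : κ → Matrix m n ℂ) (s : κ → Bool) (x y : Matrix m m ℂ) : Matrix n n ℂ :=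
  1 + ∑ k, W k * (gp48 (s k) x y - 1) * V k

/-- the Lie algebra element on the whole space -/
def lam48 (W : κ → Matrix n m ℂ) (V : κ → Matrix m n ℂ) (s : κ → Bool) (x : Matrix m m ℂ) : Matrix n n ℂ :=
  ∑ k, W k * li48 (s k) x * V k

variable {W : κ → Matrix n m ℂ} {V : κ → Matrix m n ℂ} {s : κ → Bool}

omit [DecidableEq n] in
theorem Fam48.sum_mul_sum (F : Fam48 W V) (A B : κ → Matrix m m ℂ) :
    (∑ k, W k * A k * V k) * (∑ k, W k * B k * V k) = ∑ k, W k * (A k * B k) * V k := by
  rw [Finset.sum_mul]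
  refine Finset.sum_congr rfl fun k _ => ?_
  rw [Finset.mul_sum, Finset.sum_eq_single k]
  · calc W k * A k * V k * (W k * B k * V k) = W k * A k * (V k * W k) * B k * V k := by
          simp only [Matrix.mul_assoc]
      _ = _ := by rw [F.one, Matrix.mul_one]; simp only [Matrix.mul_assoc]
  · intro l _ hl
    calc W k * A k * V k * (W l * B l * V l) = W k * A k * (V k * W l) * B l * V l := by
          simp only [Matrix.mul_assoc]
      _ = 0 := by rw [F.zero k l (Ne.symm hl), Matrix.mul_zero, Matrix.zero_mul, Matrix.zero_mul]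
  · intro h
    exact absurd (Finset.mem_univ k) h

omit [Fintype m] in
theorem gp48_one (s : Bool) : gp48 s (1 : Matrix m m ℂ) 1 = 1 := by
  cases s
  · simp [gp48]
  · simp [gp48]

omit [DecidableEq m] in
theorem gp48_mul (s : Bool) (x y x' y' : Matrix m m ℂ) : gp48 s x y * gp48 s x' y' = gp48 s (x * x') (y' * y) := by
  cases s
  · simp [gp48, Matrix.transpose_mul]
  · simp [gp48]

theorem emb48_one : emb48 W V s 1 1 = 1 := by
  unfold emb48
  rw [Finset.sum_eq_zero, add_zero]
  intro k _
  rw [gp48_one, sub_self, Matrix.mul_zero, Matrix.zero_mul]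

theorem Fam48.emb_mul (F : Fam48 W V) (x y x' y' : Matrix m m ℂ) :
    emb48 W V s x y * emb48 W V s x' y' = emb48 W V s (x * x') (y' * y) := by
  unfold emb48
  rw [add_mul, one_mul, mul_add, mul_one, F.sum_mul_sum]
  have e1 : ∀ k, W k * (gp48 (s k) (x * x') (y' * y) - 1) * V k = W k * (gp48 (s k) x' y' - 1) * V k +
      (W k * (gp48 (s k) x y - 1) * V k + W k * ((gp48 (s k) x y - 1) * (gp48 (s k) x' y' - 1)) * V k) := by
    intro k
    rw [← gp48_mul, ← Matrix.add_mul, ← Matrix.add_mul, ← Matrix.mul_add, ← Matrix.mul_add]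
    congr 2
    rw [sub_mul, mul_sub, mul_sub]
    simp only [Matrix.one_mul, Matrix.mul_one]
    abel
  simp only [e1, Finset.sum_add_distrib]
  abel

/-- the elements of the block that fix the tensor -/
def FixE48 (F : Fam48 W V) (s : κ → Bool) (a b : ℕ) (t : (Fin a ⊕ Fin b → n) → ℂ) : Submonoid (Matrix m m ℂ) where
  carrier := {x | ∃ y, x * y = 1 ∧ emb48 W V s x y ∈ Fixm61 a b t}
  mul_mem' := by
    rintro x x' ⟨y, h1, h2⟩ ⟨y', h3, h4⟩
    refine ⟨y' * y, ?_, ?_⟩
    · calc x * x' * (y' * y) = x * (x' * y') * y := by simp only [mul_assoc]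
        _ = 1 := by rw [h3, mul_one, h1]
    · rw [← F.emb_mul]
      exact Submonoid.mul_mem _ h2 h4
  one_mem' := ⟨1, mul_one 1, by rw [emb48_one]; exact Submonoid.one_mem _⟩

variable {a b : ℕ} {t : (Fin a ⊕ Fin b → n) → ℂ}

theorem FixE48.emb {F : Fam48 W V} {x y : Matrix m m ℂ} (hx : x ∈ FixE48 F s a b t) (hxy : x * y = 1) :
    emb48 W V s x y ∈ Fixm61 a b t := by
  obtain ⟨y', h1, h2⟩ := hx
  have h3 : y = y' := by
    have h4 : y * x = 1 := mul_eq_one_comm.1 hxy
    calc y = y * (x * y') := by rw [h1, mul_one]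
      _ = y' := by rw [← mul_assoc, h4, one_mul]
  rw [h3]
  exact h2

/-- the torus of a pair of orthogonal idempotents of the block -/
theorem FixE48.tor (F : Fam48 W V) {Pe Pf : Matrix m m ℂ} (H : OP48 Pe Pf)
    (hk : dL a b t (lam48 W V s (Pe - Pf)) = 0) {z : ℂ} (hz : z ≠ 0) : tor48 Pe Pf z ∈ FixE48 F s a b t := by
  let A : κ → Matrix m m ℂ := fun k => if s k then Pe else Pfᵀ
  let B : κ → Matrix m m ℂ := fun k => if s k then Pf else Peᵀ
  let Pe' : Matrix n n ℂ := ∑ k, W k * A k * V k
  let Pf' : Matrix n n ℂ := ∑ k, W k * B k * V k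
  have H' : OP48 Pe' Pf' := by
    refine ⟨?_, ?_, ?_, ?_⟩
    · change (∑ k, W k * A k * V k) * (∑ k, W k * A k * V k) = ∑ k, W k * A k * V k
      rw [F.sum_mul_sum]
      refine Finset.sum_congr rfl fun k _ => ?_
      congr 2
      simp only [A]
      split_ifs
      · exact H.ee
      · rw [← Matrix.transpose_mul, H.ff]
    · change (∑ k, W k * B k * V k) * (∑ k, W k * B k * V k) = ∑ k, W k * B k * V k
      rw [F.sum_mul_sum]
      refine Finset.sum_congr rfl fun k _ => ?_
      congr 2
      simp only [B]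
      split_ifs
      · exact H.ff
      · rw [← Matrix.transpose_mul, H.ee]
    · change (∑ k, W k * A k * V k) * (∑ k, W k * B k * V k) = 0
      rw [F.sum_mul_sum]
      refine Finset.sum_eq_zero fun k _ => ?_
      have : A k * B k = 0 := by
        simp only [A, B]
        split_ifs
        · exact H.ef
        · rw [← Matrix.transpose_mul, H.ef, Matrix.transpose_zero]
      rw [this, Matrix.mul_zero, Matrix.zero_mul]
    · change (∑ k, W k * B k * V k) * (∑ k, W k * A k * V k) = 0
      rw [F.sum_mul_sum]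
      refine Finset.sum_eq_zero fun k _ => ?_
      have : B k * A k = 0 := by
        simp only [A, B]
        split_ifs
        · exact H.fe
        · rw [← Matrix.transpose_mul, H.fe, Matrix.transpose_zero]
      rw [this, Matrix.mul_zero, Matrix.zero_mul]
  have e1 : lam48 W V s (Pe - Pf) = Pe' - Pf' := by
    change ∑ k, W k * li48 (s k) (Pe - Pf) * V k = (∑ k, W k * A k * V k) - (∑ k, W k * B k * V k)
    rw [← Finset.sum_sub_distrib]
    refine Finset.sum_congr rfl fun k _ => ?_
    rw [← Matrix.sub_mul, ← Matrix.mul_sub]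
    congr 2
    simp only [li48, A, B]
    split_ifs
    · rfl
    · rw [Matrix.transpose_sub]
      abel
  rw [e1] at hk
  refine ⟨tor48 Pe Pf z⁻¹, H.tor_inv hz, ?_⟩
  have e2 : emb48 W V s (tor48 Pe Pf z) (tor48 Pe Pf z⁻¹) = tor48 Pe' Pf' z := by
    change 1 + ∑ k, W k * (gp48 (s k) (tor48 Pe Pf z) (tor48 Pe Pf z⁻¹) - 1) * V k =
      1 + (z - 1) • (∑ k, W k * A k * V k) + (z⁻¹ - 1) • (∑ k, W k * B k * V k)
    rw [add_assoc, Finset.smul_sum, Finset.smul_sum, ← Finset.sum_add_distrib]
    congr 1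
    refine Finset.sum_congr rfl fun k _ => ?_
    have e3 : gp48 (s k) (tor48 Pe Pf z) (tor48 Pe Pf z⁻¹) - 1 = (z - 1) • A k + (z⁻¹ - 1) • B k := by
      simp only [gp48, A, B, tor48]
      split_ifs
      · abel
      · rw [inv_inv, Matrix.transpose_add, Matrix.transpose_add, Matrix.transpose_one, Matrix.transpose_smul,
          Matrix.transpose_smul]
        abel
    rw [e3, Matrix.mul_add, Matrix.add_mul, Matrix.mul_smul, Matrix.mul_smul, Matrix.smul_mul, Matrix.smul_mul]
  rw [e2]
  exact H'.mem hk hz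

/-! ### the special linear group -/

theorem OP48.single {i j : m} (hij : i ≠ j) : OP48 (Matrix.single i i (1 : ℂ)) (Matrix.single j j 1) := by
  refine ⟨?_, ?_, ?_, ?_⟩
  · rw [Matrix.single_mul_single_same, mul_one]
  · rw [Matrix.single_mul_single_same, mul_one]
  · rw [Matrix.single_mul_single_of_ne _ _ _ _ hij]
  · rw [Matrix.single_mul_single_of_ne _ _ _ _ (Ne.symm hij)]

theorem OP48.single' {i j : m} (hij : i ≠ j) (c : ℂ) :
    OP48 (Matrix.single i i (1 : ℂ) + Matrix.single i j c) (Matrix.single j j 1 - Matrix.single i j c) := by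
  have h1 : (Matrix.single i i (1 : ℂ)) * Matrix.single i j c = Matrix.single i j c := by
    rw [Matrix.single_mul_single_same, one_mul]
  have h2 : (Matrix.single i j c) * Matrix.single i i (1 : ℂ) = 0 := by
    rw [Matrix.single_mul_single_of_ne _ _ _ _ (Ne.symm hij)]
  have h3 : (Matrix.single i j c) * Matrix.single i j c = 0 := by
    rw [Matrix.single_mul_single_of_ne _ _ _ _ (Ne.symm hij)]
  have h4 : (Matrix.single j j (1 : ℂ)) * Matrix.single i j c = 0 := by
    rw [Matrix.single_mul_single_of_ne _ _ _ _ (Ne.symm hij)]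
  have h5 : (Matrix.single i j c) * Matrix.single j j (1 : ℂ) = Matrix.single i j c := by
    rw [Matrix.single_mul_single_same, mul_one]
  have H := OP48.single hij
  refine ⟨?_, ?_, ?_, ?_⟩
  · rw [add_mul, mul_add, mul_add, H.ee, h1, h2, h3]
    abel
  · rw [sub_mul, mul_sub, mul_sub, H.ff, h4, h5, h3]
    abel
  · rw [add_mul, mul_sub, mul_sub, H.ef, h1, h5, h3]
    abel
  · rw [sub_mul, mul_add, mul_add, H.fe, h4, h2, h3]
    abel

/-- A tensor that is killed by the special linear Lie algebra of the block is fixed by the special linear group. -/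
theorem FixE48.sl (F : Fam48 W V) (hk : ∀ X : Matrix m m ℂ, X.trace = 0 → dL a b t (lam48 W V s X) = 0)
    {x : Matrix m m ℂ} (hx : x.det = 1) : x ∈ FixE48 F s a b t := by
  have htor : ∀ (i j : m) (z : ℂ), i ≠ j → z ≠ 0 →
      tor48 (Matrix.single i i (1 : ℂ)) (Matrix.single j j 1) z ∈ FixE48 F s a b t := by
    intro i j z hij hz
    refine FixE48.tor F (OP48.single hij) (hk _ ?_) hz
    rw [Matrix.trace_sub, Matrix.trace_single_eq_same, Matrix.trace_single_eq_same, sub_self]
  have htv : ∀ (i j : m) (c : ℂ), i ≠ j → Matrix.transvection i j c ∈ FixE48 F s a b t := by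
    intro i j c hij
    have h1 : tor48 (Matrix.single i i (1 : ℂ) + Matrix.single i j (-(c / 3)))
        (Matrix.single j j 1 - Matrix.single i j (-(c / 3))) 2⁻¹ ∈ FixE48 F s a b t := by
      refine FixE48.tor F (OP48.single' hij _) (hk _ ?_) (inv_ne_zero two_ne_zero)
      rw [Matrix.trace_sub, Matrix.trace_add, Matrix.trace_sub, Matrix.trace_single_eq_same,
        Matrix.trace_single_eq_same, Matrix.trace_single_eq_of_ne _ _ _ hij]
      ring
    have h2 := Submonoid.mul_mem _ (htor i j 2 hij two_ne_zero) h1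
    have h3 : (Matrix.single i i (1 : ℂ)) * Matrix.single i j c = Matrix.single i j c := by
      rw [Matrix.single_mul_single_same, one_mul]
    have h4 : (Matrix.single j j (1 : ℂ)) * Matrix.single i j c = 0 := by
      rw [Matrix.single_mul_single_of_ne _ _ _ _ (Ne.symm hij)]
    have e0 : ∀ d : ℂ, Matrix.single i j (d * c) = d • Matrix.single i j c := by
      intro d
      rw [Matrix.smul_single, smul_eq_mul]
    have e1 : tor48 (Matrix.single i i (1 : ℂ) + Matrix.single i j (-(c / 3)))
        (Matrix.single j j 1 - Matrix.single i j (-(c / 3))) 2⁻¹ =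
        tor48 (Matrix.single i i (1 : ℂ)) (Matrix.single j j 1) 2⁻¹ + (2⁻¹ : ℂ) • Matrix.single i j c := by
      have e2 : -(c / 3) = (-(1 / 3)) * c := by ring
      rw [e2, e0]
      unfold tor48
      rw [inv_inv, smul_add, smul_sub, smul_smul, smul_smul]
      have e3 : ((2 : ℂ)⁻¹ - 1) * (-(1 / 3)) = 1 / 6 := by norm_num
      have e4 : ((2 : ℂ) - 1) * (-(1 / 3)) = 1 / 6 - 2⁻¹ := by norm_num
      have e5 : ((1 : ℂ) / 6 - 2⁻¹) • Matrix.single i j c = ((1 : ℂ) / 6) • Matrix.single i j c -
          (2⁻¹ : ℂ) • Matrix.single i j c := sub_smul _ _ _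
      rw [e3, e4, e5]
      abel
    rw [e1, mul_add, (OP48.single hij).tor_inv two_ne_zero, mul_smul_comm] at h2
    have e5 : tor48 (Matrix.single i i (1 : ℂ)) (Matrix.single j j 1) 2 * Matrix.single i j c =
        (2 : ℂ) • Matrix.single i j c := by
      unfold tor48
      rw [add_mul, add_mul, one_mul, smul_mul_assoc, smul_mul_assoc, h3, h4, smul_zero, add_zero, sub_smul, one_smul]
      abel
    rw [e5, smul_smul, inv_mul_cancel₀ two_ne_zero, one_smul] at h2
    exact h2
  have hlist : ∀ L : List (Matrix.TransvectionStruct m ℂ),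
      (L.map Matrix.TransvectionStruct.toMatrix).prod ∈ FixE48 F s a b t := by
    intro L
    apply Submonoid.list_prod_mem
    intro y hy
    obtain ⟨τ, _, rfl⟩ := List.mem_map.1 hy
    exact htv τ.i τ.j τ.c τ.hij
  obtain ⟨L, L', D, hD⟩ := Matrix.Pivot.exists_list_transvec_mul_diagonal_mul_list_transvec x
  rw [hD]
  refine Submonoid.mul_mem _ (Submonoid.mul_mem _ (hlist L) ?_) (hlist L')
  have hdet : ∏ i, D i = 1 := by
    rw [hD, Matrix.det_mul, Matrix.det_mul, Matrix.TransvectionStruct.det_toMatrix_prod,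
      Matrix.TransvectionStruct.det_toMatrix_prod, Matrix.det_diagonal, one_mul, mul_one] at hx
    exact hx
  have hne : ∀ i, D i ≠ 0 := by
    intro i h0
    rw [Finset.prod_eq_zero (Finset.mem_univ i) h0] at hdet
    exact zero_ne_one hdet
  by_cases hm : IsEmpty m
  · have e1 : Matrix.diagonal D = 1 := by
      ext i
      exact hm.elim i
    rw [e1]
    exact Submonoid.one_mem _
  rw [not_isEmpty_iff] at hm
  obtain ⟨i0⟩ := hm
  have key : ∀ S : Finset m, i0 ∉ S → Matrix.diagonal (fun i => if i ∈ S then D i else if i = i0 then (∏ j ∈ S, D j)⁻¹ else 1) ∈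
      FixE48 F s a b t := by
    intro S
    induction S using Finset.induction_on with
    | empty =>
      intro _
      have e1 : (fun i => if i ∈ (∅ : Finset m) then D i else if i = i0 then (∏ j ∈ (∅ : Finset m), D j)⁻¹ else (1 : ℂ)) =
          fun _ => 1 := by
        funext i
        simp
      rw [e1, Matrix.diagonal_one]
      exact Submonoid.one_mem _
    | insert j S hj ih =>
      intro hi0
      have hi1 : i0 ∉ S := fun h => hi0 (Finset.mem_insert_of_mem h)
      have hji : j ≠ i0 := by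
        rintro rfl
        exact hi0 (Finset.mem_insert_self _ _)
      have h1 := Submonoid.mul_mem _ (ih hi1) (htor j i0 (D j) hji (hne j))
      have e1 : tor48 (Matrix.single j j (1 : ℂ)) (Matrix.single i0 i0 1) (D j) =
          Matrix.diagonal (fun i => if i = j then D j else if i = i0 then (D j)⁻¹ else 1) := by
        unfold tor48
        ext x y
        simp only [Matrix.add_apply, Matrix.smul_apply, Matrix.single_apply, Matrix.diagonal_apply, Matrix.one_apply,
          smul_eq_mul]
        by_cases hxy : x = y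
        · subst hxy
          by_cases hx1 : x = j
          · subst hx1
            simp [Ne.symm hji]
          · by_cases hx2 : x = i0
            · subst hx2
              simp [hji, hx1]
            · simp [hx1, hx2, Ne.symm hx1, Ne.symm hx2]
        · rw [if_neg hxy, if_neg hxy, if_neg, if_neg]
          · ring
          · rintro ⟨rfl, h⟩
            exact hxy h
          · rintro ⟨rfl, h⟩
            exact hxy h
      rw [e1, Matrix.diagonal_mul_diagonal] at h1
      have e2 : (fun i => (if i ∈ S then D i else if i = i0 then (∏ j ∈ S, D j)⁻¹ else 1) *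
          (if i = j then D j else if i = i0 then (D j)⁻¹ else 1)) =
          fun i => if i ∈ insert j S then D i else if i = i0 then (∏ j ∈ insert j S, D j)⁻¹ else 1 := by
        funext i
        by_cases h2 : i = j
        · subst h2
          rw [if_neg hj, if_neg hji, if_pos rfl, if_pos (Finset.mem_insert_self _ _), one_mul]
        · by_cases h3 : i ∈ S
          · have h4 : i ≠ i0 := by
              rintro rfl
              exact hi1 h3
            rw [if_pos h3, if_neg h2, if_neg h4, if_pos (Finset.mem_insert_of_mem h3), mul_one]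
          · have h5 : i ∉ insert j S := by
              rw [Finset.mem_insert]
              rintro (h | h)
              · exact h2 h
              · exact h3 h
            rw [if_neg h3, if_neg h2, if_neg h5]
            by_cases h4 : i = i0
            · rw [if_pos h4, if_pos h4, if_pos h4, Finset.prod_insert hj, _root_.mul_inv, mul_comm]
            · rw [if_neg h4, if_neg h4, if_neg h4, one_mul]
      rw [e2] at h1
      exact h1
  have h1 := key (Finset.univ.erase i0) (Finset.notMem_erase _ _)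
  have e1 : (fun i => if i ∈ Finset.univ.erase i0 then D i else if i = i0 then (∏ j ∈ Finset.univ.erase i0, D j)⁻¹ else 1) = D := by
    funext i
    by_cases h2 : i = i0
    · subst h2
      rw [if_neg (Finset.notMem_erase _ _), if_pos rfl]
      rw [← Finset.mul_prod_erase _ _ (Finset.mem_univ i)] at hdet
      exact inv_eq_of_mul_eq_one_left hdet
    · rw [if_pos (Finset.mem_erase.2 ⟨h2, Finset.mem_univ i⟩)]
  rw [e1] at h1
  exact h1

/-! ### the symplectic group -/

theorem skew48 {J : Matrix m m ℂ} {ε : ℂ} (hJ : Jᵀ = ε • J) (hε : ε * ε = 1) (u v : m → ℂ) :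
    (vecMulVec u (J *ᵥ v))ᵀ * J = ε • (J * vecMulVec v (J *ᵥ u)) := by
  rw [Matrix.transpose_vecMulVec, Matrix.vecMulVec_mul, Matrix.mul_vecMulVec, ← Matrix.mulVec_transpose, hJ,
    Matrix.smul_mulVec, Matrix.vecMulVec_smul]

/-- A tensor that is killed by the symplectic Lie algebra of the block is fixed by the symplectic group. -/
theorem FixE48.sp (F : Fam48 W V) {J : Matrix m m ℂ} (hJ : Jᵀ = -J) (hd : J.det ≠ 0)
    (hk : ∀ X : Matrix m m ℂ, Xᵀ * J + J * X = 0 → dL a b t (lam48 W V s X) = 0)
    {x : Matrix m m ℂ} (hx : xᵀ * J * x = J) : x ∈ FixE48 F s a b t := by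
  have dsk : ∀ u v : m → ℂ, u ⬝ᵥ (J *ᵥ v) = -(v ⬝ᵥ (J *ᵥ u)) := by
    intro u v
    rw [Matrix.dotProduct_mulVec, ← Matrix.mulVec_transpose, hJ, Matrix.neg_mulVec, neg_dotProduct, dotProduct_comm]
  have dse : ∀ u : m → ℂ, u ⬝ᵥ (J *ᵥ u) = 0 := by
    intro u
    have h := dsk u u
    have h2 : (2 : ℂ) * (u ⬝ᵥ (J *ᵥ u)) = 0 := by linear_combination h
    exact (mul_eq_zero.1 h2).resolve_left two_ne_zero
  have hOP : ∀ e f : m → ℂ, e ⬝ᵥ (J *ᵥ f) = 1 → OP48 (vecMulVec e (J *ᵥ f)) (-vecMulVec f (J *ᵥ e)) := by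
    intro e f h
    have h4 : f ⬝ᵥ (J *ᵥ e) = -1 := by rw [dsk, h]
    refine ⟨?_, ?_, ?_, ?_⟩
    · rw [vmv_mul, dotProduct_comm, h, one_smul]
    · rw [neg_mul_neg, vmv_mul, dotProduct_comm, h4, neg_one_smul]
    · rw [mul_neg, vmv_mul, dotProduct_comm, dse, zero_smul, neg_zero]
    · rw [neg_mul, vmv_mul, dotProduct_comm, dse, zero_smul, neg_zero]
  have hsk : ∀ e f : m → ℂ, (vecMulVec e (J *ᵥ f) - -vecMulVec f (J *ᵥ e))ᵀ * J +
      J * (vecMulVec e (J *ᵥ f) - -vecMulVec f (J *ᵥ e)) = 0 := by
    intro e f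
    have hJ' : Jᵀ = (-1 : ℂ) • J := by rw [hJ, neg_one_smul]
    rw [sub_neg_eq_add, Matrix.transpose_add, add_mul, skew48 hJ' (by norm_num), skew48 hJ' (by norm_num), mul_add,
      neg_one_smul, neg_one_smul]
    abel
  refine CY.sp_gen hJ hd (FixE48 F s a b t) (fun u c => ?_) hx
  by_cases hu : u = 0
  · subst hu
    rw [Matrix.zero_vecMulVec, smul_zero, add_zero]
    exact Submonoid.one_mem _
  obtain ⟨i, hi⟩ := Function.ne_iff.1 hu
  have hi0 : u i ≠ 0 := hi
  set f : m → ℂ := J⁻¹ *ᵥ (Pi.single i (u i)⁻¹) with hf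
  have h1 : u ⬝ᵥ (J *ᵥ f) = 1 := by
    rw [hf, Matrix.mulVec_mulVec, Matrix.mul_nonsing_inv _ (isUnit_iff_ne_zero.2 hd), Matrix.one_mulVec,
      dotProduct_single, mul_inv_cancel₀ hi0]
  have h2 : u ⬝ᵥ (J *ᵥ (f + (-(c / 3)) • u)) = 1 := by
    rw [Matrix.mulVec_add, Matrix.mulVec_smul, dotProduct_add, dotProduct_smul, dse, smul_zero, add_zero, h1]
  have m1 := FixE48.tor (s := s) (a := a) (b := b) (t := t) F (hOP u f h1) (hk _ (hsk u f)) two_ne_zero
  have m2 := FixE48.tor (s := s) (a := a) (b := b) (t := t) F (hOP u _ h2) (hk _ (hsk u _))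
    (inv_ne_zero (two_ne_zero (α := ℂ)))
  have m3 := Submonoid.mul_mem _ m1 m2
  set N := vecMulVec u (J *ᵥ u) with hN
  have a1 : vecMulVec u (J *ᵥ (f + (-(c / 3)) • u)) = vecMulVec u (J *ᵥ f) + (-(c / 3)) • N := by
    rw [Matrix.mulVec_add, Matrix.mulVec_smul, Matrix.vecMulVec_add, Matrix.vecMulVec_smul]
  have a2 : -vecMulVec (f + (-(c / 3)) • u) (J *ᵥ u) = -vecMulVec f (J *ᵥ u) - (-(c / 3)) • N := by
    rw [Matrix.add_vecMulVec, Matrix.smul_vecMulVec, neg_add, sub_eq_add_neg]
  have a3 : vecMulVec u (J *ᵥ f) * N = N := by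
    rw [hN, vmv_mul, dotProduct_comm, h1, one_smul]
  have a4 : -vecMulVec f (J *ᵥ u) * N = 0 := by
    rw [hN, neg_mul, vmv_mul, dotProduct_comm, dse, zero_smul, neg_zero]
  have a5 : tor48 (vecMulVec u (J *ᵥ (f + (-(c / 3)) • u))) (-vecMulVec (f + (-(c / 3)) • u) (J *ᵥ u)) 2⁻¹ =
      tor48 (vecMulVec u (J *ᵥ f)) (-vecMulVec f (J *ᵥ u)) 2⁻¹ + (c / 2) • N := by
    unfold tor48
    rw [a1, a2, inv_inv, smul_add, smul_sub, smul_smul, smul_smul]
    have e1 : ((2 : ℂ)⁻¹ - 1) * (-(c / 3)) = c / 6 := by ring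
    have e2 : ((2 : ℂ) - 1) * (-(c / 3)) = c / 6 - c / 2 := by ring
    have e3 : (c / 6 - c / 2) • N = (c / 6) • N - (c / 2) • N := sub_smul _ _ _
    rw [e1, e2, e3]
    abel
  have a6 : tor48 (vecMulVec u (J *ᵥ f)) (-vecMulVec f (J *ᵥ u)) 2 * N = (2 : ℂ) • N := by
    unfold tor48
    rw [add_mul, add_mul, one_mul, smul_mul_assoc, smul_mul_assoc, a3, a4, smul_zero, add_zero, sub_smul, one_smul]
    abel
  rw [a5, mul_add, (hOP u f h1).tor_inv two_ne_zero, mul_smul_comm, a6, smul_smul] at m3
  have e1 : c / 2 * 2 = c := by ring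
  rw [e1] at m3
  exact m3

/-! ### the special orthogonal group -/

/-- A tensor that is killed by the orthogonal Lie algebra of the block is fixed by the special orthogonal group. -/
theorem FixE48.so (F : Fam48 W V) {J : Matrix m m ℂ} (hJ : Jᵀ = J) (hd : J.det ≠ 0)
    (hk : ∀ X : Matrix m m ℂ, Xᵀ * J + J * X = 0 → dL a b t (lam48 W V s X) = 0)
    {x : Matrix m m ℂ} (hx : xᵀ * J * x = J) (hdet : x.det = 1) : x ∈ FixE48 F s a b t := by
  have hyp48 : ∀ (e f : m → ℂ) (z : ℂ), e ⬝ᵥ (J *ᵥ e) = 0 → f ⬝ᵥ (J *ᵥ f) = 0 → e ⬝ᵥ (J *ᵥ f) = 1 → z ≠ 0 →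
      hyp J e f z ∈ FixE48 F s a b t := by
    intro e f z h1 h2 h3 hz
    have h4 : f ⬝ᵥ (J *ᵥ e) = 1 := by rw [dot_symm hJ, h3]
    have hOP : OP48 (vecMulVec e (J *ᵥ f)) (vecMulVec f (J *ᵥ e)) := by
      refine ⟨?_, ?_, ?_, ?_⟩
      · rw [vmv_mul, dotProduct_comm, h3, one_smul]
      · rw [vmv_mul, dotProduct_comm, h4, one_smul]
      · rw [vmv_mul, dotProduct_comm, h2, zero_smul]
      · rw [vmv_mul, dotProduct_comm, h1, zero_smul]
    refine FixE48.tor F hOP (hk _ ?_) hz
    have hJ' : Jᵀ = (1 : ℂ) • J := by rw [hJ, one_smul]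
    rw [Matrix.transpose_sub, sub_mul, skew48 hJ' (by norm_num), skew48 hJ' (by norm_num), mul_sub, one_smul,
      one_smul]
    abel
  obtain ⟨l, hl, hgl⟩ := refl_gen hJ hd hx
  rw [hgl]
  refine pairs_mem (fun u v ha hb => pair_mem hJ hd hyp48 ha hb) l hl ?_
  have hdl : ∀ l : List (m → ℂ), (∀ u ∈ l, u ⬝ᵥ (J *ᵥ u) ≠ 0) →
      (l.map (refl J)).prod.det = (-1) ^ l.length := by
    intro l
    induction l with
    | nil => intro _; simp
    | cons u l ih =>
      intro h
      rw [List.map_cons, List.prod_cons, Matrix.det_mul, refl_det (h u (by simp)),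
        ih (fun w hw => h w (by simp [hw])), List.length_cons, pow_succ]
      ring
  have h3 := hdl l hl
  rw [← hgl, hdet] at h3
  by_contra hodd
  rw [Nat.not_even_iff_odd] at hodd
  rw [hodd.neg_one_pow] at h3
  norm_num at h3

end fam

end MH
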