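import Pool.Agent.Helper48.GH.Fix3

/-!
Project GH, block H5, last part: a tensor that is killed by the Lie algebra of all matrices that commute with the
semi-invariant matrices, are skew for the semi-invariant forms and have trace zero on all blocks, is fixed by the group of
all invertible matrices that commute with the semi-invariant matrices, preserve the semi-invariant forms and have
determinant one on all irreducible blocks.
-/

set_option linter.unusedSectionVars false
set_option linter.unusedVariables false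

open Matrix

namespace MH

variable {n : Type*} [Fintype n] [DecidableEq n] {m : Type*} [Fintype m] [DecidableEq m]
variable {L : Set (Matrix n n ℂ)} {ι : Type*} [Fintype ι] [DecidableEq ι]

/-- an orthogonal decomposition into irreducible blocks -/
structure Dec48 (L : Set (Matrix n n ℂ)) (e : ι → Matrix n n ℂ) : Prop where
  st : ∀ X ∈ L, Xᴴ ∈ L
  irr : ∀ i, IrrL L (e i)
  herm : ∀ i, (e i)ᴴ = e i
  orth : ∀ i j, i ≠ j → e i * e j = 0
  sum : ∑ i, e i = 1

/-- linked blocks -/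
def Rl48 (L : Set (Matrix n n ℂ)) (e : ι → Matrix n n ℂ) (i j : ι) : Prop :=
  (∃ T, SemT L T ∧ e i * T * e j ≠ 0) ∨ ∃ F, SemB L F ∧ (e i)ᵀ * F * e j ≠ 0

theorem SemB.tr {F : Matrix n n ℂ} (hF : SemB L F) : SemB L Fᵀ := by
  intro X hX
  obtain ⟨c, hc⟩ := hF X hX
  refine ⟨c, ?_⟩
  have h := congrArg Matrix.transpose hc
  rw [Matrix.transpose_add, Matrix.transpose_mul, Matrix.transpose_mul, Matrix.transpose_transpose,
    Matrix.transpose_smul] at h
  rw [← h]
  abel

variable {e : ι → Matrix n n ℂ}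

theorem Dec48.symm (D : Dec48 L e) {i j : ι} (h : Rl48 L e i j) : Rl48 L e j i := by
  rcases h with ⟨T, hT, h0⟩ | ⟨F, hF, h0⟩
  · left
    refine ⟨Tᴴ, hT.star D.st, fun h => h0 ?_⟩
    have h1 := congrArg conjTranspose h
    rw [conjTranspose_mul, conjTranspose_mul, conjTranspose_conjTranspose, D.herm, D.herm, conjTranspose_zero,
      ← mul_assoc] at h1
    exact h1
  · right
    refine ⟨Fᵀ, hF.tr, fun h => h0 ?_⟩
    have h1 := congrArg Matrix.transpose h
    rw [Matrix.transpose_mul, Matrix.transpose_mul, Matrix.transpose_transpose, Matrix.transpose_transpose,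
      Matrix.transpose_zero, ← mul_assoc] at h1
    exact h1

section key

variable {f : Matrix n n ℂ} {W0 : Matrix n m ℂ} {V0 : Matrix m n ℂ}

/-- from the elements of `L` to an element of the Lie algebra of the block, for semi-invariants -/
theorem Co48.key1 (C : Co48 L f W0 V0) (hL : ∀ X ∈ L, Xᴴ ∈ L) (hf : IrrL L f) (hfs : fᴴ = f) {X : Matrix m m ℂ}
    (hX : ∀ β, Frm48 L W0 V0 β → Xᵀ * β + β * X = 0) (s s' : Bool) {τ : Matrix m m ℂ}
    (h : ∀ Z ∈ L, ∃ c : ℂ, li48 s (V0 * Z * W0) * τ - τ * li48 s' (V0 * Z * W0) = c • τ) :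
    li48 s X * τ = τ * li48 s' X := by
  cases s <;> cases s'
  · obtain ⟨c, hc⟩ := C.scal2 hL hf hfs (τ := τ) (by
      intro Z hZ
      obtain ⟨c, hc⟩ := h Z hZ
      refine ⟨-c, ?_⟩
      rw [neg_smul, ← hc]
      simp only [li48, Bool.false_eq_true, if_false, neg_mul, mul_neg]
      abel)
    rw [hc, mul_smul_comm, smul_mul_assoc, mul_one, one_mul]
  · have h1 : Frm48 L W0 V0 τ := by
      intro Z hZ
      obtain ⟨c, hc⟩ := h Z hZ
      refine ⟨-c, ?_⟩
      rw [neg_smul, ← hc]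
      simp only [li48, Bool.false_eq_true, if_false, if_true, neg_mul]
      abel
    have h2 := hX _ h1
    simp only [li48, Bool.false_eq_true, if_false, if_true, neg_mul]
    rw [neg_eq_iff_add_eq_zero]
    exact h2
  · by_cases h0 : τ = 0
    · rw [h0, mul_zero, zero_mul]
    obtain ⟨β, h1, h2, h3⟩ := C.cofrm hL hf hfs (γ := τ) (by
      intro Z hZ
      obtain ⟨c, hc⟩ := h Z hZ
      refine ⟨c, ?_⟩
      rw [← hc]
      simp only [li48, Bool.false_eq_true, if_false, if_true, mul_neg]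
      abel) h0
    have h4 := hX _ h3
    have h5 : X * τ + τ * Xᵀ = 0 := by
      calc X * τ + τ * Xᵀ = (τ * β) * X * τ + τ * Xᵀ * (β * τ) := by rw [h1, h2, one_mul, mul_one]
        _ = τ * (Xᵀ * β + β * X) * τ := by
          rw [mul_add, add_mul]
          simp only [mul_assoc]
          abel
        _ = 0 := by rw [h4, mul_zero, zero_mul]
    simp only [li48, Bool.false_eq_true, if_false, if_true, mul_neg]
    exact eq_neg_of_add_eq_zero_left h5
  · obtain ⟨c, hc⟩ := C.scal1 hL hf hfs (τ := τ) (by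
      intro Z hZ
      obtain ⟨c, hc⟩ := h Z hZ
      exact ⟨c, hc⟩)
    rw [hc, mul_smul_comm, smul_mul_assoc, mul_one, one_mul]

omit [Fintype m] [DecidableEq m] in
theorem li48_tr (s : Bool) (Z : Matrix m m ℂ) : (li48 s Z)ᵀ = -li48 (!s) Z := by
  cases s
  · simp [li48]
  · simp [li48]

/-- from the elements of `L` to an element of the Lie algebra of the block, for semi-invariant forms -/
theorem Co48.key2 (C : Co48 L f W0 V0) (hL : ∀ X ∈ L, Xᴴ ∈ L) (hf : IrrL L f) (hfs : fᴴ = f) {X : Matrix m m ℂ}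
    (hX : ∀ β, Frm48 L W0 V0 β → Xᵀ * β + β * X = 0) (s s' : Bool) {τ : Matrix m m ℂ}
    (h : ∀ Z ∈ L, ∃ c : ℂ, (li48 s (V0 * Z * W0))ᵀ * τ + τ * li48 s' (V0 * Z * W0) = c • τ) :
    (li48 s X)ᵀ * τ + τ * li48 s' X = 0 := by
  have h1 := C.key1 hL hf hfs hX (!s) s' (τ := τ) (by
    intro Z hZ
    obtain ⟨c, hc⟩ := h Z hZ
    refine ⟨-c, ?_⟩
    rw [li48_tr] at hc
    rw [neg_smul, ← hc]
    generalize li48 (!s) (V0 * Z * W0) = A
    generalize li48 s' (V0 * Z * W0) = A'
    rw [neg_mul]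
    abel)
  rw [li48_tr, neg_mul, h1]
  abel

end key

/-- The block class of the base block: coordinates of all blocks linked with it. -/
structure Cls48 (L : Set (Matrix n n ℂ)) (e : ι → Matrix n n ℂ) (i0 : ι) (K : Finset ι) (W0 : Matrix n m ℂ) (V0 : Matrix m n ℂ)
    (s : K → Bool) (W : K → Matrix n m ℂ) (V : K → Matrix m n ℂ) : Prop where
  dec : Dec48 L e
  co : Co48 L (e i0) W0 V0
  nice : ∀ k : K, Nice48 L W0 V0 (s k) (e k) (W k) (V k)
  cl : ∀ i j, Rl48 L e i j → (i ∈ K ↔ j ∈ K)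
  base : ∀ j ∈ K, Rl48 L e j i0
  mem : i0 ∈ K

/-- existence of the class -/
theorem Dec48.exists_cls (D : Dec48 L e) (i0 : ι) : ∃ (r : ℕ) (K : Finset ι) (W0 : Matrix n (Fin r) ℂ)
    (V0 : Matrix (Fin r) n ℂ) (s : K → Bool) (W : K → Matrix n (Fin r) ℂ) (V : K → Matrix (Fin r) n ℂ),
    Cls48 L e i0 K W0 V0 s W V := by
  classical
  obtain ⟨r, W0, V0, hVW, hWV⟩ := exists_coord48 (D.irr i0).idem
  have C0 : Co48 L (e i0) W0 V0 := ⟨(D.irr i0).mem, hVW, hWV⟩
  set K : Finset ι := Finset.univ.filter fun j => ∃ s W V, Nice48 L W0 V0 s (e j) W V with hK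
  have hmem : ∀ j, j ∈ K ↔ ∃ s W V, Nice48 L W0 V0 s (e j) W V := by
    intro j
    rw [hK, Finset.mem_filter]
    simp
  have hex : ∀ k : K, ∃ p : Bool × Matrix n (Fin r) ℂ × Matrix (Fin r) n ℂ, Nice48 L W0 V0 p.1 (e k) p.2.1 p.2.2 := by
    rintro ⟨k, hk⟩
    obtain ⟨s, W, V, h⟩ := (hmem k).1 hk
    exact ⟨⟨s, W, V⟩, h⟩
  choose p hp using hex
  have hcl : ∀ i j, Rl48 L e i j → j ∈ K → i ∈ K := by
    intro i j h hj
    obtain ⟨s, W, V, N⟩ := (hmem j).1 hj
    rw [hmem]
    rcases h with ⟨T, hT, h0⟩ | ⟨F, hF, h0⟩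
    · obtain ⟨W', V', N'⟩ := N.ofT D.st (D.irr i) (D.irr j) (D.herm i) (D.herm j) hT h0
      exact ⟨s, W', V', N'⟩
    · obtain ⟨W', V', N'⟩ := N.ofB D.st (D.irr i) (D.irr j) (D.herm i) (D.herm j) hF h0
      exact ⟨!s, W', V', N'⟩
  refine ⟨r, K, W0, V0, fun k => (p k).1, fun k => (p k).2.1, fun k => (p k).2.2, D, C0, fun k => hp k, ?_, ?_, ?_⟩
  · intro i j h
    exact ⟨fun hi => hcl j i (D.symm h) hi, fun hj => hcl i j h hj⟩
  · intro j hj
    obtain ⟨s, W, V, N⟩ := (hmem j).1 hj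
    have hne : (1 : Matrix (Fin r) (Fin r) ℂ) ≠ 0 := by
      intro h1
      apply (D.irr i0).ne
      rw [← hWV, ← Matrix.mul_one W0, h1, Matrix.mul_zero, Matrix.zero_mul]
    cases s
    · right
      refine ⟨_, N.semB C0, fun h => hne ?_⟩
      have e1 : (e j)ᵀ * (Vᵀ * V0) * e i0 = Vᵀ * V0 := by
        calc (e j)ᵀ * (Vᵀ * V0) * e i0 = (V * e j)ᵀ * (V0 * e i0) := by
              rw [Matrix.transpose_mul V]; simp only [Matrix.mul_assoc]
          _ = _ := by rw [N.co.Ve, C0.Ve]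
      rw [e1] at h
      calc (1 : Matrix (Fin r) (Fin r) ℂ) = (V * W)ᵀ * (V0 * W0) := by
            rw [N.co.one, C0.one, Matrix.transpose_one, Matrix.one_mul]
        _ = Wᵀ * (Vᵀ * V0) * W0 := by rw [Matrix.transpose_mul]; simp only [Matrix.mul_assoc]
        _ = 0 := by rw [h, Matrix.mul_zero, Matrix.zero_mul]
    · left
      refine ⟨_, N.semT C0, fun h => hne ?_⟩
      have e1 : e j * (W * V0) * e i0 = W * V0 := by
        calc e j * (W * V0) * e i0 = (e j * W) * (V0 * e i0) := by simp only [Matrix.mul_assoc]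
          _ = _ := by rw [N.co.eW, C0.Ve]
      rw [e1] at h
      calc (1 : Matrix (Fin r) (Fin r) ℂ) = (V * W) * (V0 * W0) := by
            rw [N.co.one, C0.one, Matrix.one_mul]
        _ = V * (W * V0) * W0 := by simp only [Matrix.mul_assoc]
        _ = 0 := by rw [h, Matrix.mul_zero, Matrix.zero_mul]
  · rw [hmem]
    exact ⟨true, W0, V0, Nice48.refl C0⟩

namespace Cls48

variable {i0 : ι} {K : Finset ι} {W0 : Matrix n m ℂ} {V0 : Matrix m n ℂ} {s : K → Bool} {W : K → Matrix n m ℂ}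
  {V : K → Matrix m n ℂ}

theorem fam (C : Cls48 L e i0 K W0 V0 s W V) : Fam48 W V := by
  refine ⟨fun k => (C.nice k).co.one, fun k l hkl => ?_⟩
  rw [← (C.nice k).co.Ve, ← (C.nice l).co.eW, Matrix.mul_assoc, ← Matrix.mul_assoc (e k) (e l) (W l),
    C.dec.orth k l (fun h => hkl (Subtype.ext h)), Matrix.zero_mul, Matrix.mul_zero]

theorem lam_W (C : Cls48 L e i0 K W0 V0 s W V) (X : Matrix m m ℂ) (k : K) :
    lam48 W V s X * W k = W k * li48 (s k) X := by
  unfold lam48
  rw [Matrix.sum_mul, Finset.sum_eq_single k]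
  · rw [Matrix.mul_assoc, C.fam.one, Matrix.mul_one]
  · intro l _ hl
    rw [Matrix.mul_assoc, C.fam.zero l k hl, Matrix.mul_zero]
  · intro h
    exact absurd (Finset.mem_univ k) h

theorem V_lam (C : Cls48 L e i0 K W0 V0 s W V) (X : Matrix m m ℂ) (k : K) :
    V k * lam48 W V s X = li48 (s k) X * V k := by
  unfold lam48
  rw [Matrix.mul_sum, Finset.sum_eq_single k]
  · rw [← Matrix.mul_assoc, ← Matrix.mul_assoc, C.fam.one, Matrix.one_mul]
  · intro l _ hl
    rw [← Matrix.mul_assoc, ← Matrix.mul_assoc, C.fam.zero k l (Ne.symm hl), Matrix.zero_mul, Matrix.zero_mul]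
  · intro h
    exact absurd (Finset.mem_univ k) h

theorem lam_e (C : Cls48 L e i0 K W0 V0 s W V) (X : Matrix m m ℂ) {i : ι} (hi : i ∉ K) :
    lam48 W V s X * e i = 0 := by
  unfold lam48
  rw [Finset.sum_mul]
  refine Finset.sum_eq_zero fun k _ => ?_
  have h1 : (k : ι) ≠ i := by
    rintro rfl
    exact hi k.2
  rw [← (C.nice k).co.Ve, Matrix.mul_assoc, Matrix.mul_assoc (V k), C.dec.orth k i h1, Matrix.mul_zero,
    Matrix.mul_zero]

theorem e_lam (C : Cls48 L e i0 K W0 V0 s W V) (X : Matrix m m ℂ) {i : ι} (hi : i ∉ K) :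
    e i * lam48 W V s X = 0 := by
  unfold lam48
  rw [Finset.mul_sum]
  refine Finset.sum_eq_zero fun k _ => ?_
  have h1 : i ≠ (k : ι) := by
    rintro rfl
    exact hi k.2
  rw [← (C.nice k).co.eW, ← Matrix.mul_assoc, ← Matrix.mul_assoc, ← Matrix.mul_assoc, C.dec.orth i k h1,
    Matrix.zero_mul, Matrix.zero_mul, Matrix.zero_mul]

private theorem dexp48 (D : Dec48 L e) (T : Matrix n n ℂ) : T = ∑ i, ∑ j, e i * T * e j := by
  calc T = (∑ i, e i) * T * ∑ j, e j := by rw [D.sum, one_mul, mul_one]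
    _ = _ := by
      rw [Finset.sum_mul, Finset.sum_mul]
      exact Finset.sum_congr rfl fun i _ => by rw [Finset.mul_sum]

private theorem dexpT48 (D : Dec48 L e) (F : Matrix n n ℂ) : F = ∑ i, ∑ j, (e i)ᵀ * F * e j := by
  calc F = (∑ i, e i)ᵀ * F * ∑ j, e j := by rw [D.sum, Matrix.transpose_one, one_mul, mul_one]
    _ = _ := by
      rw [Matrix.transpose_sum, Finset.sum_mul, Finset.sum_mul]
      exact Finset.sum_congr rfl fun i _ => by rw [Finset.mul_sum]

theorem lam_T (C : Cls48 L e i0 K W0 V0 s W V) {X : Matrix m m ℂ} (hX : ∀ β, Frm48 L W0 V0 β → Xᵀ * β + β * X = 0)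
    {T : Matrix n n ℂ} (hT : SemT L T) : lam48 W V s X * T = T * lam48 W V s X := by
  have D := C.dec
  have key : ∀ i j, lam48 W V s X * (e i * T * e j) = e i * T * e j * lam48 W V s X := by
    intro i j
    by_cases h0 : e i * T * e j = 0
    · rw [h0, mul_zero, zero_mul]
    have hcl := C.cl i j (Or.inl ⟨T, hT, h0⟩)
    by_cases hi : i ∈ K
    · have hj := hcl.1 hi
      have N := C.nice ⟨i, hi⟩
      have N' := C.nice ⟨j, hj⟩
      have hw := C.lam_W X ⟨i, hi⟩
      have hv := C.V_lam X ⟨j, hj⟩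
      have k1 := C.co.key1 D.st (D.irr i0) (D.herm i0) hX (s ⟨i, hi⟩) (s ⟨j, hj⟩)
        (τ := V ⟨i, hi⟩ * T * W ⟨j, hj⟩) (by
          intro Z hZ
          obtain ⟨c, hc⟩ := hT Z hZ
          obtain ⟨c1, hc1⟩ := N.rel Z hZ
          obtain ⟨c2, hc2⟩ := N'.rel Z hZ
          have v1 := N.co.VX hZ
          have w1 := N'.co.XW hZ
          refine ⟨c - c1 + c2, ?_⟩
          generalize V ⟨i, hi⟩ = Vi at *
          generalize W ⟨j, hj⟩ = Wj at *
          generalize W ⟨i, hi⟩ = Wi at *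
          generalize V ⟨j, hj⟩ = Vj at *
          have e1 : Vi * Z * Wi * (Vi * T * Wj) = Vi * (Z * T) * Wj := by
            calc Vi * Z * Wi * (Vi * T * Wj) = Vi * Z * Wi * Vi * (T * Wj) := by simp only [Matrix.mul_assoc]
              _ = Vi * Z * (T * Wj) := by rw [← v1]
              _ = _ := by simp only [Matrix.mul_assoc]
          have e2 : Vi * T * Wj * (Vj * Z * Wj) = Vi * (T * Z) * Wj := by
            calc Vi * T * Wj * (Vj * Z * Wj) = Vi * T * (Wj * (Vj * Z * Wj)) := by simp only [Matrix.mul_assoc]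
              _ = Vi * T * (Z * Wj) := by rw [← w1]
              _ = _ := by simp only [Matrix.mul_assoc]
          have e3 : li48 (s ⟨i, hi⟩) (V0 * Z * W0) = Vi * Z * Wi - c1 • (1 : Matrix m m ℂ) := by
            rw [hc1]; abel
          have e4 : li48 (s ⟨j, hj⟩) (V0 * Z * W0) = Vj * Z * Wj - c2 • (1 : Matrix m m ℂ) := by
            rw [hc2]; abel
          rw [e3, e4, Matrix.sub_mul, Matrix.mul_sub, e1, e2, Matrix.smul_mul, Matrix.one_mul, Matrix.mul_smul,
            Matrix.mul_one, add_smul, sub_smul]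
          have e5 : c • (Vi * T * Wj) = Vi * (Z * T) * Wj - Vi * (T * Z) * Wj := by
            rw [← Matrix.sub_mul, ← Matrix.mul_sub, hc, Matrix.mul_smul, Matrix.smul_mul]
          rw [e5]
          abel)
      have n1 := N.co.ev
      have n2 := N'.co.ev
      change W ⟨i, hi⟩ * V ⟨i, hi⟩ = e i at n1
      change W ⟨j, hj⟩ * V ⟨j, hj⟩ = e j at n2
      calc lam48 W V s X * (e i * T * e j) =
          (lam48 W V s X * W ⟨i, hi⟩) * (V ⟨i, hi⟩ * T * W ⟨j, hj⟩) * V ⟨j, hj⟩ := by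
            rw [← n1, ← n2]; simp only [Matrix.mul_assoc]
        _ = W ⟨i, hi⟩ * (li48 (s ⟨i, hi⟩) X * (V ⟨i, hi⟩ * T * W ⟨j, hj⟩)) * V ⟨j, hj⟩ := by
            rw [hw]; simp only [Matrix.mul_assoc]
        _ = W ⟨i, hi⟩ * (V ⟨i, hi⟩ * T * W ⟨j, hj⟩) * (li48 (s ⟨j, hj⟩) X * V ⟨j, hj⟩) := by
            rw [k1]; simp only [Matrix.mul_assoc]
        _ = e i * T * e j * lam48 W V s X := by
            rw [← hv, ← n1, ← n2]; simp only [Matrix.mul_assoc]
    · have hj : j ∉ K := fun h => hi (hcl.2 h)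
      rw [← mul_assoc, ← mul_assoc, C.lam_e X hi, zero_mul, zero_mul, mul_assoc, C.e_lam X hj, mul_zero]
  rw [dexp48 D T, Finset.mul_sum, Finset.sum_mul]
  refine Finset.sum_congr rfl fun i _ => ?_
  rw [Finset.mul_sum, Finset.sum_mul]
  exact Finset.sum_congr rfl fun j _ => key i j

theorem lam_B (C : Cls48 L e i0 K W0 V0 s W V) {X : Matrix m m ℂ} (hX : ∀ β, Frm48 L W0 V0 β → Xᵀ * β + β * X = 0)
    {F : Matrix n n ℂ} (hF : SemB L F) : (lam48 W V s X)ᵀ * F + F * lam48 W V s X = 0 := by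
  have D := C.dec
  have key : ∀ i j, (lam48 W V s X)ᵀ * ((e i)ᵀ * F * e j) + (e i)ᵀ * F * e j * lam48 W V s X = 0 := by
    intro i j
    by_cases h0 : (e i)ᵀ * F * e j = 0
    · rw [h0, mul_zero, zero_mul, add_zero]
    have hcl := C.cl i j (Or.inr ⟨F, hF, h0⟩)
    by_cases hi : i ∈ K
    · have hj := hcl.1 hi
      have N := C.nice ⟨i, hi⟩
      have N' := C.nice ⟨j, hj⟩
      have hw := C.V_lam X ⟨i, hi⟩
      have hv := C.V_lam X ⟨j, hj⟩
      have k1 := C.co.key2 D.st (D.irr i0) (D.herm i0) hX (s ⟨i, hi⟩) (s ⟨j, hj⟩)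
        (τ := (W ⟨i, hi⟩)ᵀ * F * W ⟨j, hj⟩) (by
          intro Z hZ
          obtain ⟨c, hc⟩ := hF Z hZ
          obtain ⟨c1, hc1⟩ := N.rel Z hZ
          obtain ⟨c2, hc2⟩ := N'.rel Z hZ
          have v1 := N.co.XW hZ
          have w1 := N'.co.XW hZ
          refine ⟨c - c1 - c2, ?_⟩
          generalize V ⟨i, hi⟩ = Vi at *
          generalize W ⟨j, hj⟩ = Wj at *
          generalize W ⟨i, hi⟩ = Wi at *
          generalize V ⟨j, hj⟩ = Vj at *
          have e1 : (Vi * Z * Wi)ᵀ * (Wiᵀ * F * Wj) = Wiᵀ * (Zᵀ * F) * Wj := by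
            calc (Vi * Z * Wi)ᵀ * (Wiᵀ * F * Wj) = (Wi * (Vi * Z * Wi))ᵀ * (F * Wj) := by
                  rw [Matrix.transpose_mul Wi]; simp only [Matrix.mul_assoc]
              _ = (Z * Wi)ᵀ * (F * Wj) := by rw [← v1]
              _ = _ := by rw [Matrix.transpose_mul]; simp only [Matrix.mul_assoc]
          have e2 : Wiᵀ * F * Wj * (Vj * Z * Wj) = Wiᵀ * (F * Z) * Wj := by
            calc Wiᵀ * F * Wj * (Vj * Z * Wj) = Wiᵀ * F * (Wj * (Vj * Z * Wj)) := by simp only [Matrix.mul_assoc]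
              _ = Wiᵀ * F * (Z * Wj) := by rw [← w1]
              _ = _ := by simp only [Matrix.mul_assoc]
          have e3 : li48 (s ⟨i, hi⟩) (V0 * Z * W0) = Vi * Z * Wi - c1 • (1 : Matrix m m ℂ) := by
            rw [hc1]; abel
          have e4 : li48 (s ⟨j, hj⟩) (V0 * Z * W0) = Vj * Z * Wj - c2 • (1 : Matrix m m ℂ) := by
            rw [hc2]; abel
          rw [e3, e4, Matrix.transpose_sub, Matrix.transpose_smul, Matrix.transpose_one, Matrix.sub_mul,
            Matrix.mul_sub, e1, e2, Matrix.smul_mul, Matrix.one_mul, Matrix.mul_smul, Matrix.mul_one, sub_smul,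
            sub_smul]
          have e5 : c • (Wiᵀ * F * Wj) = Wiᵀ * (Zᵀ * F) * Wj + Wiᵀ * (F * Z) * Wj := by
            rw [← Matrix.add_mul, ← Matrix.mul_add, hc, Matrix.mul_smul, Matrix.smul_mul]
          rw [e5]
          abel)
      have n1 := N.co.ev
      have n2 := N'.co.ev
      change W ⟨i, hi⟩ * V ⟨i, hi⟩ = e i at n1
      change W ⟨j, hj⟩ * V ⟨j, hj⟩ = e j at n2
      have f1 : (lam48 W V s X)ᵀ * ((e i)ᵀ * F * e j) =
          (V ⟨i, hi⟩)ᵀ * ((li48 (s ⟨i, hi⟩) X)ᵀ * ((W ⟨i, hi⟩)ᵀ * F * W ⟨j, hj⟩)) * V ⟨j, hj⟩ := by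
        calc (lam48 W V s X)ᵀ * ((e i)ᵀ * F * e j) =
            (W ⟨i, hi⟩ * (V ⟨i, hi⟩ * lam48 W V s X))ᵀ * F * W ⟨j, hj⟩ * V ⟨j, hj⟩ := by
              rw [← n1, ← n2, ← Matrix.mul_assoc (W ⟨i, hi⟩) (V ⟨i, hi⟩) (lam48 W V s X),
                Matrix.transpose_mul (W ⟨i, hi⟩ * V ⟨i, hi⟩) (lam48 W V s X)]
              simp only [Matrix.mul_assoc]
          _ = _ := by
              rw [hw, Matrix.transpose_mul, Matrix.transpose_mul]; simp only [Matrix.mul_assoc]
      have f2 : (e i)ᵀ * F * e j * lam48 W V s X =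
          (V ⟨i, hi⟩)ᵀ * (((W ⟨i, hi⟩)ᵀ * F * W ⟨j, hj⟩) * li48 (s ⟨j, hj⟩) X) * V ⟨j, hj⟩ := by
        calc (e i)ᵀ * F * e j * lam48 W V s X =
            (V ⟨i, hi⟩)ᵀ * ((W ⟨i, hi⟩)ᵀ * F * W ⟨j, hj⟩) * (V ⟨j, hj⟩ * lam48 W V s X) := by
              rw [← n1, ← n2, Matrix.transpose_mul]; simp only [Matrix.mul_assoc]
          _ = _ := by rw [hv]; simp only [Matrix.mul_assoc]
      rw [f1, f2, ← Matrix.add_mul, ← Matrix.mul_add, k1, Matrix.mul_zero, Matrix.zero_mul]
    · have hj : j ∉ K := fun h => hi (hcl.2 h)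
      have h1 : (lam48 W V s X)ᵀ * ((e i)ᵀ * F * e j) = 0 := by
        calc (lam48 W V s X)ᵀ * ((e i)ᵀ * F * e j) = (e i * lam48 W V s X)ᵀ * F * e j := by
              rw [Matrix.transpose_mul]; simp only [Matrix.mul_assoc]
          _ = 0 := by rw [C.e_lam X hi, Matrix.transpose_zero, zero_mul, zero_mul]
      rw [h1, mul_assoc, C.e_lam X hj, mul_zero, add_zero]
  rw [dexpT48 D F, Finset.mul_sum, Finset.sum_mul, ← Finset.sum_add_distrib]
  refine Finset.sum_eq_zero fun i _ => ?_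
  rw [Finset.mul_sum, Finset.sum_mul, ← Finset.sum_add_distrib]
  exact Finset.sum_eq_zero fun j _ => key i j

theorem lam_tr (C : Cls48 L e i0 K W0 V0 s W V) {X : Matrix m m ℂ} (hX : X.trace = 0)
    {f : Matrix n n ℂ} (hf : Com L f) : (lam48 W V s X * f).trace = 0 := by
  have D := C.dec
  unfold lam48
  rw [Finset.sum_mul, Matrix.trace_sum]
  refine Finset.sum_eq_zero fun k _ => ?_
  have N := C.nice k
  obtain ⟨c, hc⟩ := N.co.scal1 D.st (D.irr k) (D.herm k) (τ := V k * f * W k) (by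
    intro Z hZ
    refine ⟨0, ?_⟩
    have e1 : V k * Z * W k * (V k * f * W k) = V k * (Z * f) * W k := by
      calc V k * Z * W k * (V k * f * W k) = V k * Z * W k * V k * (f * W k) := by simp only [Matrix.mul_assoc]
        _ = V k * Z * (f * W k) := by rw [← N.co.VX hZ]
        _ = _ := by simp only [Matrix.mul_assoc]
    have e2 : V k * f * W k * (V k * Z * W k) = V k * (f * Z) * W k := by
      calc V k * f * W k * (V k * Z * W k) = V k * f * (W k * (V k * Z * W k)) := by simp only [Matrix.mul_assoc]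
        _ = V k * f * (Z * W k) := by rw [← N.co.XW hZ]
        _ = _ := by simp only [Matrix.mul_assoc]
    rw [e1, e2, hf Z hZ, sub_self, zero_smul])
  have e1 : (W k * li48 (s k) X * V k * f).trace = (li48 (s k) X * (V k * f * W k)).trace := by
    calc (W k * li48 (s k) X * V k * f).trace = (W k * (li48 (s k) X * V k * f)).trace := by
          simp only [Matrix.mul_assoc]
      _ = (li48 (s k) X * V k * f * W k).trace := Matrix.trace_mul_comm _ _
      _ = _ := by simp only [Matrix.mul_assoc]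
  rw [e1, hc, Matrix.mul_smul, Matrix.mul_one, Matrix.trace_smul]
  have e2 : (li48 (s k) X).trace = 0 := by
    unfold li48
    split_ifs
    · exact hX
    · rw [Matrix.trace_neg, Matrix.trace_transpose, hX, neg_zero]
  rw [e2, smul_zero]

/-- the group element on the blocks of the class fixes the tensor -/
theorem fix (C : Cls48 L e i0 K W0 V0 s W V) {a b : ℕ} {t : (Fin a ⊕ Fin b → n) → ℂ}
    (hk : ∀ X : Matrix n n ℂ, (∀ T, SemT L T → X * T = T * X) → (∀ F, SemB L F → Xᵀ * F + F * X = 0) →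
      (∀ f, Com L f → (X * f).trace = 0) → dL a b t X = 0)
    {g gi : Matrix n n ℂ} (hgi : g * gi = 1) (hT : ∀ T, SemT L T → g * T = T * g)
    (hB : ∀ F, SemB L F → gᵀ * F * g = F) (hdet : ∀ i, (g * e i + (1 - e i)).det = 1) :
    1 + (g - 1) * ∑ k ∈ K, e k ∈ Fixm61 a b t := by
  have D := C.dec
  have hge : ∀ i, g * e i = e i * g := fun i => hT _ (D.irr i).mem.semT
  have h1 : (V0 * g * W0) * (V0 * gi * W0) = 1 := by
    calc (V0 * g * W0) * (V0 * gi * W0) = V0 * (g * e i0) * gi * W0 := by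
          rw [← C.co.ev]; simp only [Matrix.mul_assoc]
      _ = (V0 * e i0) * (g * gi) * W0 := by rw [hge]; simp only [Matrix.mul_assoc]
      _ = 1 := by rw [C.co.Ve, hgi, Matrix.mul_one, C.co.one]
  have hact : ∀ k : K, V k * g * W k = gp48 (s k) (V0 * g * W0) (V0 * gi * W0) := fun k =>
    (C.nice k).act C.co hT hB h1
  have hd0 : (V0 * g * W0).det = 1 := by
    have h2 := hdet i0
    have e1 : g * e i0 + (1 - e i0) = 1 + ((g - 1) * W0) * V0 := by
      rw [← C.co.ev, Matrix.sub_mul, Matrix.one_mul, Matrix.sub_mul]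
      simp only [Matrix.mul_assoc]
      abel
    rw [e1, Matrix.det_one_add_mul_comm] at h2
    have e2 : 1 + V0 * ((g - 1) * W0) = V0 * g * W0 := by
      rw [Matrix.sub_mul, Matrix.mul_sub, Matrix.one_mul, C.co.one]
      simp only [Matrix.mul_assoc]
      abel
    rwa [e2] at h2
  -- the block element
  have hmem : V0 * g * W0 ∈ FixE48 C.fam s a b t := by
    have hkill : ∀ X : Matrix m m ℂ, X.trace = 0 → (∀ β, Frm48 L W0 V0 β → Xᵀ * β + β * X = 0) →
        dL a b t (lam48 W V s X) = 0 := fun X hX1 hX2 =>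
      hk _ (fun T hT' => C.lam_T hX2 hT') (fun F hF => C.lam_B hX2 hF) (fun f hf => C.lam_tr hX1 hf)
    by_cases hfrm : ∃ β, Frm48 L W0 V0 β ∧ β ≠ 0
    · obtain ⟨β, hβ, h0⟩ := hfrm
      obtain ⟨γ, hγβ, hβγ, hγ⟩ := C.co.frm_inv D.st (D.irr i0) (D.herm i0) hβ h0
      have hdβ : β.det ≠ 0 := by
        intro hz
        have h2 := congrArg Matrix.det hγβ
        rw [Matrix.det_mul, hz, mul_zero, Matrix.det_one] at h2
        exact zero_ne_one h2
      have hsk : ∀ X : Matrix m m ℂ, Xᵀ * β + β * X = 0 → dL a b t (lam48 W V s X) = 0 := by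
        intro X hX
        refine hkill X ?_ ?_
        · have e1 : X = -(γ * Xᵀ * β) := by
            calc X = γ * β * X := by rw [hγβ, one_mul]
              _ = γ * (Xᵀ * β + β * X) - γ * Xᵀ * β := by
                rw [mul_add]
                simp only [mul_assoc]
                abel
              _ = _ := by rw [hX, mul_zero, zero_sub]
          have e2 := congrArg Matrix.trace e1
          rw [Matrix.trace_neg, mul_assoc, Matrix.trace_mul_comm γ, mul_assoc, hβγ, mul_one,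
            Matrix.trace_transpose] at e2
          have e3 : (2 : ℂ) * X.trace = 0 := by linear_combination e2
          exact (mul_eq_zero.1 e3).resolve_left two_ne_zero
        · intro β' hβ'
          obtain ⟨c, hc⟩ := C.co.frm_uniq D.st (D.irr i0) (D.herm i0) hβ h0 hβ'
          rw [hc, mul_smul_comm, smul_mul_assoc, ← smul_add, hX, smul_zero]
      have hpres : (V0 * g * W0)ᵀ * β * (V0 * g * W0) = β := by
        have h2 := hB _ (C.co.frm_semB hβ)
        calc (V0 * g * W0)ᵀ * β * (V0 * g * W0) = W0ᵀ * (gᵀ * (V0ᵀ * β * V0) * g) * W0 := by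
              rw [Matrix.transpose_mul, Matrix.transpose_mul]; simp only [Matrix.mul_assoc]
          _ = (V0 * W0)ᵀ * β * (V0 * W0) := by
              rw [h2, Matrix.transpose_mul]; simp only [Matrix.mul_assoc]
          _ = β := by rw [C.co.one, Matrix.transpose_one, Matrix.one_mul, Matrix.mul_one]
      rcases C.co.frm_symm D.st (D.irr i0) (D.herm i0) hβ h0 with hs | hs
      · exact FixE48.so C.fam hs hdβ hsk hpres hd0
      · exact FixE48.sp C.fam hs hdβ hsk hpres
    · push Not at hfrm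
      refine FixE48.sl C.fam (fun X hX => hkill X hX fun β hβ => ?_) hd0
      rw [hfrm β hβ, mul_zero, zero_mul, add_zero]
  have h3 := FixE48.emb hmem h1
  have e1 : emb48 W V s (V0 * g * W0) (V0 * gi * W0) = 1 + (g - 1) * ∑ k ∈ K, e k := by
    unfold emb48
    congr 1
    rw [Finset.mul_sum, ← Finset.sum_coe_sort K (fun k => (g - 1) * e k)]
    refine Finset.sum_congr rfl fun k _ => ?_
    have N := C.nice k
    rw [← hact k, Matrix.mul_sub, Matrix.sub_mul, Matrix.mul_one, N.co.ev, Matrix.sub_mul, Matrix.one_mul]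
    congr 1
    calc W k * (V k * g * W k) * V k = (W k * V k) * g * (W k * V k) := by simp only [Matrix.mul_assoc]
      _ = e k * g * e k := by rw [N.co.ev]
      _ = g * e k := by rw [← hge, mul_assoc, (D.irr k).idem]
  rw [← e1]
  exact h3

end Cls48

/-- **The assembly over the blocks.** -/
theorem Dec48.fix (D : Dec48 L e) {a b : ℕ} {t : (Fin a ⊕ Fin b → n) → ℂ}
    (hk : ∀ X : Matrix n n ℂ, (∀ T, SemT L T → X * T = T * X) → (∀ F, SemB L F → Xᵀ * F + F * X = 0) →
      (∀ f, Com L f → (X * f).trace = 0) → dL a b t X = 0)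
    {g gi : Matrix n n ℂ} (hgi : g * gi = 1) (hT : ∀ T, SemT L T → g * T = T * g)
    (hB : ∀ F, SemB L F → gᵀ * F * g = F) (hdet : ∀ i, (g * e i + (1 - e i)).det = 1) : g ∈ Fixm61 a b t := by
  classical
  have hge : ∀ i, g * e i = e i * g := fun i => hT _ (D.irr i).mem.semT
  have hgs : ∀ K : Finset ι, g * ∑ k ∈ K, e k = (∑ k ∈ K, e k) * g := by
    intro K
    rw [Finset.mul_sum, Finset.sum_mul]
    exact Finset.sum_congr rfl fun k _ => hge k
  have key : ∀ (N : ℕ) (S : Finset ι), S.card ≤ N → (∀ i j, Rl48 L e i j → (i ∈ S ↔ j ∈ S)) →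
      1 + (g - 1) * ∑ k ∈ S, e k ∈ Fixm61 a b t := by
    intro N
    induction N with
    | zero =>
      intro S hS _
      rw [Finset.card_eq_zero.1 (Nat.le_zero.1 hS), Finset.sum_empty, mul_zero, add_zero]
      exact Submonoid.one_mem _
    | succ N ih =>
      intro S hS hcl
      rcases S.eq_empty_or_nonempty with hS0 | ⟨i0, hi0⟩
      · rw [hS0, Finset.sum_empty, mul_zero, add_zero]
        exact Submonoid.one_mem _
      obtain ⟨r, K, W0, V0, s, W, V, C⟩ := D.exists_cls i0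
      have hKS : K ⊆ S := by
        intro j hj
        exact (hcl j i0 (C.base j hj)).2 hi0
      have h1 := C.fix hk hgi hT hB hdet
      have hcard : (S \ K).card ≤ N := by
        have h2 : (S \ K).card < S.card := by
          apply Finset.card_lt_card
          refine ⟨Finset.sdiff_subset, fun h => ?_⟩
          have h3 := h hi0
          rw [Finset.mem_sdiff] at h3
          exact h3.2 C.mem
        omega
      have h2 := ih (S \ K) hcard (by
        intro i j h
        rw [Finset.mem_sdiff, Finset.mem_sdiff, hcl i j h, C.cl i j h])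
      have h3 := Submonoid.mul_mem _ h1 h2
      have e0 : (∑ k ∈ K, e k) * ∑ k ∈ S \ K, e k = 0 := by
        rw [Finset.sum_mul]
        refine Finset.sum_eq_zero fun i hi => ?_
        rw [Finset.mul_sum]
        refine Finset.sum_eq_zero fun j hj => ?_
        rw [Finset.mem_sdiff] at hj
        apply D.orth
        rintro rfl
        exact hj.2 hi
      have e1 : (1 + (g - 1) * ∑ k ∈ K, e k) * (1 + (g - 1) * ∑ k ∈ S \ K, e k) =
          1 + (g - 1) * ∑ k ∈ S, e k := by
        have e2 : (g - 1) * (∑ k ∈ K, e k) * ((g - 1) * ∑ k ∈ S \ K, e k) = 0 := by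
          have e3 : (∑ k ∈ K, e k) * (g - 1) = (g - 1) * ∑ k ∈ K, e k := by
            rw [mul_sub, sub_mul, hgs, mul_one, one_mul]
          calc (g - 1) * (∑ k ∈ K, e k) * ((g - 1) * ∑ k ∈ S \ K, e k) =
              (g - 1) * ((∑ k ∈ K, e k) * (g - 1)) * ∑ k ∈ S \ K, e k := by simp only [mul_assoc]
            _ = (g - 1) * (g - 1) * ((∑ k ∈ K, e k) * ∑ k ∈ S \ K, e k) := by
              rw [e3]; simp only [mul_assoc]
            _ = 0 := by rw [e0, mul_zero]
        have e4 : ∀ A B : Matrix n n ℂ, A * B = 0 → (1 + A) * (1 + B) = 1 + (B + A) := by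
          intro A B hAB
          rw [add_mul, one_mul, mul_add, mul_one, hAB]
          abel
        rw [← Finset.sum_sdiff hKS, mul_add (g - 1), e4 _ _ e2]
      rw [e1] at h3
      exact h3
  have h1 := key _ Finset.univ le_rfl (fun i j _ => by simp)
  rw [D.sum, mul_one, add_sub_cancel] at h1
  exact h1

end MH
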