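import Pool.Agent.Helper48.GH.GalDefs
import Pool.Agent.Helper24.TR.Gal

/-!
Project GH, l-adic side: first consequences of the definitions. The Lie algebra `LG Γ` contains the Hodge-Tate element and
commutes with the endomorphisms of the Hodge structure.
-/

set_option linter.unusedSectionVars false

open Matrix GH

namespace MH

variable {n : Type*} [Fintype n] [DecidableEq n]
variable {w : ℤ} {Q : Matrix n n ℚ} {S : Finset ℤ} {P : ℤ → Matrix n n ℂ} {Γ : Subgroup (GL n ℂ)}

/-- B0: the Hodge-Tate element -/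
theorem IsHTw.hR_mem {S' : Finset ℤ} {R : ℤ → Matrix n n ℂ} (G : IsHTw w Q S' Γ R) : hR S' R ∈ LG Γ := by
  intro a b t ht
  have h1 : Idm S' R := ⟨G.mul, G.sum⟩
  exact (h1.inv_iff a b t).1 (G.ht a b t ht)

theorem IsGalW.centEC (G : IsGalW w Q S P Γ) : CentEC P Γ :=
  ⟨fun Γ' h T hT => G.cent Γ' h.1 h.2 T hT, by
    obtain ⟨Γ', h1, h2, h3⟩ := G.comm
    exact ⟨Γ', ⟨h1, h2⟩, h3⟩⟩

/-- the elements of `LG` commute with the endomorphisms -/
theorem IsGalW.LG_EC (G : IsGalW w Q S P Γ) {X x : Matrix n n ℂ} (hX : X ∈ LG Γ) (hx : x ∈ EC P) : X * x = x * X :=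
  MH.LG_EC G.centEC hX hx

/-- the Hodge-Tate projections commute with the endomorphisms -/
theorem IsGalW.R_EC (G : IsGalW w Q S P Γ) {S' : Finset ℤ} {R : ℤ → Matrix n n ℂ} (hRG : IsHTw w Q S' Γ R)
    {x : Matrix n n ℂ} (hx : x ∈ EC P) (p : ℤ) : R p * x = x * R p := by
  classical
  set h := hR S' R with hh
  have hc : h * x = x * h := G.LG_EC hRG.hR_mem hx
  have hl : ∀ q, R q * h = (q : ℂ) • R q := by
    intro q
    by_cases hq : q ∈ S'
    · rw [hh, hR, Finset.mul_sum, Finset.sum_eq_single q]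
      · rw [mul_smul_comm, hRG.mul, if_pos rfl]
      · intro r _ hr
        rw [mul_smul_comm, hRG.mul, if_neg (Ne.symm hr), smul_zero]
      · exact fun h => absurd hq h
    · rw [hRG.supp q hq, zero_mul, smul_zero]
  have hr : ∀ q, h * R q = (q : ℂ) • R q := by
    intro q
    by_cases hq : q ∈ S'
    · rw [hh, hR, Finset.sum_mul, Finset.sum_eq_single q]
      · rw [smul_mul_assoc, hRG.mul, if_pos rfl]
      · intro r _ hr
        rw [smul_mul_assoc, hRG.mul, if_neg hr, smul_zero]
      · exact fun h => absurd hq h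
    · rw [hRG.supp q hq, mul_zero, smul_zero]
  have hz : ∀ q r, q ≠ r → R q * x * R r = 0 := by
    intro q r hqr
    have h1 : R q * (h * x) * R r = R q * (x * h) * R r := by rw [hc]
    have h2 : (q : ℂ) • (R q * x * R r) = (r : ℂ) • (R q * x * R r) := by
      calc (q : ℂ) • (R q * x * R r) = R q * h * x * R r := by
            rw [hl, smul_mul_assoc, smul_mul_assoc]
        _ = R q * (h * x) * R r := by simp only [mul_assoc]
        _ = R q * (x * h) * R r := h1
        _ = R q * x * (h * R r) := by simp only [mul_assoc]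
        _ = (r : ℂ) • (R q * x * R r) := by rw [hr, mul_smul_comm]
    have h3 : ((q : ℂ) - (r : ℂ)) • (R q * x * R r) = 0 := by rw [sub_smul, h2, sub_self]
    rcases smul_eq_zero.mp h3 with h4 | h4
    · exact absurd (by exact_mod_cast sub_eq_zero.mp h4) hqr
    · exact h4
  by_cases hp : p ∈ S'
  · calc R p * x = R p * x * ∑ q ∈ S', R q := by rw [hRG.sum, mul_one]
      _ = R p * x * R p := by
          rw [Finset.mul_sum, Finset.sum_eq_single p]
          · intro q _ hq
            exact hz p q (Ne.symm hq)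
          · exact fun h => absurd hp h
      _ = (∑ q ∈ S', R q) * x * R p := by
          rw [Finset.sum_mul, Finset.sum_mul, Finset.sum_eq_single p]
          · intro q _ hq
            exact hz q p hq
          · exact fun h => absurd hp h
      _ = x * R p := by rw [hRG.sum, one_mul]
  · rw [hRG.supp p hp, zero_mul, mul_zero]

/-- `LG` is closed under brackets -/
theorem LG_br48 {X Y : Matrix n n ℂ} (hX : X ∈ LG Γ) (hY : Y ∈ LG Γ) : X * Y - Y * X ∈ LG Γ := by
  intro a b t ht
  rw [dL_bracket, hY a b t ht, hX a b t ht, dact_zero, dact_zero, sub_zero]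

section spec

variable {k : Type*} [Fintype k] [DecidableEq k] {A : ℤ → Matrix k k ℂ} {S' : Finset ℤ}

/-- the spectral projections of `∑ (p - c) • A p` for a real number `c` -/
noncomputable def spR (A : ℤ → Matrix k k ℂ) (S' : Finset ℤ) (c μ : ℝ) : Matrix k k ℂ :=
  ∑ p ∈ S'.filter (fun p : ℤ => ((p : ℝ) - c) = μ), A p

theorem spR_eq (hs : ∀ p, p ∉ S' → A p = 0) (c : ℝ) (p : ℤ) : spR A S' c ((p : ℝ) - c) = A p := by
  unfold spR
  by_cases hp : p ∈ S'
  · rw [Finset.sum_eq_single p]
    · intro q hq hqp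
      rw [Finset.mem_filter] at hq
      exfalso
      apply hqp
      have h1 : (q : ℝ) = p := by linarith [hq.2]
      exact_mod_cast h1
    · intro h
      apply absurd _ h
      rw [Finset.mem_filter]
      exact ⟨hp, rfl⟩
  · rw [hs p hp]
    refine Finset.sum_eq_zero fun q hq => ?_
    rw [Finset.mem_filter] at hq
    have h1 : (q : ℝ) = p := by linarith [hq.2]
    have h2 : q = p := by exact_mod_cast h1
    exact absurd (h2 ▸ hq.1) hp

theorem spR_zero {c μ : ℝ} (hμ : ∀ p ∈ S', ((p : ℝ) - c) ≠ μ) : spR A S' c μ = 0 := by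
  unfold spR
  refine Finset.sum_eq_zero fun q hq => ?_
  rw [Finset.mem_filter] at hq
  exact absurd hq.2 (hμ q hq.1)

theorem spR_sd (hmul : ∀ p q, A p * A q = if p = q then A p else 0) (hsum : ∑ p ∈ S', A p = 1)
    (hs : ∀ p, p ∉ S' → A p = 0) (c : ℝ) :
    SD ((∑ p ∈ S', (p : ℂ) • A p) - (c : ℂ) • (1 : Matrix k k ℂ)) (spR A S' c)
      (S'.image fun p : ℤ => ((p : ℝ) - c)) := by
  have hinj : ∀ p ∈ S', ∀ q ∈ S', ((p : ℝ) - c) = ((q : ℝ) - c) → p = q := by
    intro p _ q _ h
    have h1 : (p : ℝ) = q := by linarith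
    exact_mod_cast h1
  refine ⟨?_, ?_, ?_⟩
  · intro μ ν
    by_cases hμ : ∃ p ∈ S', ((p : ℝ) - c) = μ
    · obtain ⟨p, hp, rfl⟩ := hμ
      by_cases hν : ∃ q ∈ S', ((q : ℝ) - c) = ν
      · obtain ⟨q, hq, rfl⟩ := hν
        rw [spR_eq hs, spR_eq hs, hmul]
        by_cases hpq : p = q
        · rw [if_pos hpq, if_pos (by rw [hpq])]
        · rw [if_neg hpq, if_neg (fun h => hpq (hinj p hp q hq h))]
      · push Not at hν
        rw [spR_zero hν, mul_zero, if_neg]
        exact hν p hp
    · push Not at hμ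
      rw [spR_zero hμ, zero_mul]
      split_ifs <;> rfl
  · rw [Finset.sum_image hinj, ← hsum]
    exact Finset.sum_congr rfl fun p _ => spR_eq hs c p
  · rw [Finset.sum_image hinj]
    have h1 : (c : ℂ) • (1 : Matrix k k ℂ) = ∑ p ∈ S', (c : ℂ) • A p := by
      rw [← Finset.smul_sum, hsum]
    rw [h1, ← Finset.sum_sub_distrib]
    refine Finset.sum_congr rfl fun p _ => ?_
    rw [spR_eq hs, ← sub_smul]
    push_cast
    rfl

end spec

end MH
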