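import Pool.Agent.Helper48.GH.GalE1

/-!
Project GH, l-adic side: an operator with all the symmetries is in `LG`.
-/

set_option linter.unusedSectionVars false

open Matrix GH

namespace MH

variable {n : Type*} [Fintype n] [DecidableEq n]
variable {w : ℤ} {Q : Matrix n n ℚ} {S : Finset ℤ} {P : ℤ → Matrix n n ℂ} {Γ : Subgroup (GL n ℂ)}

/-- everything commutes with a diagonal of blocks up to coordinates -/
theorem xW48 {e : Matrix n n ℂ} {r : ℕ} {W : Matrix n (Fin r) ℂ} {V : Matrix (Fin r) n ℂ} (hVW : V * W = 1)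
    (hWV : W * V = e) {x : Matrix n n ℂ} (hx : x * e = e * x) : x * W = W * (V * x * W) := by
  calc x * W = x * (e * W) := by rw [eW48 hVW hWV]
    _ = e * x * W := by rw [← Matrix.mul_assoc, hx]
    _ = W * (V * x * W) := by rw [← hWV]; simp only [Matrix.mul_assoc]

theorem Vx48 {e : Matrix n n ℂ} {r : ℕ} {W : Matrix n (Fin r) ℂ} {V : Matrix (Fin r) n ℂ} (hVW : V * W = 1)
    (hWV : W * V = e) {x : Matrix n n ℂ} (hx : x * e = e * x) : V * x = V * x * W * V := by
  calc V * x = V * e * x := by rw [Ve48 hVW hWV]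
    _ = V * (x * e) := by rw [hx, Matrix.mul_assoc]
    _ = V * x * W * V := by rw [← hWV]; simp only [Matrix.mul_assoc]

section inv

variable (H : IsHW w Q S P) (G : IsGalW w Q S P Γ)
include H G

/-- semi-invariant operators have left inverses on the blocks -/
theorem IsGalW.hinv {e : Matrix n n ℂ} (he : IsBlk P e) {T : Matrix n n ℂ} (hT : Sem (brk (LG Γ)) T) (h0 : T * e ≠ 0) :
    ∃ T', T' * (T * e) = e := by
  obtain ⟨r, W, V, hVW, hWV⟩ := exists_coord48 he.idem
  have h1 : T * W ≠ 0 := by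
    intro h
    apply h0
    rw [← hWV, ← Matrix.mul_assoc, h, Matrix.zero_mul]
  obtain ⟨s, hs⟩ := exists_left48 (T * W) (ker_inj48
    (K := {p : Matrix (Fin r) (Fin r) ℂ × Matrix (Fin r) (Fin r) ℂ | ∃ y ∈ brk (LG Γ), p = (V * y * W, V * y * W)})
    (by
      intro U hU
      refine G.irr_brk H he hVW hWV U ?_
      intro y hy u hu
      exact hU _ ⟨y, hy, rfl⟩ u hu) h1 (by
      rintro _ ⟨y, hy, rfl⟩
      obtain ⟨c, hc⟩ := hT y hy
      refine ⟨y - c • 1, ?_⟩
      have hye := G.LG_EC (LG_brk_le48 hy) he.mem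
      have h2 : T * W * (V * y * W) = T * (y * W) := by rw [xW48 hVW hWV hye, Matrix.mul_assoc T W]
      change T * W * (V * y * W) = _
      rw [h2, Matrix.sub_mul, Matrix.smul_mul, Matrix.one_mul, ← Matrix.mul_assoc, ← Matrix.mul_assoc]
      have h3 : T * y = y * T - c • T := by rw [← hc]; abel
      rw [h3, Matrix.sub_mul, Matrix.smul_mul]))
  refine ⟨W * s, ?_⟩
  calc W * s * (T * e) = W * (s * (T * W)) * V := by rw [← hWV]; simp only [Matrix.mul_assoc]
    _ = e := by rw [hs, Matrix.mul_one, hWV]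

/-- the commutant of the brackets on a block -/
theorem IsGalW.com_min {e : Matrix n n ℂ} (he : IsBlk P e) {x : Matrix n n ℂ} (hx : ∀ y ∈ brk (LG Γ), x * y = y * x) :
    ∃ c : ℂ, e * x * e = c • e := by
  obtain ⟨r, W, V, hVW, hWV⟩ := exists_coord48 he.idem
  obtain ⟨c, hc⟩ := schur_one48 (K := {p : Matrix (Fin r) (Fin r) ℂ | ∃ y ∈ brk (LG Γ), p = V * y * W})
    (by
      intro U hU
      refine G.irr_brk H he hVW hWV U ?_
      intro y hy u hu
      exact hU _ ⟨y, hy, rfl⟩ u hu) (t := V * x * W) (by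
      rintro _ ⟨y, hy, rfl⟩
      have hye := G.LG_EC (LG_brk_le48 hy) he.mem
      calc V * y * W * (V * x * W) = (V * y * W * V) * x * W := by simp only [Matrix.mul_assoc]
        _ = V * (y * x) * W := by rw [← Vx48 hVW hWV hye]; simp only [Matrix.mul_assoc]
        _ = V * x * (y * W) := by rw [← hx y hy]; simp only [Matrix.mul_assoc]
        _ = V * x * W * (V * y * W) := by rw [xW48 hVW hWV hye]; simp only [Matrix.mul_assoc])
  refine ⟨c, ?_⟩
  calc e * x * e = W * (V * x * W) * V := by rw [← hWV]; simp only [Matrix.mul_assoc]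
    _ = c • e := by rw [hc, Matrix.mul_smul, Matrix.mul_one, Matrix.smul_mul, hWV]

/-- a semi-invariant operator from block to block commutes with the brackets, and it is invertible -/
theorem IsGalW.cell {e f : Matrix n n ℂ} (he : IsBlk P e) (hf : IsBlk P f) {T : Matrix n n ℂ} (h1 : f * T = T)
    (h2 : T * e = T) (hT : Sem (brk (LG Γ)) T) (h0 : T ≠ 0) :
    (∀ y ∈ brk (LG Γ), y * T = T * y) ∧ ∃ T', T' * T = e ∧ T * T' = f ∧ e * T' = T' ∧ T' * f = T' := by
  obtain ⟨r, W, V, hVW, hWV⟩ := exists_coord48 he.idem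
  obtain ⟨r', W', V', hVW', hWV'⟩ := exists_coord48 hf.idem
  set K : Set (Matrix (Fin r) (Fin r) ℂ × Matrix (Fin r') (Fin r') ℂ) :=
    {p | ∃ y ∈ brk (LG Γ), p = (V * y * W, V' * y * W')} with hK
  have i1 : ∀ U : Submodule ℂ (Fin r → ℂ), (∀ p ∈ K, ∀ u ∈ U, p.1 *ᵥ u ∈ U) → U = ⊥ ∨ U = ⊤ := by
    intro U hU
    refine G.irr_brk H he hVW hWV U ?_
    intro y hy u hu
    exact hU _ ⟨y, hy, rfl⟩ u hu
  have i2 : ∀ U : Submodule ℂ (Fin r' → ℂ), (∀ p ∈ K, ∀ u ∈ U, p.2 *ᵥ u ∈ U) → U = ⊥ ∨ U = ⊤ := by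
    intro U hU
    refine G.irr_brk H hf hVW' hWV' U ?_
    intro y hy u hu
    exact hU _ ⟨y, hy, rfl⟩ u hu
  have hTt : W' * (V' * T * W) * V = T := by
    calc W' * (V' * T * W) * V = (W' * V') * T * (W * V) := by simp only [Matrix.mul_assoc]
      _ = T := by rw [hWV', hWV, h1, h2]
  have t0 : V' * T * W ≠ 0 := by
    intro h
    apply h0
    rw [← hTt, h, Matrix.mul_zero, Matrix.zero_mul]
  have hsem : ∀ p ∈ K, ∃ c : ℂ, p.2 * (V' * T * W) - V' * T * W * p.1 = c • (V' * T * W) := by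
    rintro _ ⟨y, hy, rfl⟩
    obtain ⟨c, hc⟩ := hT y hy
    refine ⟨c, ?_⟩
    have hye := G.LG_EC (LG_brk_le48 hy) he.mem
    have hyf := G.LG_EC (LG_brk_le48 hy) hf.mem
    change V' * y * W' * (V' * T * W) - V' * T * W * (V * y * W) = _
    have e1 : V' * y * W' * (V' * T * W) = V' * (y * T) * W := by
      calc V' * y * W' * (V' * T * W) = (V' * y * W' * V') * T * W := by simp only [Matrix.mul_assoc]
        _ = _ := by rw [← Vx48 hVW' hWV' hyf]; simp only [Matrix.mul_assoc]
    have e2 : V' * T * W * (V * y * W) = V' * (T * y) * W := by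
      calc V' * T * W * (V * y * W) = V' * T * (W * (V * y * W)) := by simp only [Matrix.mul_assoc]
        _ = _ := by rw [← xW48 hVW hWV hye]; simp only [Matrix.mul_assoc]
    rw [e1, e2, ← Matrix.sub_mul, ← Matrix.mul_sub, hc, Matrix.mul_smul, Matrix.smul_mul]
  have hzero := schur_zero48 i1 i2 hsem (by
      rintro _ ⟨y, hy, rfl⟩
      change (V * y * W).trace = 0
      rw [Matrix.mul_assoc, Matrix.trace_mul_comm, Matrix.mul_assoc, hWV]
      exact brk_trace48 (fun x hx => G.LG_EC hx he.mem) hy) (by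
      rintro _ ⟨y, hy, rfl⟩
      change (V' * y * W').trace = 0
      rw [Matrix.mul_assoc, Matrix.trace_mul_comm, Matrix.mul_assoc, hWV']
      exact brk_trace48 (fun x hx => G.LG_EC hx hf.mem) hy)
  obtain ⟨s, hs, hs'⟩ := schur_inv48 i1 i2 hsem t0
  refine ⟨?_, W * s * V', ?_, ?_, ?_, ?_⟩
  · intro y hy
    have hye := G.LG_EC (LG_brk_le48 hy) he.mem
    have hyf := G.LG_EC (LG_brk_le48 hy) hf.mem
    have h3 := hzero _ ⟨y, hy, rfl⟩
    change V' * y * W' * (V' * T * W) = V' * T * W * (V * y * W) at h3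
    calc y * T = y * (W' * (V' * T * W) * V) := by rw [hTt]
      _ = (y * W') * (V' * T * W) * V := by simp only [Matrix.mul_assoc]
      _ = W' * (V' * y * W' * (V' * T * W)) * V := by rw [xW48 hVW' hWV' hyf]; simp only [Matrix.mul_assoc]
      _ = W' * (V' * T * W) * (V * y * W * V) := by rw [h3]; simp only [Matrix.mul_assoc]
      _ = W' * (V' * T * W) * (V * y) := by rw [← Vx48 hVW hWV hye]
      _ = (W' * (V' * T * W) * V) * y := by simp only [Matrix.mul_assoc]
      _ = T * y := by rw [hTt]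
  · calc W * s * V' * T = W * s * V' * (T * e) := by rw [h2]
      _ = W * (s * (V' * T * W)) * V := by rw [← hWV]; simp only [Matrix.mul_assoc]
      _ = e := by rw [hs, Matrix.mul_one, hWV]
  · calc T * (W * s * V') = f * T * (W * s * V') := by rw [h1]
      _ = W' * (V' * T * W * s) * V' := by rw [← hWV']; simp only [Matrix.mul_assoc]
      _ = f := by rw [hs', Matrix.mul_one, hWV']
  · rw [← Matrix.mul_assoc, ← Matrix.mul_assoc, eW48 hVW hWV]
  · rw [Matrix.mul_assoc, Ve48 hVW' hWV']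

/-- a semi-invariant operator of the brackets from block to block is a semi-invariant of the Mumford-Tate group -/
theorem IsGalW.cell_SI {e f : Matrix n n ℂ} (he : IsBlk P e) (hf : IsBlk P f) {T : Matrix n n ℂ} (h1 : f * T = T)
    (h2 : T * e = T) (hT : Sem (brk (LG Γ)) T) : SI S P T := by
  by_cases h0 : T = 0
  · intro g _
    exact ⟨0, by rw [h0, Matrix.mul_zero, zero_smul]⟩
  obtain ⟨Γ', hΓ, hfi, hcomm⟩ := G.comm
  refine G.semi Γ' hΓ hfi T ?_
  intro g hg
  obtain ⟨hc, T', e1, e2, e3, e4⟩ := G.cell H he hf h1 h2 hT h0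
  have hgg : (g : Matrix n n ℂ) * ((g⁻¹ : GL n ℂ) : Matrix n n ℂ) = 1 := by
    rw [← Units.val_mul, mul_inv_cancel, Units.val_one]
  have hgg' : ((g⁻¹ : GL n ℂ) : Matrix n n ℂ) * (g : Matrix n n ℂ) = 1 := by
    rw [← Units.val_mul, inv_mul_cancel, Units.val_one]
  set g' := ((g⁻¹ : GL n ℂ) : Matrix n n ℂ) with hg'
  -- the conjugate of `T`
  have hS : ∀ y ∈ brk (LG Γ), y * ((g : Matrix n n ℂ) * T * g') = (g : Matrix n n ℂ) * T * g' * y := by
    intro y hy
    have h3 := brk_conj48 (Γ := Γ) (g := g⁻¹) (Γ.inv_mem (hΓ hg)) hy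
    rw [inv_inv] at h3
    have h4 := hc _ h3
    rw [← hg'] at h4
    calc y * ((g : Matrix n n ℂ) * T * g') = (g : Matrix n n ℂ) * g' * y * ((g : Matrix n n ℂ) * T * g') := by
          rw [hgg, one_mul]
      _ = (g : Matrix n n ℂ) * (g' * y * (g : Matrix n n ℂ) * T) * g' := by simp only [mul_assoc]
      _ = (g : Matrix n n ℂ) * T * g' * y * ((g : Matrix n n ℂ) * g') := by rw [h4]; simp only [mul_assoc]
      _ = _ := by rw [hgg, mul_one]
  obtain ⟨c, hcc⟩ := G.com_min H he (x := T' * ((g : Matrix n n ℂ) * T * g')) (by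
    intro y hy
    have hT'y : y * T' = T' * y := by
      have hye := G.LG_EC (LG_brk_le48 hy) he.mem
      have hyf := G.LG_EC (LG_brk_le48 hy) hf.mem
      calc y * T' = y * (e * T') := by rw [e3]
        _ = e * y * T' := by rw [← mul_assoc, hye]
        _ = T' * (T * y) * T' := by rw [← e1]; simp only [mul_assoc]
        _ = T' * y * (T * T') := by rw [← hc y hy]; simp only [mul_assoc]
        _ = T' * (y * f) := by rw [e2, mul_assoc]
        _ = T' * f * y := by rw [hyf, mul_assoc]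
        _ = T' * y := by rw [e4]
    rw [mul_assoc, ← hS y hy, ← mul_assoc, ← hT'y, mul_assoc])
  refine ⟨c, ?_⟩
  have hge := hcomm g hg e he.mem
  have hgf := hcomm g hg f hf.mem
  have hg'e : g' * e = e * g' := by
    calc g' * e = g' * e * ((g : Matrix n n ℂ) * g') := by rw [hgg, mul_one]
      _ = g' * (e * (g : Matrix n n ℂ)) * g' := by simp only [mul_assoc]
      _ = g' * (g : Matrix n n ℂ) * e * g' := by rw [← hge]; simp only [mul_assoc]
      _ = e * g' := by rw [hgg', one_mul]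
  have h5 : (g : Matrix n n ℂ) * T * g' = c • T := by
    calc (g : Matrix n n ℂ) * T * g' = (g : Matrix n n ℂ) * (f * T) * g' := by rw [h1]
      _ = f * ((g : Matrix n n ℂ) * T * g') := by
          rw [← mul_assoc (g : Matrix n n ℂ) f, hgf]; simp only [mul_assoc]
      _ = T * T' * ((g : Matrix n n ℂ) * (T * e) * g') := by rw [e2, h2]
      _ = T * (e * (T' * ((g : Matrix n n ℂ) * T * g')) * e) := by
          have e5 : T * e * T' = T * T' := by rw [h2]
          calc T * T' * ((g : Matrix n n ℂ) * (T * e) * g') = T * T' * ((g : Matrix n n ℂ) * T * (e * g')) := by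
                simp only [mul_assoc]
            _ = T * T' * ((g : Matrix n n ℂ) * T * (g' * e)) := by rw [hg'e]
            _ = T * e * T' * ((g : Matrix n n ℂ) * T * (g' * e)) := by rw [e5]
            _ = _ := by simp only [mul_assoc]
      _ = c • T := by rw [hcc, mul_smul_comm, h2]
  calc (g : Matrix n n ℂ) * T = (g : Matrix n n ℂ) * T * (g' * (g : Matrix n n ℂ)) := by rw [hgg', mul_one]
    _ = ((g : Matrix n n ℂ) * T * g') * (g : Matrix n n ℂ) := by simp only [mul_assoc]
    _ = c • (T * (g : Matrix n n ℂ)) := by rw [h5, smul_mul_assoc]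

end inv

end MH
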